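import Pool.Agent.Run7.h682.Poin

/-!
Affine approximation at small scales for coefficients with a good approximate period.
-/

set_option autoImplicit false

open MeasureTheory Filter Topology Set Metric
open scoped ENNReal NNReal RealInnerProductSpace ContDiff

namespace Run7.h682

variable {d : ℕ}

/-- lattice displacement -/
noncomputable def Vz (t : ℝ) (z : Fin d → ℕ) : Sp d := ∑ b, (z b : ℝ) • (t • eb b)

theorem eb_apply (b b' : Fin d) : (eb b : Sp d) b' = if b' = b then 1 else 0 := by
  simp [eb, PiLp.single_apply]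

theorem inner_eb (p : Sp d) (b : Fin d) : ⟪p, eb b⟫ = p b := by
  simp [eb, EuclideanSpace.inner_single_right]

theorem Vz_apply (t : ℝ) (z : Fin d → ℕ) (b : Fin d) : (Vz t z) b = z b * t := by
  unfold Vz
  simp only [WithLp.ofLp_sum, WithLp.ofLp_smul, Finset.sum_apply, Pi.smul_apply, eb_apply,
    smul_eq_mul]
  rw [Finset.sum_eq_single b]
  · simp
  · intro b' _ hb'
    rw [if_neg (Ne.symm hb')]
    ring
  · intro h
    exact absurd (Finset.mem_univ b) h

theorem norm_Vz_le {t : ℝ} (ht : 0 ≤ t) (z : Fin d → ℕ) : ‖Vz t z‖ ≤ t * ∑ b, (z b : ℝ) := by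
  unfold Vz
  refine (norm_sum_le _ _).trans ?_
  rw [Finset.mul_sum]
  refine Finset.sum_le_sum fun b _ => ?_
  rw [norm_smul, norm_smul, norm_eb, mul_one, Real.norm_of_nonneg ht,
    Real.norm_of_nonneg (Nat.cast_nonneg _), mul_comm]

theorem path {u : Sp d → ℝ} (hu : MemLp u 2 volume) {t : ℝ} (ht : 0 < t) {p : Sp d}
    {θ r1 ε : ℝ} (hε : ∀ b, nr (ball 0 r1) (fun x => Dq t b u x - p b) ≤ ε) :
    ∀ n : ℕ, ∀ z : Fin d → ℕ, ∑ b, z b = n → ∀ y : Sp d, ‖y‖ + θ + t * n ≤ r1 →
      nr (ball 0 θ) (fun x => u (x + y + Vz t z) - u (x + y) - ⟪p, Vz t z⟫) ≤ n * (t * ε) := by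
  intro n
  induction n with
  | zero =>
    intro z hz y hy
    have h0 : ∀ b, z b = 0 := fun b => by
      have := Finset.sum_eq_zero_iff.1 hz b (Finset.mem_univ b)
      exact this
    have hV : Vz t z = 0 := by
      unfold Vz
      exact Finset.sum_eq_zero fun b _ => by rw [h0 b]; simp
    have : (fun x => u (x + y + Vz t z) - u (x + y) - ⟪p, Vz t z⟫) = fun _ => (0:ℝ) := by
      funext x
      rw [hV, add_zero, inner_zero_right]
      ring
    rw [this, nr_const]
    simp
  | succ n ih =>
    intro z hz y hy
    obtain ⟨b, hb⟩ : ∃ b, z b ≠ 0 := by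
      by_contra hcon
      push Not at hcon
      rw [Finset.sum_eq_zero fun b _ => hcon b] at hz
      omega
    set z' : Fin d → ℕ := Function.update z b (z b - 1) with hz'
    have hsum : ∑ b, z' b = n := by
      have h1 : ∑ b, z b = z b + ∑ b' ∈ Finset.univ.erase b, z b' :=
        (Finset.add_sum_erase _ _ (Finset.mem_univ b)).symm
      have h2 : ∑ b, z' b = z' b + ∑ b' ∈ Finset.univ.erase b, z' b' :=
        (Finset.add_sum_erase _ _ (Finset.mem_univ b)).symm
      have h3 : ∑ b' ∈ Finset.univ.erase b, z' b' = ∑ b' ∈ Finset.univ.erase b, z b' :=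
        Finset.sum_congr rfl fun b' hb' => by
          rw [hz', Function.update_of_ne (Finset.ne_of_mem_erase hb')]
      have h4 : z' b = z b - 1 := by rw [hz', Function.update_self]
      omega
    have hV : Vz t z = Vz t z' + t • eb b := by
      ext b'
      rw [Vz_apply]
      show (z b' : ℝ) * t = (Vz t z') b' + (t • eb b : Sp d) b'
      rw [Vz_apply]
      show (z b' : ℝ) * t = z' b' * t + t * (eb b : Sp d) b'
      rw [eb_apply]
      by_cases hbb : b' = b
      · subst hbb
        rw [hz', Function.update_self, if_pos rfl, Nat.cast_sub (by omega)]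
        push_cast
        ring
      · rw [hz', Function.update_of_ne hbb, if_neg hbb]
        ring
    set w := y + Vz t z' with hw
    have hnV : ‖Vz t z'‖ ≤ t * n := by
      have := norm_Vz_le ht.le z'
      rwa [← Nat.cast_sum, hsum] at this
    push_cast at hy
    have hmv : ∀ x ∈ ball (0 : Sp d) θ, x + w ∈ ball (0 : Sp d) r1 := by
      intro x hx
      rw [mem_ball_zero_iff] at hx ⊢
      have h1 := norm_add_le x w
      have h2 := norm_add_le y (Vz t z')
      rw [← hw] at h2
      linarith
    have hfin : ∀ (S : Set (Sp d)) (r : ℝ), S = ball 0 r → volume S ≠ ⊤ := fun S r h => by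
      rw [h]; exact measure_ball_lt_top.ne
    have mD : MemLp (Dq t b u) 2 volume := ((memLp_translate hu _).sub hu).const_smul t⁻¹
    have mG : MemLp (fun x => Dq t b u x - p b) 2 (volume.restrict (ball 0 r1)) :=
      (memLp_res mD).sub (memLp_const_on measure_ball_lt_top.ne _)
    have mG' : MemLp (fun x => t • (Dq t b u (x + w) - p b)) 2 (volume.restrict (ball 0 θ)) :=
      (memLp_translate_on (f := fun x => Dq t b u x - p b) hmv mG).const_smul t
    have mH : MemLp (fun x => u (x + y + Vz t z') - u (x + y) - ⟪p, Vz t z'⟫) 2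
        (volume.restrict (ball 0 θ)) := by
      refine MemLp.sub ?_ (memLp_const_on measure_ball_lt_top.ne _)
      have h1 := memLp_translate hu (y + Vz t z')
      have h2 := memLp_translate hu y
      simp only [← add_assoc] at h1
      exact memLp_res (h1.sub h2)
    have e1 : (fun x => u (x + y + Vz t z) - u (x + y) - ⟪p, Vz t z⟫) = fun x =>
        t • (Dq t b u (x + w) - p b) +
          (u (x + y + Vz t z') - u (x + y) - ⟪p, Vz t z'⟫) := by
      funext x
      rw [smul_sub, smul_Dq ht, hV, inner_add_right, real_inner_smul_right, inner_eb, hw,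
        smul_eq_mul]
      rw [show x + y + (Vz t z' + t • eb b) = x + (y + Vz t z') + t • eb b by abel,
        show x + y + Vz t z' = x + (y + Vz t z') by abel]
      ring
    rw [e1]
    refine (nr_add_le mG' mH).trans ?_
    have h1 : nr (ball 0 θ) (fun x => t • (Dq t b u (x + w) - p b)) ≤ t * ε := by
      rw [nr_smul, abs_of_pos ht]
      refine mul_le_mul_of_nonneg_left ?_ ht.le
      exact (nr_translate_le (f := fun x => Dq t b u x - p b) hmv mG).trans (hε b)
    have h2 := ih z' hsum y (by linarith)
    push_cast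
    linarith

end Run7.h682
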