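import Pool.Agent.Run7.h682.Sol

/-!
Cut-off and approximation by test functions; testing the equation with `χ u`.
-/

set_option autoImplicit false

open MeasureTheory Filter Topology Set Metric
open scoped ENNReal NNReal RealInnerProductSpace ContDiff

namespace Run7.h682

variable {d : ℕ}

theorem Cc.bdd {U : Set (Sp d)} {φ : Sp d → ℝ} (hφ : Cc U φ) : ∃ B : ℝ, 0 ≤ B ∧ ∀ x, |φ x| ≤ B := by
  obtain ⟨B, hB⟩ := hφ.continuous.bounded_above_of_compact_support hφ.comp
  exact ⟨B, (norm_nonneg _).trans (hB 0), hB⟩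

theorem Cc.bdd_gradient {U : Set (Sp d)} {φ : Sp d → ℝ} (hφ : Cc U φ) :
    ∃ B : ℝ, 0 ≤ B ∧ ∀ x, ‖gradient φ x‖ ≤ B := by
  obtain ⟨B, hB⟩ := hφ.cont_gradient.bounded_above_of_compact_support hφ.comp_gradient
  exact ⟨B, (norm_nonneg _).trans (hB 0), hB⟩

theorem fderiv_mul_apply {φ χ : Sp d → ℝ} (hφ : Differentiable ℝ φ) (hχ : Differentiable ℝ χ)
    (x v : Sp d) :
    fderiv ℝ (fun x => χ x * φ x) x v = χ x * fderiv ℝ φ x v + φ x * fderiv ℝ χ x v := by
  rw [fderiv_fun_mul (hχ x) (hφ x)]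
  simp

theorem Cc.mul {U : Set (Sp d)} {φ χ : Sp d → ℝ} (hφ : Cc univ φ) (hχ : Cc U χ) :
    Cc U (fun x => χ x * φ x) :=
  ⟨hχ.smooth.mul hφ.smooth, hχ.comp.mul_right, (tsupport_mul_subset_left).trans hχ.sub⟩

theorem WG.cut {U : Set (Sp d)} {u : Sp d → ℝ} {g : Sp d → Sp d} (h : WG U u g)
    {χ : Sp d → ℝ} (hχ : Cc U χ) :
    WG univ (fun x => χ x * u x) (fun x => χ x • g x + u x • gradient χ x) := by
  obtain ⟨B, hB0, hB⟩ := hχ.bdd
  obtain ⟨B', hB0', hB'⟩ := hχ.bdd_gradient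
  refine ⟨memLp_bdd_smul hχ.continuous hB h.mu, (memLp_bdd_smul hχ.continuous hB h.mg).add ?_, ?_⟩
  · refine h.mu.of_le_mul (c := B') (h.mu.1.smul hχ.cont_gradient.aestronglyMeasurable)
      (ae_of_all _ fun x => ?_)
    rw [norm_smul, mul_comm]
    exact mul_le_mul_of_nonneg_right (hB' x) (norm_nonneg _)
  · intro φ hφ v
    have hm : Cc U (fun x => χ x * φ x) := hφ.mul hχ
    have h1 := h.wg _ hm v
    have i1 : Integrable (fun x => u x * fderiv ℝ (fun x => χ x * φ x) x v) :=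
      int_mul h.mu (hm.memLp_fderiv_apply v)
    obtain ⟨C, hC0, hC⟩ := hφ.bdd
    have m2 : MemLp (fun x => φ x * fderiv ℝ χ x v) 2 volume :=
      memLp_bdd_smul hφ.continuous hC (hχ.memLp_fderiv_apply v)
    have i2 : Integrable (fun x => u x * (φ x * fderiv ℝ χ x v)) := int_mul h.mu m2
    have i3 : Integrable (fun x => (χ x * φ x) * ⟪g x, v⟫) :=
      int_mul hm.memLp (memLp_inner_const h.mg v)
    have e1 : ∫ x, χ x * u x * fderiv ℝ φ x v =
        ∫ x, u x * fderiv ℝ (fun x => χ x * φ x) x v - u x * (φ x * fderiv ℝ χ x v) := by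
      congr 1
      funext x
      rw [fderiv_mul_apply hφ.differentiable hχ.differentiable]
      ring
    have e2 : ∫ x, φ x * ⟪χ x • g x + u x • gradient χ x, v⟫ =
        ∫ x, (χ x * φ x) * ⟪g x, v⟫ + u x * (φ x * fderiv ℝ χ x v) := by
      congr 1
      funext x
      rw [inner_add_left, real_inner_smul_left, real_inner_smul_left, inner_gradient]
      ring
    rw [e1, e2, integral_sub i1 i2, integral_add i3 i2, h1]
    ring

theorem WG.vec {w : Sp d → ℝ} {G : Sp d → Sp d} (h : WG univ w G) {φ : Sp d → ℝ}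
    (hφ : Cc univ φ) : ∫ x, w x • gradient φ x = - ∫ x, φ x • G x := by
  obtain ⟨B, hB0, hB⟩ := hφ.bdd
  obtain ⟨B', hB0', hB'⟩ := hφ.bdd_gradient
  have i1 : Integrable (fun x => w x • gradient φ x) := by
    have : Integrable (fun x => ‖w x‖ * ‖gradient φ x‖) := h.mu.norm.integrable_mul
      hφ.memLp_gradient.norm
    refine this.mono (h.mu.1.smul hφ.cont_gradient.aestronglyMeasurable) (ae_of_all _ fun x => ?_)
    rw [norm_smul, norm_mul, norm_norm, norm_norm]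
  have i2 : Integrable (fun x => φ x • G x) := by
    have : Integrable (fun x => ‖φ x‖ * ‖G x‖) := hφ.memLp.norm.integrable_mul h.mg.norm
    refine this.mono (hφ.continuous.aestronglyMeasurable.smul h.mg.1) (ae_of_all _ fun x => ?_)
    rw [norm_smul, norm_mul, norm_norm, norm_norm]
  refine ext_inner_left ℝ fun v => ?_
  rw [inner_neg_right, ← integral_inner i1, ← integral_inner i2]
  have := h.wg φ hφ v
  have e1 : ∫ x, ⟪v, w x • gradient φ x⟫ = ∫ x, w x * fderiv ℝ φ x v := by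
    congr 1
    funext x
    rw [real_inner_comm, real_inner_smul_left, inner_gradient]
  have e2 : ∫ x, ⟪v, φ x • G x⟫ = ∫ x, φ x * ⟪G x, v⟫ := by
    congr 1
    funext x
    rw [real_inner_comm, real_inner_smul_left]
  rw [e1, e2, this]

/-- approximation of compactly supported Sobolev functions by test functions -/
theorem WG.approx {w : Sp d → ℝ} {G : Sp d → Sp d} (h : WG univ w G) {K U : Set (Sp d)}
    (hK : IsCompact K) (hw : ∀ x, x ∉ K → w x = 0) (hU : IsOpen U) (hKU : K ⊆ U) {ε : ℝ}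
    (hε : 0 < ε) : ∃ φ : Sp d → ℝ, Cc U φ ∧
      eLpNorm (fun x => w x - φ x) 2 volume ≤ ENNReal.ofReal ε ∧
      eLpNorm (fun x => G x - gradient φ x) 2 volume ≤ ENNReal.ofReal ε := by
  obtain ⟨δ, hδ, hδU⟩ := hK.exists_cthickening_subset_open hU hKU
  have e2 : ENNReal.ofReal 2 = 2 := by simp
  obtain ⟨φ, h1, h2, h3, h4, -, -⟩ := mollify_weak (p := 2) (by norm_num)
    (g := w) (U := G) (by rw [e2]; exact h.mu) (by rw [e2]; exact h.mg) hK
    (ae_of_all _ hw) (fun φ hφ => h.vec hφ) (δ := min δ ε) (lt_min hδ hε)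
  rw [e2] at h3 h4
  refine ⟨φ, ⟨h1.smooth, h1.comp, ?_⟩, h3.trans ?_, h4.trans ?_⟩
  · exact h2.trans ((cthickening_mono (min_le_left _ _) _).trans hδU)
  · exact ENNReal.ofReal_le_ofReal (min_le_right _ _)
  · exact ENNReal.ofReal_le_ofReal (min_le_right _ _)

/-- Cauchy-Schwarz -/
theorem abs_int_inner_le {f g : Sp d → Sp d} (hf : MemLp f 2 volume) (hg : MemLp g 2 volume) :
    |∫ x, ⟪f x, g x⟫| ≤ nr univ f * nr univ g := by
  have e2 : ENNReal.ofReal 2 = 2 := by simp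
  have h1 : |∫ x, ⟪f x, g x⟫| ≤ ∫ x, ‖f x‖ * ‖g x‖ := by
    rw [← Real.norm_eq_abs]
    refine norm_integral_le_of_norm_le (hf.norm.integrable_mul hg.norm) (ae_of_all _ fun x => ?_)
    exact norm_inner_le_norm _ _
  have h2 := integral_mul_norm_le_Lp_mul_Lq (μ := volume) (f := f) (g := g) (p := 2) (q := 2)
    Real.HolderConjugate.two_two (by rw [e2]; exact hf) (by rw [e2]; exact hg)
  refine h1.trans (h2.trans (le_of_eq ?_))
  have e3 : ∀ f : Sp d → Sp d, MemLp f 2 volume → (∫ a, ‖f a‖ ^ (2:ℝ)) ^ (1 / (2:ℝ)) = nr univ f := by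
    intro f hf
    have h3 := nr_sq (S := univ) (f := f) (memLp_res hf)
    rw [Measure.restrict_univ] at h3
    have h4 : ∫ a, ‖f a‖ ^ (2:ℝ) = ∫ a, ‖f a‖ ^ 2 := by
      congr 1; funext x; simp
    rw [h4, ← h3, ← Real.sqrt_eq_rpow, Real.sqrt_sq (nr_nonneg _ _)]
  rw [e3 f hf, e3 g hg]

theorem nr_univ_le {F : Type*} [NormedAddCommGroup F] {f : Sp d → F} {ε : ℝ} (hε : 0 ≤ ε)
    (h : eLpNorm f 2 volume ≤ ENNReal.ofReal ε) (S : Set (Sp d)) : nr S f ≤ ε := by
  unfold nr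
  rw [← ENNReal.toReal_ofReal hε]
  exact ENNReal.toReal_mono ENNReal.ofReal_ne_top
    ((eLpNorm_mono_measure _ Measure.restrict_le_self).trans h)

/-- the equation tested with `χ u` -/
theorem Sol.test {a : Sp d → Sp d →L[ℝ] Sp d} {lam M : ℝ} (ha : Coef lam M a) {U : Set (Sp d)}
    (hU : IsOpen U) {u : Sp d → ℝ} {g F : Sp d → Sp d} (h : Sol a U u g F) {χ : Sp d → ℝ}
    (hχ : Cc U χ) : ∫ x, ⟪χ x • g x + u x • gradient χ x, a x (g x) + F x⟫ = 0 := by
  have hw := h.toWG.cut hχ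
  set G : Sp d → Sp d := fun x => χ x • g x + u x • gradient χ x with hG
  set H : Sp d → Sp d := fun x => a x (g x) + F x with hH
  have mH : MemLp H 2 volume := (memLp_coef ha.cont ha.bdd h.mg).add h.mF
  have key : ∀ ε : ℝ, 0 < ε → |∫ x, ⟪G x, H x⟫| ≤ ε * nr univ H := by
    intro ε hε
    obtain ⟨φ, hφ, -, h2⟩ := hw.approx (K := tsupport χ) hχ.comp
      (fun x hx => by rw [image_eq_zero_of_notMem_tsupport hx, zero_mul]) hU hχ.sub hε
    have h3 : ∫ x, ⟪gradient φ x, H x⟫ = 0 := by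
      rw [← h.eq φ hφ]
      congr 1
      funext x
      rw [inner_gradient]
    have mφ := hφ.memLp_gradient
    have h4 : ∫ x, ⟪G x, H x⟫ = ∫ x, ⟪G x - gradient φ x, H x⟫ := by
      have : ∫ x, ⟪G x - gradient φ x, H x⟫ = (∫ x, ⟪G x, H x⟫) - ∫ x, ⟪gradient φ x, H x⟫ := by
        rw [← integral_sub (int_inner hw.mg mH) (int_inner mφ mH)]
        congr 1
        funext x
        rw [inner_sub_left]
      rw [this, h3, sub_zero]
    rw [h4]
    refine (abs_int_inner_le (hw.mg.sub mφ) mH).trans ?_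
    exact mul_le_mul_of_nonneg_right (nr_univ_le hε.le h2 _) (nr_nonneg _ _)
  by_contra hne
  have hpos : 0 < |∫ x, ⟪G x, H x⟫| := abs_pos.2 hne
  have hN := nr_nonneg univ H
  have := key (|∫ x, ⟪G x, H x⟫| / (2 * (nr univ H + 1))) (by positivity)
  have h5 : |∫ x, ⟪G x, H x⟫| / (2 * (nr univ H + 1)) * nr univ H ≤ |∫ x, ⟪G x, H x⟫| / 2 := by
    rw [div_mul_eq_mul_div, div_le_div_iff₀ (by positivity) (by norm_num)]
    nlinarith
  linarith

end Run7.h682
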