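import Pool.Agent.Run7.h682.Moll

/-!
Real-valued `L²` norms over sets, and their basic properties.
-/

set_option autoImplicit false

open MeasureTheory Filter Topology Set Metric
open scoped ENNReal NNReal RealInnerProductSpace

namespace Run7.h682

variable {d : ℕ} {F : Type*} [NormedAddCommGroup F]

/-- real-valued `L²` norm over a set -/
noncomputable def nr (S : Set (Sp d)) (f : Sp d → F) : ℝ :=
  (eLpNorm f 2 (volume.restrict S)).toReal

theorem nr_nonneg (S : Set (Sp d)) (f : Sp d → F) : 0 ≤ nr S f := ENNReal.toReal_nonneg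

theorem nr_add_le {S : Set (Sp d)} {f g : Sp d → F} (hf : MemLp f 2 (volume.restrict S))
    (hg : MemLp g 2 (volume.restrict S)) :
    nr S (fun x => f x + g x) ≤ nr S f + nr S g := by
  unfold nr
  rw [← ENNReal.toReal_add hf.2.ne hg.2.ne]
  exact ENNReal.toReal_mono (ENNReal.add_ne_top.2 ⟨hf.2.ne, hg.2.ne⟩)
    (eLpNorm_add_le hf.1 hg.1 (by norm_num))

theorem nr_sub_le {S : Set (Sp d)} {f g : Sp d → F} (hf : MemLp f 2 (volume.restrict S))
    (hg : MemLp g 2 (volume.restrict S)) :
    nr S (fun x => f x - g x) ≤ nr S f + nr S g := by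
  unfold nr
  rw [← ENNReal.toReal_add hf.2.ne hg.2.ne]
  exact ENNReal.toReal_mono (ENNReal.add_ne_top.2 ⟨hf.2.ne, hg.2.ne⟩)
    (eLpNorm_sub_le hf.1 hg.1 (by norm_num))

theorem nr_smul [NormedSpace ℝ F] (S : Set (Sp d)) (c : ℝ) (f : Sp d → F) :
    nr S (fun x => c • f x) = |c| * nr S f := by
  unfold nr
  have : (fun x => c • f x) = c • f := rfl
  rw [this, eLpNorm_const_smul, ENNReal.toReal_mul, toReal_enorm, Real.norm_eq_abs]

theorem nr_neg (S : Set (Sp d)) (f : Sp d → F) : nr S (fun x => - f x) = nr S f := by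
  unfold nr
  have : (fun x => - f x) = - f := rfl
  rw [this, eLpNorm_neg]

theorem nr_mono {S T : Set (Sp d)} (h : S ⊆ T) {f : Sp d → F}
    (hf : MemLp f 2 (volume.restrict T)) : nr S f ≤ nr T f := by
  unfold nr
  exact ENNReal.toReal_mono hf.2.ne (eLpNorm_mono_measure _ (Measure.restrict_mono h le_rfl))

theorem memLp_res {S : Set (Sp d)} {f : Sp d → F} (hf : MemLp f 2 volume) :
    MemLp f 2 (volume.restrict S) := hf.mono_measure Measure.restrict_le_self

theorem memLp_res_mono {S T : Set (Sp d)} (h : S ⊆ T) {f : Sp d → F}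
    (hf : MemLp f 2 (volume.restrict T)) : MemLp f 2 (volume.restrict S) :=
  hf.mono_measure (Measure.restrict_mono h le_rfl)

theorem nr_le_mul {G : Type*} [NormedAddCommGroup G] {S : Set (Sp d)} (hS : MeasurableSet S)
    {f : Sp d → F} {g : Sp d → G} {C : ℝ} (hC : 0 ≤ C)
    (hg : MemLp g 2 (volume.restrict S)) (h : ∀ x ∈ S, ‖f x‖ ≤ C * ‖g x‖) :
    nr S f ≤ C * nr S g := by
  unfold nr
  have h1 : eLpNorm f 2 (volume.restrict S) ≤ ENNReal.ofReal C * eLpNorm g 2 (volume.restrict S) :=
    eLpNorm_le_mul_eLpNorm_of_ae_le_mul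
      ((ae_restrict_iff' hS).2 (Eventually.of_forall fun x hx => h x hx)) 2
  have h2 : (ENNReal.ofReal C * eLpNorm g 2 (volume.restrict S)).toReal =
      C * (eLpNorm g 2 (volume.restrict S)).toReal := by
    rw [ENNReal.toReal_mul, ENNReal.toReal_ofReal hC]
  rw [← h2]
  exact ENNReal.toReal_mono (ENNReal.mul_ne_top ENNReal.ofReal_ne_top hg.2.ne) h1

theorem nr_congr {S : Set (Sp d)} (hS : MeasurableSet S) {f g : Sp d → F}
    (h : ∀ x ∈ S, f x = g x) : nr S f = nr S g := by
  unfold nr
  congr 1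
  exact eLpNorm_congr_ae ((ae_restrict_iff' hS).2 (Eventually.of_forall fun x hx => h x hx))

theorem nr_congr_ae {S : Set (Sp d)} {f g : Sp d → F}
    (h : f =ᵐ[volume.restrict S] g) : nr S f = nr S g := by
  unfold nr
  congr 1
  exact eLpNorm_congr_ae h

/-- the square of the norm -/
theorem nr_sq {S : Set (Sp d)} {f : Sp d → F} (hf : MemLp f 2 (volume.restrict S)) :
    nr S f ^ 2 = ∫ x in S, ‖f x‖ ^ 2 := by
  have h0 : (2 : ℝ≥0∞) ≠ 0 := by norm_num
  have h1 : (2 : ℝ≥0∞) ≠ ⊤ := by norm_num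
  have h := hf.eLpNorm_eq_integral_rpow_norm h0 h1
  unfold nr
  rw [h, ENNReal.toReal_ofReal (by positivity)]
  have e : ∫ x in S, ‖f x‖ ^ (2 : ℝ≥0∞).toReal = ∫ x in S, ‖f x‖ ^ 2 := by
    congr 1
    funext x
    simp
  rw [e]
  have hpos : 0 ≤ ∫ x in S, ‖f x‖ ^ 2 := integral_nonneg fun x => by positivity
  rw [← Real.rpow_natCast, ← Real.rpow_mul hpos]
  simp

theorem nr_sq_int {S : Set (Sp d)} {f : Sp d → F} (hf : MemLp f 2 (volume.restrict S)) :
    IntegrableOn (fun x => ‖f x‖ ^ 2) S :=
  (memLp_two_iff_integrable_sq_norm hf.1).1 hf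

theorem nr_le_of_sq {S : Set (Sp d)} {f : Sp d → F} (hf : MemLp f 2 (volume.restrict S)) {C : ℝ}
    (hC : 0 ≤ C) (h : ∫ x in S, ‖f x‖ ^ 2 ≤ C ^ 2) : nr S f ≤ C := by
  rw [← nr_sq hf] at h
  exact abs_le_of_sq_le_sq' h hC |>.2

/-- translation -/
theorem eLpNorm_translate (S : Set (Sp d)) (f : Sp d → F) (h : Sp d) :
    eLpNorm (fun x => f (x + h)) 2 (volume.restrict ((fun x => x + h) ⁻¹' S)) =
      eLpNorm f 2 (volume.restrict S) := by
  have hm : MeasurePreserving (fun x : Sp d => x + h) volume volume :=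
    measurePreserving_add_right volume h
  have he : MeasurableEmbedding (fun x : Sp d => x + h) := measurableEmbedding_addRight h
  have h2 : MeasurePreserving (fun x : Sp d => x + h) (volume.restrict ((fun x => x + h) ⁻¹' S))
      (volume.restrict S) := hm.restrict_preimage_emb he S
  have h3 := he.eLpNorm_map_measure (g := f) (p := 2)
    (μ := volume.restrict ((fun x => x + h) ⁻¹' S))
  rw [h2.map_eq] at h3
  exact h3.symm

theorem nr_translate_le {S T : Set (Sp d)} {f : Sp d → F} {h : Sp d}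
    (hST : ∀ x ∈ S, x + h ∈ T) (hf : MemLp f 2 (volume.restrict T)) :
    nr S (fun x => f (x + h)) ≤ nr T f := by
  unfold nr
  refine ENNReal.toReal_mono hf.2.ne ?_
  rw [← eLpNorm_translate T f h]
  exact eLpNorm_mono_measure _ (Measure.restrict_mono (fun x hx => hST x hx) le_rfl)

theorem memLp_translate {f : Sp d → F} (hf : MemLp f 2 volume) (h : Sp d) :
    MemLp (fun x => f (x + h)) 2 volume :=
  hf.comp_measurePreserving (measurePreserving_add_right volume h)

theorem memLp_translate_on {S T : Set (Sp d)} {f : Sp d → F} {h : Sp d}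
    (hST : ∀ x ∈ S, x + h ∈ T) (hf : MemLp f 2 (volume.restrict T)) :
    MemLp (fun x => f (x + h)) 2 (volume.restrict S) := by
  have hm : MeasurePreserving (fun x : Sp d => x + h) volume volume :=
    measurePreserving_add_right volume h
  have he : MeasurableEmbedding (fun x : Sp d => x + h) := measurableEmbedding_addRight h
  have h2 : MeasurePreserving (fun x : Sp d => x + h) (volume.restrict ((fun x => x + h) ⁻¹' T))
      (volume.restrict T) := hm.restrict_preimage_emb he T
  exact (hf.comp_measurePreserving h2).mono_measure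
    (Measure.restrict_mono (fun x hx => hST x hx) le_rfl)

theorem nr_const {S : Set (Sp d)} (c : F) :
    nr S (fun _ => c) = ‖c‖ * Real.sqrt (volume.real S) := by
  unfold nr
  by_cases h : volume.restrict S = 0
  · rw [h]
    have : volume.real S = 0 := by
      rw [Measure.restrict_eq_zero] at h
      simp [Measure.real, h]
    rw [this]
    simp
  · rw [eLpNorm_const c (by norm_num) h, ENNReal.toReal_mul, toReal_enorm, ← ENNReal.toReal_rpow,
      Measure.restrict_apply_univ, Real.sqrt_eq_rpow]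
    simp [Measure.real]

theorem memLp_const_on {S : Set (Sp d)} (hS : volume S ≠ ⊤) (c : F) :
    MemLp (fun _ : Sp d => c) 2 (volume.restrict S) := by
  have : IsFiniteMeasure (volume.restrict S) := ⟨by
    rw [Measure.restrict_apply_univ]; exact lt_top_iff_ne_top.2 hS⟩
  exact memLp_const c

end Run7.h682
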