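import Pool.Agent.Run7.h682.Approx

/-!
Translation estimate and Caccioppoli inequality.
-/

set_option autoImplicit false

open MeasureTheory Filter Topology Set Metric
open scoped ENNReal NNReal RealInnerProductSpace ContDiff

namespace Run7.h682

variable {d : ℕ}

theorem memLp_ball_of_bdd {F : Type*} [NormedAddCommGroup F] {f : Sp d → F} (hf : Continuous f)
    {B : ℝ} (hB : ∀ x, ‖f x‖ ≤ B) (x0 : Sp d) (r : ℝ) : MemLp f 2 (volume.restrict (ball x0 r)) := by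
  have : IsFiniteMeasure (volume.restrict (ball x0 r)) := ⟨by
    rw [Measure.restrict_apply_univ]; exact measure_ball_lt_top⟩
  exact MemLp.of_bound hf.aestronglyMeasurable B (ae_of_all _ hB)

/-- the one dimensional estimate along a segment -/
theorem seg_sq {φ : Sp d → ℝ} (hφ : Cc univ φ) (x h : Sp d) :
    (φ (x + h) - φ x) ^ 2 ≤ ∫ s in Ioc (0:ℝ) 1, ‖h‖ ^ 2 * ‖gradient φ (x + s • h)‖ ^ 2 := by
  set f' : ℝ → ℝ := fun s => fderiv ℝ φ (x + s • h) h with hf'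
  have hc : Continuous f' := by
    have := hφ.cont_fderiv
    fun_prop
  have hder : ∀ s ∈ uIcc (0:ℝ) 1, HasDerivAt (fun s : ℝ => φ (x + s • h)) (f' s) s := by
    intro s _
    have h1 : HasFDerivAt φ (fderiv ℝ φ (x + s • h)) (x + s • h) :=
      (hφ.differentiable _).hasFDerivAt
    have h2 : HasDerivAt (fun s : ℝ => x + s • h) h s := by
      simpa using ((hasDerivAt_id s).smul_const h).const_add x
    exact h1.comp_hasDerivAt s h2
  have ftc := intervalIntegral.integral_eq_sub_of_hasDerivAt hder (hc.intervalIntegrable 0 1)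
  simp only [one_smul, zero_smul, add_zero] at ftc
  set m := φ (x + h) - φ x with hm
  have hpos : 0 ≤ ∫ s in (0:ℝ)..1, (f' s - m) ^ 2 :=
    intervalIntegral.integral_nonneg zero_le_one fun s _ => sq_nonneg _
  have i1 : IntervalIntegrable (fun s => f' s ^ 2) volume 0 1 := (hc.pow 2).intervalIntegrable _ _
  have i2 : IntervalIntegrable (fun s => 2 * m * f' s) volume 0 1 :=
    (continuous_const.mul hc).intervalIntegrable _ _
  have e : ∫ s in (0:ℝ)..1, (f' s - m) ^ 2 = (∫ s in (0:ℝ)..1, f' s ^ 2) - m ^ 2 := by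
    have e1 : ∀ s, (f' s - m) ^ 2 = f' s ^ 2 - 2 * m * f' s + m ^ 2 := fun s => by ring
    simp only [e1]
    rw [intervalIntegral.integral_add (i1.sub i2) (by simp), intervalIntegral.integral_sub i1 i2,
      intervalIntegral.integral_const_mul, ftc]
    simp
    ring
  rw [e] at hpos
  have h3 : m ^ 2 ≤ ∫ s in (0:ℝ)..1, f' s ^ 2 := by linarith
  refine h3.trans ?_
  rw [intervalIntegral.integral_of_le zero_le_one]
  have hg := hφ.cont_gradient
  refine setIntegral_mono_on ?_ ?_ measurableSet_Ioc ?_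
  · exact ((hc.pow 2).integrableOn_Icc).mono_set Ioc_subset_Icc_self
  · have : Continuous fun s : ℝ => ‖h‖ ^ 2 * ‖gradient φ (x + s • h)‖ ^ 2 := by fun_prop
    exact this.integrableOn_Icc.mono_set Ioc_subset_Icc_self
  · intro s _
    have : |f' s| ≤ ‖h‖ * ‖gradient φ (x + s • h)‖ := by
      rw [norm_gradient, mul_comm]
      exact (fderiv ℝ φ (x + s • h)).le_opNorm h
    rw [← sq_abs, ← mul_pow]
    exact pow_le_pow_left₀ (abs_nonneg _) this 2

theorem smooth_translate {φ : Sp d → ℝ} (hφ : Cc univ φ) (h : Sp d) (r : ℝ) :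
    nr (ball 0 r) (fun x => φ (x + h) - φ x) ≤ ‖h‖ * nr (ball 0 (r + ‖h‖)) (gradient φ) := by
  obtain ⟨B, hB0, hB⟩ := hφ.bdd_gradient
  have hg := hφ.cont_gradient
  have mφ : MemLp (fun x => φ (x + h) - φ x) 2 volume :=
    (memLp_translate hφ.memLp h).sub hφ.memLp
  refine nr_le_of_sq (memLp_res mφ) (mul_nonneg (norm_nonneg _) (nr_nonneg _ _)) ?_
  have hfin : IsFiniteMeasure (volume.restrict (ball (0 : Sp d) r)) := ⟨by
    rw [Measure.restrict_apply_univ]; exact measure_ball_lt_top⟩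
  have hI : Integrable (Function.uncurry fun (x : Sp d) (s : ℝ) =>
      ‖h‖ ^ 2 * ‖gradient φ (x + s • h)‖ ^ 2)
      ((volume.restrict (ball (0 : Sp d) r)).prod (volume.restrict (Ioc (0:ℝ) 1))) := by
    have hc : Continuous (Function.uncurry fun (x : Sp d) (s : ℝ) =>
      ‖h‖ ^ 2 * ‖gradient φ (x + s • h)‖ ^ 2) := by
      unfold Function.uncurry
      fun_prop
    refine (integrable_const (‖h‖ ^ 2 * B ^ 2)).mono' hc.aestronglyMeasurable
      (ae_of_all _ fun p => ?_)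
    unfold Function.uncurry
    rw [Real.norm_of_nonneg (by positivity)]
    exact mul_le_mul_of_nonneg_left (pow_le_pow_left₀ (norm_nonneg _) (hB _) 2) (by positivity)
  calc ∫ x in ball 0 r, ‖φ (x + h) - φ x‖ ^ 2
      ≤ ∫ x in ball 0 r, ∫ s in Ioc (0:ℝ) 1, ‖h‖ ^ 2 * ‖gradient φ (x + s • h)‖ ^ 2 := by
        refine integral_mono (nr_sq_int (memLp_res mφ)) hI.integral_prod_left fun x => ?_
        simp only [Real.norm_eq_abs, sq_abs]
        exact seg_sq hφ x h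
    _ = ∫ s in Ioc (0:ℝ) 1, ∫ x in ball 0 r, ‖h‖ ^ 2 * ‖gradient φ (x + s • h)‖ ^ 2 :=
        integral_integral_swap hI
    _ ≤ ∫ s in Ioc (0:ℝ) 1, (‖h‖ * nr (ball 0 (r + ‖h‖)) (gradient φ)) ^ 2 := by
        refine setIntegral_mono_on hI.integral_prod_right (integrable_const _) measurableSet_Ioc ?_
        intro s hs
        rw [integral_const_mul, mul_pow]
        refine mul_le_mul_of_nonneg_left ?_ (by positivity)
        have mg := hφ.memLp_gradient
        have h1 := nr_sq (S := ball 0 r) (memLp_res (memLp_translate mg (s • h)))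
        rw [← h1]
        refine pow_le_pow_left₀ (nr_nonneg _ _) (nr_translate_le (fun x hx => ?_) (memLp_res mg)) 2
        rw [mem_ball_zero_iff] at hx ⊢
        have h2 : ‖s • h‖ ≤ ‖h‖ := by
          rw [norm_smul, Real.norm_of_nonneg hs.1.le]
          exact mul_le_of_le_one_left (norm_nonneg _) hs.2
        exact (norm_add_le _ _).trans_lt (by linarith)
    _ = (‖h‖ * nr (ball 0 (r + ‖h‖)) (gradient φ)) ^ 2 := by simp

/-- a cut-off function between concentric balls -/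
theorem exists_cut {r R : ℝ} (hr : 0 < r) (hrR : r < R) : ∃ χ : Sp d → ℝ, Cc (ball 0 R) χ ∧
    (∀ x, 0 ≤ χ x) ∧ (∀ x, χ x ≤ 1) ∧ (∀ x ∈ closedBall (0 : Sp d) r, χ x = 1) ∧
    (∀ x ∈ ball (0 : Sp d) r, gradient χ x = 0) := by
  let f : ContDiffBump (0 : Sp d) := ⟨r, (r + R) / 2, hr, by linarith⟩
  refine ⟨f, ⟨f.contDiff, f.hasCompactSupport, ?_⟩, fun x => f.nonneg, fun x => f.le_one, ?_, ?_⟩
  · rw [f.tsupport_eq]
    exact closedBall_subset_ball (by show (r + R) / 2 < R; linarith)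
  · intro x hx
    exact f.one_of_mem_closedBall hx
  · intro x hx
    have h1 : (f : Sp d → ℝ) =ᶠ[𝓝 x] fun _ => 1 := by
      filter_upwards [isOpen_ball.mem_nhds hx] with y hy
      exact f.one_of_mem_closedBall (ball_subset_closedBall hy)
    unfold gradient
    rw [h1.fderiv_eq]
    simp

theorem WG.translate {R : ℝ} {u : Sp d → ℝ} {g : Sp d → Sp d} (hu : WG (ball 0 R) u g)
    {r : ℝ} {y : Sp d} (hr0 : 0 < r) (hr : r + ‖y‖ < R) :
    nr (ball 0 r) (fun x => u (x + y) - u x) ≤ ‖y‖ * nr (ball 0 (r + ‖y‖)) g := by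
  have hr1 : 0 < r + ‖y‖ := by positivity
  obtain ⟨χ, hχ, hχ0, hχ1, hχ2, hχ3⟩ := exists_cut (d := d) hr1 hr
  have hw := hu.cut hχ
  set w : Sp d → ℝ := fun x => χ x * u x with hwdef
  set G : Sp d → Sp d := fun x => χ x • g x + u x • gradient χ x with hG
  have hB : MeasurableSet (ball (0 : Sp d) r) := measurableSet_ball
  have hB' : MeasurableSet (ball (0 : Sp d) (r + ‖y‖)) := measurableSet_ball
  have e1 : nr (ball 0 r) (fun x => u (x + y) - u x) = nr (ball 0 r) (fun x => w (x + y) - w x) := by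
    refine nr_congr hB fun x hx => ?_
    rw [mem_ball_zero_iff] at hx
    have h1 : x ∈ closedBall (0 : Sp d) (r + ‖y‖) := by
      rw [mem_closedBall_zero_iff]; linarith [norm_nonneg y]
    have h2 : x + y ∈ closedBall (0 : Sp d) (r + ‖y‖) := by
      rw [mem_closedBall_zero_iff]; exact (norm_add_le _ _).trans (by linarith)
    simp only [hwdef, hχ2 x h1, hχ2 _ h2, one_mul]
  have e2 : nr (ball 0 (r + ‖y‖)) G = nr (ball 0 (r + ‖y‖)) g := by
    refine nr_congr hB' fun x hx => ?_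
    simp only [hG, hχ3 x hx, hχ2 x (ball_subset_closedBall hx), one_smul, smul_zero, add_zero]
  have key : ∀ ε : ℝ, 0 < ε → nr (ball 0 r) (fun x => u (x + y) - u x) ≤
      ‖y‖ * nr (ball 0 (r + ‖y‖)) g + (‖y‖ + 2) * ε := by
    intro ε hε
    obtain ⟨φ, hφ, h1, h2⟩ := hw.approx (K := tsupport χ) hχ.comp
      (fun x hx => by
        simp only [hwdef, image_eq_zero_of_notMem_tsupport hx, zero_mul]) isOpen_ball hχ.sub hε
    have hφ' : Cc univ φ := hφ.mono (subset_univ _)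
    have m1 : MemLp (fun x => w x - φ x) 2 volume := hw.mu.sub hφ.memLp
    have m2 : MemLp (fun x => w (x + y) - φ (x + y)) 2 volume := memLp_translate m1 y
    have m3 : MemLp (fun x => φ (x + y) - φ x) 2 volume :=
      (memLp_translate hφ.memLp y).sub hφ.memLp
    rw [e1]
    have e3 : (fun x => w (x + y) - w x) = fun x => (φ (x + y) - φ x) +
        ((w (x + y) - φ (x + y)) - (w x - φ x)) := by
      funext x; ring
    rw [e3]
    have s1 := nr_add_le (S := ball 0 r) (memLp_res m3) (memLp_res (m2.sub m1))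
    have s2 := nr_sub_le (S := ball 0 r) (memLp_res m2) (memLp_res m1)
    have s3 : nr (ball 0 r) (fun x => w (x + y) - φ (x + y)) ≤ ε := by
      refine (nr_translate_le (T := univ) (f := fun x => w x - φ x) (fun x _ => mem_univ _)
        (memLp_res m1)).trans ?_
      exact nr_univ_le hε.le h1 _
    have s4 : nr (ball 0 r) (fun x => w x - φ x) ≤ ε := nr_univ_le hε.le h1 _
    have s5 := smooth_translate hφ' y r
    have s6 : nr (ball 0 (r + ‖y‖)) (gradient φ) ≤ nr (ball 0 (r + ‖y‖)) g + ε := by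
      have e4 : gradient φ = fun x => G x - (G x - gradient φ x) := by
        funext x; abel
      rw [e4, ← e2]
      refine (nr_sub_le (memLp_res hw.mg) (memLp_res (hw.mg.sub hφ.memLp_gradient))).trans ?_
      gcongr
      exact nr_univ_le hε.le h2 _
    have s7 : ‖y‖ * nr (ball 0 (r + ‖y‖)) (gradient φ) ≤
        ‖y‖ * (nr (ball 0 (r + ‖y‖)) g + ε) := by gcongr
    simp only [Pi.sub_apply] at s1 s2
    have s8 : nr (ball 0 r) (fun x => (φ (x + y) - φ x) +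
        ((w (x + y) - φ (x + y)) - (w x - φ x))) ≤
        nr (ball 0 r) (fun x => φ (x + y) - φ x) +
        nr (ball 0 r) (fun x => (w (x + y) - φ (x + y)) - (w x - φ x)) := s1
    calc _ ≤ nr (ball 0 r) (fun x => φ (x + y) - φ x) +
        nr (ball 0 r) (fun x => (w (x + y) - φ (x + y)) - (w x - φ x)) := s8
      _ ≤ ‖y‖ * (nr (ball 0 (r + ‖y‖)) g + ε) + (ε + ε) := by linarith
      _ = _ := by ring
  refine le_of_forall_pos_le_add fun δ hδ => ?_
  have := key (δ / (‖y‖ + 2)) (by positivity)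
  rwa [mul_div_cancel₀ _ (by positivity)] at this

/-- the pointwise inequality behind Caccioppoli -/
theorem cacc_pt {lam M : ℝ} (hlam : 0 < lam) {a : Sp d →L[ℝ] Sp d} (hM : ‖a‖ ≤ M)
    (ha : ∀ ξ, lam * ‖ξ‖ ^ 2 ≤ ⟪a ξ, ξ⟫) (ζ u : ℝ) (g F z : Sp d) :
    lam / 2 * (ζ ^ 2 * ‖g‖ ^ 2) ≤ ⟪ζ ^ 2 • g + u • ((2 * ζ) • z), a g + F⟫ +
      (4 * M ^ 2 / lam + 1) * (u ^ 2 * ‖z‖ ^ 2) + (1 / lam + 1) * (ζ ^ 2 * ‖F‖ ^ 2) := by
  have hM0 : 0 ≤ M := (norm_nonneg _).trans hM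
  have e : ⟪ζ ^ 2 • g + u • ((2 * ζ) • z), a g + F⟫ =
      ζ ^ 2 * ⟪a g, g⟫ + ζ ^ 2 * ⟪g, F⟫ + 2 * ζ * u * ⟪z, a g⟫ + 2 * ζ * u * ⟪z, F⟫ := by
    rw [inner_add_left, inner_add_right, inner_add_right, real_inner_smul_left,
      real_inner_smul_left, real_inner_smul_left, real_inner_smul_left, real_inner_smul_left,
      real_inner_smul_left, real_inner_comm (a g) g]
    ring
  rw [e]
  have h1 := ha g
  have h2 : |⟪g, F⟫| ≤ ‖g‖ * ‖F‖ := abs_real_inner_le_norm _ _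
  have h3 : |⟪z, a g⟫| ≤ ‖z‖ * (M * ‖g‖) :=
    (abs_real_inner_le_norm _ _).trans (mul_le_mul_of_nonneg_left
      (a.le_of_opNorm_le hM g) (norm_nonneg _))
  have h4 : |⟪z, F⟫| ≤ ‖z‖ * ‖F‖ := abs_real_inner_le_norm _ _
  set A := |ζ| * ‖g‖ with hA
  set Bz := |u| * ‖z‖ with hBz
  set Cf := |ζ| * ‖F‖ with hCf
  have k1 : lam * A ^ 2 ≤ ζ ^ 2 * ⟪a g, g⟫ := by
    rw [hA, mul_pow, sq_abs]
    have := mul_le_mul_of_nonneg_left h1 (sq_nonneg ζ)
    linarith
  have k2 : -(A * Cf) ≤ ζ ^ 2 * ⟪g, F⟫ := by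
    have : |ζ ^ 2 * ⟪g, F⟫| ≤ A * Cf := by
      rw [abs_mul, abs_pow, hA, hCf]
      calc |ζ| ^ 2 * |⟪g, F⟫| ≤ |ζ| ^ 2 * (‖g‖ * ‖F‖) := by gcongr
        _ = _ := by ring
    linarith [neg_abs_le (ζ ^ 2 * ⟪g, F⟫)]
  have k3 : -(2 * M * (A * Bz)) ≤ 2 * ζ * u * ⟪z, a g⟫ := by
    have : |2 * ζ * u * ⟪z, a g⟫| ≤ 2 * M * (A * Bz) := by
      rw [abs_mul, abs_mul, abs_mul, abs_two, hA, hBz]
      calc 2 * |ζ| * |u| * |⟪z, a g⟫| ≤ 2 * |ζ| * |u| * (‖z‖ * (M * ‖g‖)) := by gcongr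
        _ = _ := by ring
    linarith [neg_abs_le (2 * ζ * u * ⟪z, a g⟫)]
  have k4 : -(2 * (Bz * Cf)) ≤ 2 * ζ * u * ⟪z, F⟫ := by
    have : |2 * ζ * u * ⟪z, F⟫| ≤ 2 * (Bz * Cf) := by
      rw [abs_mul, abs_mul, abs_mul, abs_two, hCf, hBz]
      calc 2 * |ζ| * |u| * |⟪z, F⟫| ≤ 2 * |ζ| * |u| * (‖z‖ * ‖F‖) := by gcongr
        _ = _ := by ring
    linarith [neg_abs_le (2 * ζ * u * ⟪z, F⟫)]
  have e1 : ζ ^ 2 * ‖g‖ ^ 2 = A ^ 2 := by rw [hA, mul_pow, sq_abs]
  have e2 : u ^ 2 * ‖z‖ ^ 2 = Bz ^ 2 := by rw [hBz, mul_pow, sq_abs]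
  have e3 : ζ ^ 2 * ‖F‖ ^ 2 = Cf ^ 2 := by rw [hCf, mul_pow, sq_abs]
  rw [e1, e2, e3]
  have q1 : A * Cf ≤ lam / 4 * A ^ 2 + 1 / lam * Cf ^ 2 := by
    have : 0 ≤ (lam / 2 * A - Cf) ^ 2 / lam := by positivity
    have e4 : (lam / 2 * A - Cf) ^ 2 / lam = lam / 4 * A ^ 2 - A * Cf + 1 / lam * Cf ^ 2 := by
      field_simp
      ring
    linarith
  have q2 : 2 * M * (A * Bz) ≤ lam / 4 * A ^ 2 + 4 * M ^ 2 / lam * Bz ^ 2 := by
    have : 0 ≤ (lam / 2 * A - 2 * M * Bz) ^ 2 / lam := by positivity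
    have e4 : (lam / 2 * A - 2 * M * Bz) ^ 2 / lam =
        lam / 4 * A ^ 2 - 2 * M * (A * Bz) + 4 * M ^ 2 / lam * Bz ^ 2 := by
      field_simp
      ring
    linarith
  have q3 : 2 * (Bz * Cf) ≤ Bz ^ 2 + Cf ^ 2 := by nlinarith [sq_nonneg (Bz - Cf)]
  nlinarith

/-- **Caccioppoli inequality** -/
theorem cacc {lam M : ℝ} (hlam : 0 < lam) {r R : ℝ} (hr : 0 < r) (hrR : r < R) :
    ∃ C : ℝ, 0 ≤ C ∧ ∀ a : Sp d → Sp d →L[ℝ] Sp d, Coef lam M a → ∀ (u : Sp d → ℝ)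
      (g F : Sp d → Sp d), Sol a (ball 0 R) u g F →
        nr (ball 0 r) g ≤ C * (nr (ball 0 R) u + nr (ball 0 R) F) := by
  obtain ⟨ζ, hζ, hζ0, hζ1, hζ2, -⟩ := exists_cut (d := d) hr hrR
  obtain ⟨K, hK0, hK⟩ := hζ.bdd_gradient
  set C1 := 4 * M ^ 2 / lam + 1 with hC1
  set C2 := 1 / lam + 1 with hC2
  have hC1' : 0 ≤ C1 := by positivity
  have hC2' : 0 ≤ C2 := by positivity
  refine ⟨Real.sqrt (2 / lam * (C1 * K ^ 2 + C2)), Real.sqrt_nonneg _, fun a ha u g F h => ?_⟩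
  have hχ : Cc (ball 0 R) (fun x => ζ x * ζ x) := (hζ.mono (subset_univ _)).mul hζ
  have ht := h.test ha isOpen_ball hχ
  have hgr : ∀ x, gradient (fun x => ζ x * ζ x) x = (2 * ζ x) • gradient ζ x := by
    intro x
    refine ext_inner_right ℝ fun v => ?_
    rw [inner_gradient, fderiv_mul_apply hζ.differentiable hζ.differentiable, real_inner_smul_left,
      inner_gradient]
    ring
  have ht' : ∫ x, ⟪ζ x ^ 2 • g x + u x • ((2 * ζ x) • gradient ζ x), a x (g x) + F x⟫ = 0 := by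
    rw [← ht]
    congr 1
    funext x
    rw [hgr, sq]
  have hζb : ∀ x, |ζ x| ≤ 1 := fun x => by rw [abs_of_nonneg (hζ0 x)]; exact hζ1 x
  have mζg : MemLp (fun x => ζ x • g x) 2 volume := memLp_bdd_smul hζ.continuous hζb h.mg
  have mζF : MemLp (fun x => ζ x • F x) 2 volume := memLp_bdd_smul hζ.continuous hζb h.mF
  have mu' : MemLp (fun x => u x • gradient ζ x) 2 volume := by
    refine h.mu.of_le_mul (c := K) (h.mu.1.smul hζ.cont_gradient.aestronglyMeasurable)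
      (ae_of_all _ fun x => ?_)
    rw [norm_smul, mul_comm]
    exact mul_le_mul_of_nonneg_right (hK x) (norm_nonneg _)
  have i1 : Integrable (fun x => ζ x ^ 2 * ‖g x‖ ^ 2) := by
    have := (memLp_two_iff_integrable_sq_norm mζg.1).1 mζg
    refine this.congr (ae_of_all _ fun x => ?_)
    simp only [norm_smul, mul_pow, Real.norm_eq_abs, sq_abs]
  have i2 : Integrable (fun x => u x ^ 2 * ‖gradient ζ x‖ ^ 2) := by
    have := (memLp_two_iff_integrable_sq_norm mu'.1).1 mu'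
    refine this.congr (ae_of_all _ fun x => ?_)
    simp only [norm_smul, mul_pow, Real.norm_eq_abs, sq_abs]
  have i3 : Integrable (fun x => ζ x ^ 2 * ‖F x‖ ^ 2) := by
    have := (memLp_two_iff_integrable_sq_norm mζF.1).1 mζF
    refine this.congr (ae_of_all _ fun x => ?_)
    simp only [norm_smul, mul_pow, Real.norm_eq_abs, sq_abs]
  have mH : MemLp (fun x => a x (g x) + F x) 2 volume :=
    (memLp_coef ha.cont ha.bdd h.mg).add h.mF
  have i4 : Integrable (fun x => ⟪ζ x ^ 2 • g x + u x • ((2 * ζ x) • gradient ζ x),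
      a x (g x) + F x⟫) := by
    refine int_inner ?_ mH
    have m1 := (h.toWG.cut hχ).mg
    refine (memLp_congr_ae (ae_of_all _ fun x => ?_)).1 m1
    simp only [hgr, sq]
  have hpt : ∀ x, lam / 2 * (ζ x ^ 2 * ‖g x‖ ^ 2) ≤
      ⟪ζ x ^ 2 • g x + u x • ((2 * ζ x) • gradient ζ x), a x (g x) + F x⟫ +
      C1 * (u x ^ 2 * ‖gradient ζ x‖ ^ 2) + C2 * (ζ x ^ 2 * ‖F x‖ ^ 2) := fun x =>
    cacc_pt hlam (ha.bdd x) (ha.ell x) (ζ x) (u x) (g x) (F x) (gradient ζ x)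
  have hint : lam / 2 * ∫ x, ζ x ^ 2 * ‖g x‖ ^ 2 ≤
      C1 * (∫ x, u x ^ 2 * ‖gradient ζ x‖ ^ 2) + C2 * ∫ x, ζ x ^ 2 * ‖F x‖ ^ 2 := by
    have i5 : Integrable (fun x => ⟪ζ x ^ 2 • g x + u x • ((2 * ζ x) • gradient ζ x),
        a x (g x) + F x⟫ + C1 * (u x ^ 2 * ‖gradient ζ x‖ ^ 2)) := i4.add (i2.const_mul C1)
    have h1 := integral_mono (i1.const_mul (lam / 2)) (i5.add (i3.const_mul C2)) hpt
    rw [integral_const_mul] at h1
    have h2 : ∫ x, (⟪ζ x ^ 2 • g x + u x • ((2 * ζ x) • gradient ζ x),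
        a x (g x) + F x⟫ + C1 * (u x ^ 2 * ‖gradient ζ x‖ ^ 2) + C2 * (ζ x ^ 2 * ‖F x‖ ^ 2)) =
        C1 * (∫ x, u x ^ 2 * ‖gradient ζ x‖ ^ 2) + C2 * ∫ x, ζ x ^ 2 * ‖F x‖ ^ 2 := by
      rw [integral_add i5 (i3.const_mul C2), integral_add i4 (i2.const_mul C1), ht',
        integral_const_mul, integral_const_mul, zero_add]
    exact h1.trans (le_of_eq h2)
  have hB : MeasurableSet (ball (0 : Sp d) r) := measurableSet_ball
  have hBR : MeasurableSet (ball (0 : Sp d) R) := measurableSet_ball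
  -- left side
  have l1 : nr (ball 0 r) g ^ 2 ≤ ∫ x, ζ x ^ 2 * ‖g x‖ ^ 2 := by
    rw [nr_sq (memLp_res h.mg)]
    have : ∫ x in ball 0 r, ‖g x‖ ^ 2 = ∫ x in ball 0 r, ζ x ^ 2 * ‖g x‖ ^ 2 := by
      refine setIntegral_congr_fun hB fun x hx => ?_
      simp only [hζ2 x (ball_subset_closedBall hx), one_pow, one_mul]
    rw [this]
    exact setIntegral_le_integral i1 (ae_of_all _ fun x => by positivity)
  -- right side
  have hout : ∀ x, x ∉ ball (0 : Sp d) R → ζ x = 0 := fun x hx =>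
    image_eq_zero_of_notMem_tsupport fun hx' => hx (hζ.sub hx')
  have hout' : ∀ x, x ∉ ball (0 : Sp d) R → gradient ζ x = 0 := by
    intro x hx
    by_contra hne
    apply hx
    apply hζ.sub
    apply support_fderiv_subset ℝ
    rw [Function.mem_support]
    intro h0
    apply hne
    unfold gradient
    rw [h0, map_zero]
  have l2 : ∫ x, u x ^ 2 * ‖gradient ζ x‖ ^ 2 ≤ K ^ 2 * nr (ball 0 R) u ^ 2 := by
    rw [nr_sq (memLp_res h.mu), ← integral_const_mul]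
    have : ∫ x, u x ^ 2 * ‖gradient ζ x‖ ^ 2 = ∫ x in ball 0 R, u x ^ 2 * ‖gradient ζ x‖ ^ 2 := by
      rw [setIntegral_eq_integral_of_forall_compl_eq_zero]
      intro x hx
      rw [hout' x hx]
      simp
    rw [this]
    refine integral_mono i2.integrableOn ((nr_sq_int (memLp_res h.mu)).const_mul _) fun x => ?_
    simp only [Real.norm_eq_abs, sq_abs]
    rw [mul_comm]
    exact mul_le_mul_of_nonneg_right (pow_le_pow_left₀ (norm_nonneg _) (hK x) 2) (sq_nonneg _)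
  have l3 : ∫ x, ζ x ^ 2 * ‖F x‖ ^ 2 ≤ nr (ball 0 R) F ^ 2 := by
    rw [nr_sq (memLp_res h.mF)]
    have : ∫ x, ζ x ^ 2 * ‖F x‖ ^ 2 = ∫ x in ball 0 R, ζ x ^ 2 * ‖F x‖ ^ 2 := by
      rw [setIntegral_eq_integral_of_forall_compl_eq_zero]
      intro x hx
      rw [hout x hx]
      simp
    rw [this]
    refine integral_mono i3.integrableOn (nr_sq_int (memLp_res h.mF)) fun x => ?_
    have : ζ x ^ 2 ≤ 1 := pow_le_one₀ (hζ0 x) (hζ1 x)
    exact mul_le_of_le_one_left (by positivity) this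
  have hu0 := nr_nonneg (ball 0 R) u
  have hF0 := nr_nonneg (ball 0 R) F
  refine abs_le_of_sq_le_sq' ?_ (by positivity) |>.2
  rw [mul_pow, Real.sq_sqrt (by positivity)]
  have h3 : lam / 2 * nr (ball 0 r) g ^ 2 ≤
      C1 * (K ^ 2 * nr (ball 0 R) u ^ 2) + C2 * nr (ball 0 R) F ^ 2 := by
    calc lam / 2 * nr (ball 0 r) g ^ 2 ≤ lam / 2 * ∫ x, ζ x ^ 2 * ‖g x‖ ^ 2 := by gcongr
      _ ≤ _ := hint
      _ ≤ _ := by gcongr
  have h4 : nr (ball 0 r) g ^ 2 ≤ 2 / lam *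
      (C1 * (K ^ 2 * nr (ball 0 R) u ^ 2) + C2 * nr (ball 0 R) F ^ 2) := by
    rw [div_mul_eq_mul_div, le_div_iff₀ hlam]
    linarith
  refine h4.trans ?_
  rw [mul_assoc]
  refine mul_le_mul_of_nonneg_left ?_ (by positivity)
  have e5 : nr (ball 0 R) u ^ 2 ≤ (nr (ball 0 R) u + nr (ball 0 R) F) ^ 2 := by
    gcongr; linarith
  have e6 : nr (ball 0 R) F ^ 2 ≤ (nr (ball 0 R) u + nr (ball 0 R) F) ^ 2 := by
    gcongr; linarith
  calc C1 * (K ^ 2 * nr (ball 0 R) u ^ 2) + C2 * nr (ball 0 R) F ^ 2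
      ≤ C1 * (K ^ 2 * (nr (ball 0 R) u + nr (ball 0 R) F) ^ 2) +
        C2 * (nr (ball 0 R) u + nr (ball 0 R) F) ^ 2 := by gcongr
    _ = _ := by ring

end Run7.h682
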