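import Pool.Agent.Run7.h682.Iter

/-!
From the decay of the `L²` oscillation to Lipschitz continuity.
-/

set_option autoImplicit false

open MeasureTheory Filter Topology Set Metric
open scoped ENNReal NNReal RealInnerProductSpace

namespace Run7.h682

variable {d : ℕ}

theorem memLp_subc {u : Sp d → ℝ} (hu : MemLp u 2 volume) {S : Set (Sp d)} (hS : volume S ≠ ⊤)
    (c : ℝ) : MemLp (fun x => u x - c) 2 (volume.restrict S) := by
  have h1 : MemLp u 2 (volume.restrict S) := memLp_res hu
  have h2 : MemLp (fun _ : Sp d => c) 2 (volume.restrict S) := memLp_const_on hS c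
  exact h1.sub h2

theorem const_cmp {u : Sp d → ℝ} (hu : MemLp u 2 volume) {x y z : Sp d} {R1 R2 r : ℝ}
    (hr : 0 < r) (h1 : ball z r ⊆ ball x R1) (h2 : ball z r ⊆ ball y R2) {c c' X Y : ℝ}
    (hX : nr (ball x R1) (fun x => u x - c) ≤ X) (hY : nr (ball y R2) (fun x => u x - c') ≤ Y) :
    |c - c'| * (Real.sqrt (r ^ d) * Vb d) ≤ X + Y := by
  have m1 : ∀ (x : Sp d) (R c : ℝ), MemLp (fun x => u x - c) 2 (volume.restrict (ball x R)) :=
    fun x R c => memLp_subc hu measure_ball_lt_top.ne c
  have h3 := nr_sub_le (m1 z r c') (m1 z r c)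
  have e : (fun x => u x - c' - (u x - c)) = fun _ => c - c' := by
    funext x
    ring
  rw [e, nr_const, sqrt_vol_ball z hr, Real.norm_eq_abs] at h3
  have h4 := nr_mono h1 (m1 x R1 c)
  have h5 := nr_mono h2 (m1 y R2 c')
  linarith

theorem avg_cmp {u : Sp d → ℝ} (hu : MemLp u 2 volume) (x : Sp d) {r : ℝ} (hr : 0 < r) (c : ℝ) :
    |(⨍ y in closedBall x r, u y) - c| * (Real.sqrt (r ^ d) * Vb d) ≤
      nr (closedBall x r) (fun y => u y - c) := by
  set S : Set (Sp d) := closedBall x r with hS
  have hfin : volume S ≠ ⊤ := measure_closedBall_lt_top.ne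
  have hfm : IsFiniteMeasure (volume.restrict S) := ⟨by
    rw [Measure.restrict_apply_univ]; exact lt_top_iff_ne_top.2 hfin⟩
  have hpos : 0 < volume.real S :=
    ENNReal.toReal_pos (measure_closedBall_pos _ _ hr).ne' hfin
  have hge : volume.real (ball x r) ≤ volume.real S :=
    ENNReal.toReal_mono hfin (measure_mono ball_subset_closedBall)
  have hsq : Real.sqrt (r ^ d) * Vb d ≤ Real.sqrt (volume.real S) := by
    rw [← sqrt_vol_ball x hr]
    exact Real.sqrt_le_sqrt hge
  set A : ℝ := ⨍ y in S, u y with hA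
  have m1 := memLp_subc hu hfin c
  have i1 : Integrable (fun y => u y - c) (volume.restrict S) := m1.integrable (by norm_num)
  have i0 : Integrable u (volume.restrict S) := (memLp_res hu).integrable (by norm_num)
  have i2 : Integrable (fun y => (u y - c) ^ 2) (volume.restrict S) := by
    have h := nr_sq_int m1
    have e : (fun y => ‖u y - c‖ ^ 2) = fun y => (u y - c) ^ 2 := by
      funext y
      rw [Real.norm_eq_abs, sq_abs]
    rw [e] at h
    exact h
  have e1 : ∫ y in S, (u y - c) = volume.real S * (A - c) := by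
    rw [integral_sub i0 (integrable_const _), hA, setAverage_eq, setIntegral_const, smul_eq_mul,
      smul_eq_mul]
    field_simp
  have e2 : 0 ≤ ∫ y in S, ((u y - c) - (A - c)) ^ 2 := integral_nonneg fun y => sq_nonneg _
  have e3 : ∫ y in S, ((u y - c) - (A - c)) ^ 2 =
      (∫ y in S, (u y - c) ^ 2) - volume.real S * (A - c) ^ 2 := by
    have e : (fun y => ((u y - c) - (A - c)) ^ 2) =
        fun y => ((u y - c) ^ 2 - (2 * (A - c)) * (u y - c)) + (A - c) ^ 2 := by
      funext y
      ring
    have i3 : Integrable (fun y => (2 * (A - c)) * (u y - c)) (volume.restrict S) :=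
      i1.const_mul _
    have i4 : Integrable (fun y => (u y - c) ^ 2 - (2 * (A - c)) * (u y - c))
        (volume.restrict S) := i2.sub i3
    rw [e, integral_add i4 (integrable_const _), integral_sub i2 i3, integral_const_mul, e1,
      setIntegral_const, smul_eq_mul]
    ring
  rw [e3] at e2
  have e4 : nr S (fun y => u y - c) ^ 2 = ∫ y in S, (u y - c) ^ 2 := by
    rw [nr_sq m1]
    congr 1
    funext y
    rw [Real.norm_eq_abs, sq_abs]
  have e5 : (|A - c| * Real.sqrt (volume.real S)) ^ 2 ≤ nr S (fun y => u y - c) ^ 2 := by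
    rw [e4, mul_pow, sq_abs, Real.sq_sqrt hpos.le]
    linarith
  have e6 := abs_le_of_sq_le_sq' e5 (nr_nonneg _ _) |>.2
  refine le_trans ?_ e6
  gcongr

/-- **Campanato's theorem** at the Lipschitz endpoint. -/
theorem campanato : ∃ C : ℝ, 0 ≤ C ∧ ∀ (u : Sp d → ℝ) (B : ℝ), MemLp u 2 volume → 0 ≤ B →
    (∀ x0 ∈ ball (0 : Sp d) (1/2), ∀ i : ℕ, ∃ c : ℝ,
      nr (ball x0 (Rd i)) (fun x => u x - c) ≤ B * wt d (Rd i)) →
    ∃ v : Sp d → ℝ, (∀ᵐ x, v x = u x) ∧
      ∀ x ∈ ball (0 : Sp d) (1/2), ∀ y ∈ ball (0 : Sp d) (1/2), |v x - v y| ≤ C * B * ‖x - y‖ := by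
  have hV : 0 < Vb d := Vb_pos
  set s2 : ℝ := Real.sqrt (2 ^ d) with hs2
  have hs20 : 0 < s2 := Real.sqrt_pos.2 (by positivity)
  set K3 : ℝ := (1/2 + s2) / Vb d with hK3
  have hK30 : 0 < K3 := by positivity
  set K1 : ℝ := 2 * s2 / Vb d with hK1
  have hK10 : 0 < K1 := by positivity
  refine ⟨8 * (K1 + 2 * K3), by positivity, ?_⟩
  intro u B hu hB H
  choose! c hc using H
  have hsqd : ∀ i, Real.sqrt (Rd i ^ d) = s2 * Real.sqrt (Rd (i + 1) ^ d) := by
    intro i
    rw [hs2, ← Real.sqrt_mul (by positivity), ← mul_pow]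
    congr 2
    rw [Rd_succ]
    ring
  have hsqpos : ∀ i, 0 < Real.sqrt (Rd i ^ d) := fun i =>
    Real.sqrt_pos.2 (pow_pos (Rd_pos i) _)
  have hwt : ∀ i, wt d (Rd i) = Rd i * Real.sqrt (Rd i ^ d) := fun i => rfl
  -- consecutive constants
  have hcons : ∀ x ∈ ball (0 : Sp d) (1/2), ∀ i, |c x i - c x (i + 1)| ≤ K3 * B * Rd i := by
    intro x hx i
    have hsub : ball x (Rd (i + 1)) ⊆ ball x (Rd i) := by
      apply ball_subset_ball
      rw [Rd_succ]
      have := Rd_pos i
      linarith
    have h := const_cmp hu (Rd_pos (i + 1)) hsub subset_rfl (hc x hx i) (hc x hx (i + 1))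
    have hp : 0 < Real.sqrt (Rd (i + 1) ^ d) * Vb d := mul_pos (hsqpos _) hV
    refine le_of_mul_le_mul_right (h.trans (le_of_eq ?_)) hp
    rw [hwt, hwt, hsqd i, hK3, Rd_succ]
    field_simp
    ring
  -- constants at the same scale
  have hsame : ∀ x ∈ ball (0 : Sp d) (1/2), ∀ y ∈ ball (0 : Sp d) (1/2), ∀ i, ‖x - y‖ ≤ Rd i →
      |c x i - c y i| ≤ K1 * B * Rd i := by
    intro x hx y hy i hxy
    set z : Sp d := (1/2 : ℝ) • (x + y) with hz
    have hzx : ‖z - x‖ ≤ Rd i / 2 := by
      have : z - x = (1/2 : ℝ) • (y - x) := by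
        rw [hz]
        module
      rw [this, norm_smul, norm_sub_rev]
      norm_num
      linarith
    have hzy : ‖z - y‖ ≤ Rd i / 2 := by
      have : z - y = (1/2 : ℝ) • (x - y) := by
        rw [hz]
        module
      rw [this, norm_smul]
      norm_num
      linarith
    have s1 : ball z (Rd (i + 1)) ⊆ ball x (Rd i) := by
      intro w hw
      rw [mem_ball_iff_norm] at hw ⊢
      have e : w - x = (w - z) + (z - x) := by abel
      rw [e]
      refine (norm_add_le _ _).trans_lt ?_
      rw [Rd_succ] at hw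
      linarith
    have s2' : ball z (Rd (i + 1)) ⊆ ball y (Rd i) := by
      intro w hw
      rw [mem_ball_iff_norm] at hw ⊢
      have e : w - y = (w - z) + (z - y) := by abel
      rw [e]
      refine (norm_add_le _ _).trans_lt ?_
      rw [Rd_succ] at hw
      linarith
    have h := const_cmp hu (Rd_pos (i + 1)) s1 s2' (hc x hx i) (hc y hy i)
    have hp : 0 < Real.sqrt (Rd (i + 1) ^ d) * Vb d := mul_pos (hsqpos _) hV
    refine le_of_mul_le_mul_right (h.trans (le_of_eq ?_)) hp
    rw [hwt, hsqd i, hK1]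
    field_simp
    ring
  -- telescoping
  have htel : ∀ x ∈ ball (0 : Sp d) (1/2), ∀ i k, |c x i - c x (i + k)| ≤
      2 * K3 * B * (Rd i - Rd (i + k)) := by
    intro x hx i k
    induction k with
    | zero => simp
    | succ k ih =>
      have h1 := hcons x hx (i + k)
      have h2 : |c x i - c x (i + (k + 1))| ≤ |c x i - c x (i + k)| +
          |c x (i + k) - c x (i + k + 1)| := by
        rw [← add_assoc]
        exact abs_sub_le _ _ _
      have h3 : Rd (i + (k + 1)) = Rd (i + k) * (1/2) := by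
        rw [← add_assoc, Rd_succ]
      rw [h3]
      linarith
  have hRd0 : Tendsto (fun i => Rd i) atTop (𝓝 0) := by
    have h := tendsto_pow_atTop_nhds_zero_of_lt_one (r := (1/2 : ℝ)) (by norm_num) (by norm_num)
    exact h.comp (tendsto_add_atTop_nat 1)
  -- Lebesgue points
  have hleb := IsUnifLocDoublingMeasure.ae_tendsto_average (μ := (volume : Measure (Sp d)))
    (hu.locallyIntegrable (by norm_num)) 1
  have hae : ∀ᵐ x, x ∈ ball (0 : Sp d) (1/2) → Tendsto (fun i => c x i) atTop (𝓝 (u x)) := by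
    filter_upwards [hleb] with x hx hxb
    have hδ : Tendsto (fun i => Rd (i + 1)) atTop (𝓝[>] (0:ℝ)) := by
      rw [tendsto_nhdsWithin_iff]
      exact ⟨hRd0.comp (tendsto_add_atTop_nat 1), Eventually.of_forall fun i => Rd_pos _⟩
    have h1 := hx (fun _ => x) (fun i => Rd (i + 1)) hδ
      (Eventually.of_forall fun i => mem_closedBall_self (by rw [one_mul]; exact (Rd_pos _).le))
    have h2 : Tendsto (fun i => (⨍ y in closedBall x (Rd (i + 1)), u y) - c x i) atTop (𝓝 0) := by
      apply squeeze_zero_norm (a := fun i => s2 / Vb d * B * Rd i)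
      · intro i
        have h3 := avg_cmp hu x (Rd_pos (i + 1)) (c x i)
        have hsub : closedBall x (Rd (i + 1)) ⊆ ball x (Rd i) := by
          apply closedBall_subset_ball
          rw [Rd_succ]
          have := Rd_pos i
          linarith
        have h4 := nr_mono hsub (memLp_subc hu measure_ball_lt_top.ne (c x i))
        have h5 := (h3.trans h4).trans (hc x hxb i)
        have hp : 0 < Real.sqrt (Rd (i + 1) ^ d) * Vb d := mul_pos (hsqpos _) hV
        rw [Real.norm_eq_abs]
        refine le_of_mul_le_mul_right (h5.trans (le_of_eq ?_)) hp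
        rw [hwt, hsqd i]
        field_simp
      · have := hRd0.const_mul (s2 / Vb d * B)
        simpa using this
    have h6 := h1.sub h2
    simpa using h6
  have hclose : ∀ᵐ x, x ∈ ball (0 : Sp d) (1/2) → ∀ i, |u x - c x i| ≤ 2 * K3 * B * Rd i := by
    filter_upwards [hae] with x hx hxb i
    have h1 := hx hxb
    have h2 : Tendsto (fun k => |c x (k + i) - c x i|) atTop (𝓝 |u x - c x i|) :=
      ((h1.comp (tendsto_add_atTop_nat i)).sub_const _).abs
    refine le_of_tendsto h2 (Eventually.of_forall fun k => ?_)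
    have h3 := htel x hxb i k
    rw [add_comm k i, abs_sub_comm]
    refine h3.trans ?_
    have h4 := (Rd_pos (i + k)).le
    have h5 : 0 ≤ 2 * K3 * B := by positivity
    gcongr
    linarith
  -- the good set
  set T : Set (Sp d) := {x | x ∈ ball (0 : Sp d) (1/2) ∧ ∀ i, |u x - c x i| ≤ 2 * K3 * B * Rd i}
    with hT
  have h0b : (0 : Sp d) ∈ ball (0 : Sp d) (1/2) := mem_ball_self (by norm_num)
  have hlip : ∀ x ∈ T, ∀ y ∈ T, |u x - u y| ≤ 8 * (K1 + 2 * K3) * B * ‖x - y‖ := by
    intro x hx y hy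
    obtain ⟨hx1, hx2⟩ := hx
    obtain ⟨hy1, hy2⟩ := hy
    rcases eq_or_ne x y with rfl | hne
    · simp
    have hpos : 0 < ‖x - y‖ := norm_pos_iff.2 (sub_ne_zero.2 hne)
    have hK : 0 ≤ (K1 + 2 * K3) * B := by positivity
    have hKB1 : 0 ≤ K1 * B := by positivity
    have hKB3 : 0 ≤ K3 * B := by positivity
    have tri : ∀ i, |u x - u y| ≤ |u x - c x i| + |c x i - c y i| + |u y - c y i| := by
      intro i
      have e : u x - u y = (u x - c x i) + (c x i - c y i) - (u y - c y i) := by ring
      rw [e]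
      refine (abs_sub _ _).trans ?_
      gcongr
      exact abs_add_le _ _
    rcases lt_or_ge (1/2) ‖x - y‖ with hbig | hsmall
    · have hR0 : Rd 0 = 1 / 2 := by unfold Rd; norm_num
      have h1 := tri 0
      have h2 := hx2 0
      have h3 := hy2 0
      rw [mem_ball_zero_iff] at hx1 hy1
      have h4 := hsame x (by rwa [mem_ball_zero_iff]) 0 h0b 0 (by rw [sub_zero, hR0]; exact hx1.le)
      have h5 := hsame y (by rwa [mem_ball_zero_iff]) 0 h0b 0 (by rw [sub_zero, hR0]; exact hy1.le)
      have h6 : |c x 0 - c y 0| ≤ |c x 0 - c 0 0| + |c y 0 - c 0 0| := by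
        rw [abs_sub_comm (c y 0)]
        exact abs_sub_le _ _ _
      rw [hR0] at h2 h3 h4 h5
      nlinarith
    · -- choose the scale
      obtain ⟨i, hi1, hi2⟩ : ∃ i, ‖x - y‖ ≤ Rd i ∧ Rd i ≤ 2 * ‖x - y‖ := by
        have hex : ∃ k, Rd k < ‖x - y‖ := by
          have := (tendsto_order.1 hRd0).2 _ hpos
          exact this.exists
        classical
        set k := Nat.find hex with hk
        have hk1 : Rd k < ‖x - y‖ := Nat.find_spec hex
        have hk0 : k ≠ 0 := by
          intro h0
          rw [h0] at hk1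
          have hR0 : Rd 0 = 1 / 2 := by unfold Rd; norm_num
          linarith
        obtain ⟨j, hj⟩ := Nat.exists_eq_succ_of_ne_zero hk0
        refine ⟨j, ?_, ?_⟩
        · have := Nat.find_min hex (m := j) (by omega)
          push Not at this
          exact this
        · rw [hj, Nat.succ_eq_add_one, Rd_succ] at hk1
          linarith
      have h1 := tri i
      have h2 := hx2 i
      have h3 := hy2 i
      have h4 := hsame x hx1 y hy1 i hi1
      have h5 : (2 * K3 * B + K1 * B + 2 * K3 * B) * Rd i ≤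
          (2 * K3 * B + K1 * B + 2 * K3 * B) * (2 * ‖x - y‖) := by gcongr
      nlinarith
  have hKnn : 0 ≤ 8 * (K1 + 2 * K3) * B := by positivity
  have hL : LipschitzOnWith ⟨8 * (K1 + 2 * K3) * B, hKnn⟩ u T := by
    refine LipschitzOnWith.of_dist_le_mul fun x hx y hy => ?_
    rw [Real.dist_eq, dist_eq_norm]
    exact hlip x hx y hy
  obtain ⟨w, hw1, hw2⟩ := hL.extend_real
  classical
  refine ⟨fun x => if x ∈ ball (0 : Sp d) (1/2) then w x else u x, ?_, ?_⟩
  · filter_upwards [hclose] with x hx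
    by_cases hxb : x ∈ ball (0 : Sp d) (1/2)
    · rw [if_pos hxb]
      exact (hw2 ⟨hxb, hx hxb⟩).symm
    · rw [if_neg hxb]
  · intro x hx y hy
    simp only [if_pos hx, if_pos hy]
    have := hw1.dist_le_mul x y
    rw [Real.dist_eq, dist_eq_norm] at this
    exact this

end Run7.h682
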