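import Mathlib

/-!
Approximate periods: all but `O(log (1/κ))` dyadic scales carry a `κ`-approximate period of
`(ω₁, …, ωₙ)`.  Pigeonhole principle for subset sums.
-/

set_option autoImplicit false

namespace Run7.h682

/-- `t` is a `κ`-approximate period of the frequencies `ω` -/
def AP {n : ℕ} (ω : Fin n → ℝ) (κ t : ℝ) : Prop := ∀ i, |t * ω i - round (t * ω i)| ≤ κ

theorem geo (m K : ℕ) : ∑ k ∈ Finset.range K, ((1:ℝ)/4) ^ (m + 1 + k) =
    (((1:ℝ)/4) ^ m - ((1:ℝ)/4) ^ (m + K)) / 3 := by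
  induction K with
  | zero => simp
  | succ K ih =>
    rw [Finset.sum_range_succ, ih]
    have : ((1:ℝ)/4) ^ (m + (K + 1)) = ((1:ℝ)/4) ^ (m + K) * (1/4) := by
      rw [← add_assoc, pow_succ]
    rw [this, show m + 1 + K = (m + K) + 1 by ring, pow_succ]
    ring

theorem tail_le (m : ℕ) (G : Finset ℕ) (hG : ∀ j ∈ G, m < j) :
    ∑ j ∈ G, ((1:ℝ)/4) ^ j ≤ ((1:ℝ)/4) ^ m / 3 := by
  set K := G.sup id + 1 with hK
  have hsub : G ⊆ (Finset.range K).image (fun k => m + 1 + k) := by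
    intro j hj
    rw [Finset.mem_image]
    have h1 := hG j hj
    have h2 : j ≤ G.sup id := Finset.le_sup (f := id) hj
    exact ⟨j - (m + 1), by rw [Finset.mem_range]; omega, by omega⟩
  calc ∑ j ∈ G, ((1:ℝ)/4) ^ j
      ≤ ∑ j ∈ (Finset.range K).image (fun k => m + 1 + k), ((1:ℝ)/4) ^ j :=
        Finset.sum_le_sum_of_subset_of_nonneg hsub fun _ _ _ => by positivity
    _ = ∑ k ∈ Finset.range K, ((1:ℝ)/4) ^ (m + 1 + k) :=
        Finset.sum_image fun a _ b _ h => by simpa using h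
    _ ≤ ((1:ℝ)/4) ^ m / 3 := by
        rw [geo]
        have : (0:ℝ) ≤ ((1:ℝ)/4) ^ (m + K) := by positivity
        linarith

/-- subset sums which agree below `j₀` and differ at `j₀` -/
theorem subset_diff {S T : Finset ℕ} {j₀ : ℕ} (h1 : j₀ ∈ S) (h2 : j₀ ∉ T)
    (h3 : ∀ j, j < j₀ → (j ∈ S ↔ j ∈ T)) :
    |(∑ j ∈ S, ((1:ℝ)/4) ^ j) - (∑ j ∈ T, ((1:ℝ)/4) ^ j) - ((1:ℝ)/4) ^ j₀| ≤
      ((1:ℝ)/4) ^ j₀ / 3 := by
  have e1 : ∑ j ∈ S, ((1:ℝ)/4) ^ j = (∑ j ∈ S.filter (· < j₀), ((1:ℝ)/4) ^ j) +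
      (((1:ℝ)/4) ^ j₀ + ∑ j ∈ S.filter (j₀ < ·), ((1:ℝ)/4) ^ j) := by
    rw [← Finset.sum_filter_add_sum_filter_not S (· < j₀)]
    congr 1
    have : S.filter (fun j => ¬ j < j₀) = insert j₀ (S.filter (j₀ < ·)) := by
      ext j
      simp only [Finset.mem_filter, Finset.mem_insert, not_lt]
      constructor
      · rintro ⟨hj, hle⟩
        rcases hle.eq_or_lt with h | h
        · exact Or.inl h.symm
        · exact Or.inr ⟨hj, h⟩
      · rintro (h | ⟨hj, h⟩)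
        · subst h; exact ⟨h1, le_rfl⟩
        · exact ⟨hj, h.le⟩
    rw [this, Finset.sum_insert (by simp)]
  have e2 : ∑ j ∈ T, ((1:ℝ)/4) ^ j = (∑ j ∈ T.filter (· < j₀), ((1:ℝ)/4) ^ j) +
      ∑ j ∈ T.filter (j₀ < ·), ((1:ℝ)/4) ^ j := by
    rw [← Finset.sum_filter_add_sum_filter_not T (· < j₀)]
    congr 1
    refine Finset.sum_congr ?_ fun _ _ => rfl
    ext j
    simp only [Finset.mem_filter, not_lt]
    constructor
    · rintro ⟨hj, hle⟩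
      refine ⟨hj, lt_of_le_of_ne hle ?_⟩
      rintro rfl
      exact h2 hj
    · rintro ⟨hj, h⟩
      exact ⟨hj, h.le⟩
  have e3 : S.filter (· < j₀) = T.filter (· < j₀) := by
    ext j
    simp only [Finset.mem_filter]
    constructor
    · rintro ⟨hj, h⟩; exact ⟨(h3 j h).1 hj, h⟩
    · rintro ⟨hj, h⟩; exact ⟨(h3 j h).2 hj, h⟩
  rw [e1, e2, e3]
  have b1 := tail_le j₀ (S.filter (j₀ < ·)) (fun j hj => (Finset.mem_filter.1 hj).2)
  have b2 := tail_le j₀ (T.filter (j₀ < ·)) (fun j hj => (Finset.mem_filter.1 hj).2)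
  have p1 : 0 ≤ ∑ j ∈ S.filter (j₀ < ·), ((1:ℝ)/4) ^ j :=
    Finset.sum_nonneg fun _ _ => by positivity
  have p2 : 0 ≤ ∑ j ∈ T.filter (j₀ < ·), ((1:ℝ)/4) ^ j :=
    Finset.sum_nonneg fun _ _ => by positivity
  rw [abs_le]
  constructor <;> linarith

theorem round_close {a b : ℝ} {N : ℕ} (hN : 0 < N)
    (h : ⌊(N:ℝ) * Int.fract a⌋ = ⌊(N:ℝ) * Int.fract b⌋) : |(a - b) - round (a - b)| ≤ 1 / N := by
  have hN' : (0:ℝ) < N := by exact_mod_cast hN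
  have h1 : |(a - b) - round (a - b)| ≤ |(a - b) - ((⌊a⌋ - ⌊b⌋ : ℤ) : ℝ)| := round_le _ _
  refine h1.trans ?_
  have e : (a - b) - ((⌊a⌋ - ⌊b⌋ : ℤ) : ℝ) = Int.fract a - Int.fract b := by
    push_cast
    unfold Int.fract
    ring
  rw [e]
  have h2 := Int.abs_sub_lt_one_of_floor_eq_floor h
  rw [← mul_sub, abs_mul, abs_of_pos hN'] at h2
  rw [le_div_iff₀ hN']
  linarith

/-- **Pigeonhole principle**: the number of bad `4`-adic scales is at most `n log₂ N`. -/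
theorem pigeon {n : ℕ} (ω : Fin n → ℝ) {N : ℕ} (hN : 0 < N) {s0 : ℝ} (hs0 : 0 < s0)
    (F : Finset ℕ)
    (hF : ∀ j ∈ F, ∀ t : ℝ, 2 / 3 * (s0 * (1/4) ^ j) ≤ t → t ≤ 4 / 3 * (s0 * (1/4) ^ j) →
      ¬ AP ω (1 / N) t) : 2 ^ F.card ≤ N ^ n := by
  by_contra hcon
  push Not at hcon
  have hN' : (0:ℝ) < N := by exact_mod_cast hN
  set ts : Finset ℕ → ℝ := fun S => s0 * ∑ j ∈ S, ((1:ℝ)/4) ^ j with hts
  have hlt : ∀ x : ℝ, ⌊(N:ℝ) * Int.fract x⌋.toNat < N := by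
    intro x
    have h1 : (N:ℝ) * Int.fract x < N := by
      have := Int.fract_lt_one x
      nlinarith
    have h2 : ⌊(N:ℝ) * Int.fract x⌋ < N := by
      rw [Int.floor_lt]
      exact_mod_cast h1
    omega
  let f : Finset ℕ → (Fin n → Fin N) := fun S i => ⟨⌊(N:ℝ) * Int.fract (ts S * ω i)⌋.toNat, hlt _⟩
  have hcard : (Finset.univ : Finset (Fin n → Fin N)).card < F.powerset.card := by
    rw [Finset.card_powerset, Finset.card_univ, Fintype.card_fun, Fintype.card_fin,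
      Fintype.card_fin]
    exact hcon
  obtain ⟨S, hS, T, hT, hne, hfe⟩ := Finset.exists_ne_map_eq_of_card_lt_of_maps_to hcard
    (f := f) (fun S _ => Finset.mem_univ _)
  rw [Finset.mem_powerset] at hS hT
  have hfl : ∀ i, ⌊(N:ℝ) * Int.fract (ts S * ω i)⌋ = ⌊(N:ℝ) * Int.fract (ts T * ω i)⌋ := by
    intro i
    have h1 := congrFun hfe i
    have h2 : ⌊(N:ℝ) * Int.fract (ts S * ω i)⌋.toNat = ⌊(N:ℝ) * Int.fract (ts T * ω i)⌋.toNat :=
      congrArg Fin.val h1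
    have p1 : 0 ≤ ⌊(N:ℝ) * Int.fract (ts S * ω i)⌋ :=
      Int.floor_nonneg.2 (mul_nonneg hN'.le (Int.fract_nonneg _))
    have p2 : 0 ≤ ⌊(N:ℝ) * Int.fract (ts T * ω i)⌋ :=
      Int.floor_nonneg.2 (mul_nonneg hN'.le (Int.fract_nonneg _))
    omega
  -- the smallest index where the two sets differ
  have hsd : (symmDiff S T).Nonempty := by
    rw [Finset.nonempty_iff_ne_empty]
    intro h
    exact hne (symmDiff_eq_bot.1 h)
  set j₀ := (symmDiff S T).min' hsd with hj₀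
  have hj₀m : j₀ ∈ symmDiff S T := Finset.min'_mem _ _
  have hbelow : ∀ j, j < j₀ → (j ∈ S ↔ j ∈ T) := by
    intro j hj
    by_contra hc
    have : j ∈ symmDiff S T := by
      rw [Finset.mem_symmDiff]
      tauto
    have := Finset.min'_le _ _ this
    omega
  have main : ∀ S T : Finset ℕ, S ⊆ F → j₀ ∈ S → j₀ ∉ T → (∀ j, j < j₀ → (j ∈ S ↔ j ∈ T)) →
      (∀ i, ⌊(N:ℝ) * Int.fract (ts S * ω i)⌋ = ⌊(N:ℝ) * Int.fract (ts T * ω i)⌋) → False := by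
    intro S T hS h1 h2 h3 h4
    have h5 := subset_diff h1 h2 h3
    rw [abs_le] at h5
    refine hF j₀ (hS h1) (ts S - ts T) ?_ ?_ ?_
    · rw [hts]
      have : s0 * (∑ j ∈ S, ((1:ℝ)/4) ^ j) - s0 * (∑ j ∈ T, ((1:ℝ)/4) ^ j) =
        s0 * ((∑ j ∈ S, ((1:ℝ)/4) ^ j) - (∑ j ∈ T, ((1:ℝ)/4) ^ j)) := by ring
      simp only
      rw [this]
      nlinarith [h5.1]
    · rw [hts]
      have : s0 * (∑ j ∈ S, ((1:ℝ)/4) ^ j) - s0 * (∑ j ∈ T, ((1:ℝ)/4) ^ j) =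
        s0 * ((∑ j ∈ S, ((1:ℝ)/4) ^ j) - (∑ j ∈ T, ((1:ℝ)/4) ^ j)) := by ring
      simp only
      rw [this]
      nlinarith [h5.2]
    · intro i
      rw [sub_mul]
      exact round_close hN (h4 i)
  rw [Finset.mem_symmDiff] at hj₀m
  rcases hj₀m with ⟨h1, h2⟩ | ⟨h1, h2⟩
  · exact main S T hS h1 h2 hbelow hfl
  · exact main T S hT h1 h2 (fun j hj => (hbelow j hj).symm) (fun i => (hfl i).symm)

end Run7.h682
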