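import Mathlib
import Pool.Agent.Run7.h682.Pigeon

/-!
Counting the bad scales, and the summable sequence of smallness factors.
-/

set_option autoImplicit false

namespace Run7.h682

/-- the scale `j` admits a step of `m` dyadic scales -/
def good {n : ℕ} (ω : Fin n → ℝ) (K m j : ℕ) : Prop :=
  K * m ≤ j ∧ ∃ t : ℝ, 2 / 3 * ((1/2) ^ (j + 1) * (1/4) ^ m) ≤ t ∧
    t ≤ 4 / 3 * ((1/2) ^ (j + 1) * (1/4) ^ m) ∧ AP ω (1 / ((2 ^ (K * m) : ℕ) : ℝ)) t

theorem bad_even {n : ℕ} (ω : Fin n → ℝ) (K m : ℕ) (F : Finset ℕ)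
    (hF : ∀ i ∈ F, K * m ≤ 2 * i ∧ ¬ good ω K m (2 * i)) : F.card ≤ K * m * n := by
  have h := pigeon ω (N := 2 ^ (K * m)) (by positivity) (s0 := (1/2) * (1/4) ^ m) (by positivity)
    F ?_
  · rw [← pow_mul] at h
    exact (Nat.pow_le_pow_iff_right (by norm_num)).1 h
  · intro j hj t h1 h2 h3
    obtain ⟨h4, h5⟩ := hF j hj
    apply h5
    have e : ((1:ℝ)/2) ^ (2 * j + 1) * (1/4) ^ m = 1/2 * (1/4) ^ m * (1/4) ^ j := by
      rw [pow_succ, pow_mul]
      norm_num
      ring
    refine ⟨h4, t, ?_, ?_, h3⟩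
    · rw [e]; exact h1
    · rw [e]; exact h2

theorem bad_odd {n : ℕ} (ω : Fin n → ℝ) (K m : ℕ) (F : Finset ℕ)
    (hF : ∀ i ∈ F, K * m ≤ 2 * i + 1 ∧ ¬ good ω K m (2 * i + 1)) : F.card ≤ K * m * n := by
  have h := pigeon ω (N := 2 ^ (K * m)) (by positivity) (s0 := (1/4) * (1/4) ^ m) (by positivity)
    F ?_
  · rw [← pow_mul] at h
    exact (Nat.pow_le_pow_iff_right (by norm_num)).1 h
  · intro j hj t h1 h2 h3
    obtain ⟨h4, h5⟩ := hF j hj
    apply h5
    have e : ((1:ℝ)/2) ^ (2 * j + 1 + 1) * (1/4) ^ m = 1/4 * (1/4) ^ m * (1/4) ^ j := by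
      rw [show 2 * j + 1 + 1 = 2 * (j + 1) by ring, pow_mul, pow_succ]
      norm_num
      ring
    refine ⟨h4, t, ?_, ?_, h3⟩
    · rw [e]; exact h1
    · rw [e]; exact h2

theorem bad_card {n : ℕ} (ω : Fin n → ℝ) (K m : ℕ) (G : Finset ℕ)
    (hG : ∀ j ∈ G, ¬ good ω K m j) : G.card ≤ K * (1 + 2 * n) * m := by
  classical
  have hsub : G ⊆ Finset.range (K * m) ∪
      (((G.filter (fun j => K * m ≤ j ∧ j % 2 = 0)).image (fun j => j / 2)).image (fun i => 2 * i) ∪
      ((G.filter (fun j => K * m ≤ j ∧ j % 2 = 1)).image (fun j => j / 2)).image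
        (fun i => 2 * i + 1)) := by
    intro j hj
    simp only [Finset.mem_union, Finset.mem_range, Finset.mem_image, Finset.mem_filter]
    rcases lt_or_ge j (K * m) with h | h
    · exact Or.inl h
    · right
      rcases Nat.mod_two_eq_zero_or_one j with h2 | h2
      · left
        exact ⟨j / 2, ⟨j, ⟨hj, h, h2⟩, rfl⟩, by omega⟩
      · right
        exact ⟨j / 2, ⟨j, ⟨hj, h, h2⟩, rfl⟩, by omega⟩
  have h1 := Finset.card_le_card hsub
  have h2 := Finset.card_union_le (Finset.range (K * m))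
      (((G.filter (fun j => K * m ≤ j ∧ j % 2 = 0)).image (fun j => j / 2)).image (fun i => 2 * i) ∪
      ((G.filter (fun j => K * m ≤ j ∧ j % 2 = 1)).image (fun j => j / 2)).image
        (fun i => 2 * i + 1))
  have h3 := Finset.card_union_le
      (((G.filter (fun j => K * m ≤ j ∧ j % 2 = 0)).image (fun j => j / 2)).image (fun i => 2 * i))
      (((G.filter (fun j => K * m ≤ j ∧ j % 2 = 1)).image (fun j => j / 2)).image
        (fun i => 2 * i + 1))
  have h4 : (((G.filter (fun j => K * m ≤ j ∧ j % 2 = 0)).image (fun j => j / 2)).image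
      (fun i => 2 * i)).card ≤ K * m * n := by
    refine (Finset.card_image_le).trans (bad_even ω K m _ ?_)
    intro i hi
    simp only [Finset.mem_image, Finset.mem_filter] at hi
    obtain ⟨j, ⟨hj, hj1, hj2⟩, rfl⟩ := hi
    have e : 2 * (j / 2) = j := by omega
    rw [e]
    exact ⟨hj1, hG j hj⟩
  have h5 : (((G.filter (fun j => K * m ≤ j ∧ j % 2 = 1)).image (fun j => j / 2)).image
      (fun i => 2 * i + 1)).card ≤ K * m * n := by
    refine (Finset.card_image_le).trans (bad_odd ω K m _ ?_)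
    intro i hi
    simp only [Finset.mem_image, Finset.mem_filter] at hi
    obtain ⟨j, ⟨hj, hj1, hj2⟩, rfl⟩ := hi
    have e : 2 * (j / 2) + 1 = j := by omega
    rw [e]
    exact ⟨hj1, hG j hj⟩
  rw [Finset.card_range] at h2
  calc G.card ≤ K * m + (K * m * n + K * m * n) := by omega
    _ = K * (1 + 2 * n) * m := by ring

open Classical in
/-- the number of scales to go back at scale `i` -/
noncomputable def back {n : ℕ} (ω : Fin n → ℝ) (K i : ℕ) : ℕ :=
  Nat.findGreatest (fun m => m = 0 ∨ good ω K m (i - m)) i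

open Classical in
theorem back_le {n : ℕ} (ω : Fin n → ℝ) (K i : ℕ) : back ω K i ≤ i :=
  Nat.findGreatest_le _

open Classical in
theorem back_spec {n : ℕ} (ω : Fin n → ℝ) (K i : ℕ) :
    back ω K i = 0 ∨ good ω K (back ω K i) (i - back ω K i) :=
  Nat.findGreatest_spec (P := fun m => m = 0 ∨ good ω K m (i - m)) (Nat.zero_le i) (Or.inl rfl)

open Classical in
theorem back_pow {n : ℕ} (ω : Fin n → ℝ) (K i : ℕ) :
    ((1:ℝ)/2) ^ (back ω K i) ≤ (1/2) ^ i +
      ∑ m ∈ Finset.range i, (if good ω K (m + 1) (i - (m + 1)) then 0 else ((1:ℝ)/2) ^ m) := by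
  have hnn : ∀ m ∈ Finset.range i,
      0 ≤ (if good ω K (m + 1) (i - (m + 1)) then 0 else ((1:ℝ)/2) ^ m) := by
    intro m _
    split_ifs
    · exact le_rfl
    · positivity
  rcases (back_le ω K i).eq_or_lt with h | h
  · rw [h]
    have := Finset.sum_nonneg hnn
    linarith
  · have hng : ¬ good ω K (back ω K i + 1) (i - (back ω K i + 1)) := by
      have := Nat.findGreatest_is_greatest (P := fun m => m = 0 ∨ good ω K m (i - m)) (n := i)
        (k := back ω K i + 1) (Nat.lt_succ_self _) h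
      intro hg
      exact this (Or.inr hg)
    have h1 := Finset.single_le_sum hnn (Finset.mem_range.2 h)
    simp only [hng, if_false] at h1
    have h2 : (0:ℝ) ≤ (1/2) ^ i := by positivity
    linarith

theorem geo2 (I : ℕ) : ∑ i ∈ Finset.range I, ((1:ℝ)/2) ^ i ≤ 2 := by
  have h : ∑ i ∈ Finset.range I, ((1:ℝ)/2) ^ i = 2 - 2 * (1/2) ^ I := by
    induction I with
    | zero => simp
    | succ I ih => rw [Finset.sum_range_succ, ih, pow_succ]; ring
  rw [h]
  have : (0:ℝ) ≤ (1/2) ^ I := by positivity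
  linarith

theorem geo3 (I : ℕ) : ∑ m ∈ Finset.range I, ((1:ℝ)/2) ^ m * ((m:ℝ) + 1) ≤ 4 := by
  have h : ∑ m ∈ Finset.range I, ((1:ℝ)/2) ^ m * ((m:ℝ) + 1) = 4 - (2 * I + 4) * (1/2) ^ I := by
    induction I with
    | zero => simp
    | succ I ih => rw [Finset.sum_range_succ, ih, pow_succ]; push_cast; ring
  rw [h]
  have : (0:ℝ) ≤ (2 * I + 4) * (1/2) ^ I := by positivity
  linarith

/-- **Summability** of the smallness factors, uniformly in the frequencies. -/
theorem back_sum {n : ℕ} (ω : Fin n → ℝ) (K I : ℕ) :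
    ∑ i ∈ Finset.range I, ((1:ℝ)/2) ^ (back ω K i) ≤ 2 + 4 * (K * (1 + 2 * n)) := by
  classical
  have h1 : ∑ i ∈ Finset.range I, ((1:ℝ)/2) ^ (back ω K i) ≤
      ∑ i ∈ Finset.range I, (((1:ℝ)/2) ^ i +
      ∑ m ∈ Finset.range I, (if m < i ∧ ¬ good ω K (m + 1) (i - (m + 1)) then ((1:ℝ)/2) ^ m
        else 0)) := by
    refine Finset.sum_le_sum fun i hi => (back_pow ω K i).trans ?_
    gcongr
    have hi' := Finset.mem_range.1 hi
    calc ∑ m ∈ Finset.range i, (if good ω K (m + 1) (i - (m + 1)) then 0 else ((1:ℝ)/2) ^ m)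
        = ∑ m ∈ Finset.range i, (if m < i ∧ ¬ good ω K (m + 1) (i - (m + 1)) then ((1:ℝ)/2) ^ m
          else 0) := by
          refine Finset.sum_congr rfl fun m hm => ?_
          have hm' := Finset.mem_range.1 hm
          by_cases hg : good ω K (m + 1) (i - (m + 1))
          · simp [hg]
          · simp [hg, hm']
      _ ≤ _ := by
          refine Finset.sum_le_sum_of_subset_of_nonneg ?_ ?_
          · exact Finset.range_mono hi'.le
          · intro m _ _
            split_ifs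
            · positivity
            · exact le_rfl
  refine h1.trans ?_
  rw [Finset.sum_add_distrib, Finset.sum_comm]
  have h2 : ∑ m ∈ Finset.range I, ∑ i ∈ Finset.range I,
      (if m < i ∧ ¬ good ω K (m + 1) (i - (m + 1)) then ((1:ℝ)/2) ^ m else 0) ≤
      ∑ m ∈ Finset.range I, (K * (1 + 2 * n) : ℝ) * (((1:ℝ)/2) ^ m * ((m:ℝ) + 1)) := by
    refine Finset.sum_le_sum fun m _ => ?_
    rw [← Finset.sum_filter, Finset.sum_const, nsmul_eq_mul]
    have hc : ((Finset.range I).filter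
        (fun i => m < i ∧ ¬ good ω K (m + 1) (i - (m + 1)))).card ≤ K * (1 + 2 * n) * (m + 1) := by
      have hinj : Set.InjOn (fun i => i - (m + 1)) (((Finset.range I).filter
        (fun i => m < i ∧ ¬ good ω K (m + 1) (i - (m + 1)))) : Set ℕ) := by
        intro a ha b hb hab
        simp only [Finset.coe_filter, Set.mem_ofPred_eq] at ha hb
        simp only at hab
        omega
      rw [← Finset.card_image_of_injOn hinj]
      refine bad_card ω K (m + 1) _ ?_
      intro j hj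
      simp only [Finset.mem_image, Finset.mem_filter] at hj
      obtain ⟨i, ⟨_, _, h3⟩, rfl⟩ := hj
      exact h3
    have hc' : ((((Finset.range I).filter
        (fun i => m < i ∧ ¬ good ω K (m + 1) (i - (m + 1)))).card : ℕ) : ℝ) ≤
        (K * (1 + 2 * n) : ℝ) * ((m:ℝ) + 1) := by
      exact_mod_cast hc
    calc _ ≤ ((K * (1 + 2 * n) : ℝ) * ((m:ℝ) + 1)) * ((1:ℝ)/2) ^ m := by gcongr
      _ = _ := by ring
  rw [← Finset.mul_sum] at h2
  have h3 := geo3 I
  have h4 := geo2 I
  have h5 : (0:ℝ) ≤ (K * (1 + 2 * n) : ℝ) := by positivity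
  have h6 : (K * (1 + 2 * n) : ℝ) * ∑ m ∈ Finset.range I, (((1:ℝ)/2) ^ m * ((m:ℝ) + 1)) ≤
      (K * (1 + 2 * n) : ℝ) * 4 := by gcongr
  linarith

end Run7.h682
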