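import Pool.Agent.Run7.h682.Cacc

/-!
Difference quotients of weak solutions.
-/

set_option autoImplicit false

open MeasureTheory Filter Topology Set Metric
open scoped ENNReal NNReal RealInnerProductSpace ContDiff

namespace Run7.h682

variable {d : ℕ}

/-- basis vectors -/
noncomputable def eb (b : Fin d) : Sp d := EuclideanSpace.single b 1

theorem norm_eb (b : Fin d) : ‖eb b‖ = 1 := by simp [eb]

/-- difference quotient in direction `b` with step `t` -/
noncomputable def Dq {F : Type*} [AddCommGroup F] [Module ℝ F] (t : ℝ) (b : Fin d)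
    (f : Sp d → F) : Sp d → F := fun x => t⁻¹ • (f (x + t • eb b) - f x)

/-- right-hand side of the equation for the difference quotient -/
noncomputable def DF (a : Sp d → Sp d →L[ℝ] Sp d) (t : ℝ) (b : Fin d)
    (g F : Sp d → Sp d) : Sp d → Sp d :=
  fun x => t⁻¹ • ((F (x + t • eb b) + (a (x + t • eb b) - a x) (g (x + t • eb b))) - F x)

theorem Cc.shift {R R' : ℝ} {h : Sp d} (hR : R' + ‖h‖ ≤ R) {φ : Sp d → ℝ}
    (hφ : Cc (ball 0 R') φ) : Cc (ball 0 R) (fun y => φ (y - h)) := by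
  have hsub : tsupport (fun y => φ (y - h)) ⊆ (fun y => y - h) ⁻¹' (tsupport φ) :=
    tsupport_comp_subset_preimage φ (by fun_prop)
  refine ⟨hφ.smooth.comp (contDiff_id.sub contDiff_const), ?_, hsub.trans fun y hy => ?_⟩
  · exact hφ.comp.comp_homeomorph (Homeomorph.subRight h)
  · have h1 : y - h ∈ ball (0 : Sp d) R' := hφ.sub hy
    rw [mem_ball_zero_iff] at h1 ⊢
    have : ‖y‖ ≤ ‖y - h‖ + ‖h‖ := by
      have := norm_add_le (y - h) h
      rwa [sub_add_cancel] at this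
    linarith

theorem fderiv_shift (φ : Sp d → ℝ) (h y : Sp d) :
    fderiv ℝ (fun y => φ (y - h)) y = fderiv ℝ φ (y - h) := by
  simp only [sub_eq_add_neg]
  exact fderiv_comp_add_right (-h)

theorem WG.shift {R R' : ℝ} {h : Sp d} (hR : R' + ‖h‖ ≤ R) {u : Sp d → ℝ} {g : Sp d → Sp d}
    (hu : WG (ball 0 R) u g) : WG (ball 0 R') (fun x => u (x + h)) (fun x => g (x + h)) := by
  refine ⟨memLp_translate hu.mu h, memLp_translate hu.mg h, fun φ hφ v => ?_⟩
  have h1 := hu.wg _ (hφ.shift hR) v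
  simp only [fderiv_shift] at h1
  rw [← integral_add_right_eq_self (fun x => u x * fderiv ℝ φ (x - h) v) h,
    ← integral_add_right_eq_self (fun x => φ (x - h) * ⟪g x, v⟫) h] at h1
  simpa only [add_sub_cancel_right] using h1

theorem memLp_coef_diff {a : Sp d → Sp d →L[ℝ] Sp d} {lam M : ℝ} (ha : Coef lam M a) (h : Sp d)
    {g : Sp d → Sp d} (hg : MemLp g 2 volume) :
    MemLp (fun x => (a (x + h) - a x) (g (x + h))) 2 volume := by
  refine memLp_coef (a := fun x => a (x + h) - a x) (M := M + M) ?_ ?_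
    (g := fun x => g (x + h)) (memLp_translate hg h)
  · have := ha.cont
    fun_prop
  · intro x
    exact (norm_sub_le _ _).trans (add_le_add (ha.bdd _) (ha.bdd _))

theorem Sol.shift {a : Sp d → Sp d →L[ℝ] Sp d} {lam M : ℝ} (ha : Coef lam M a) {R R' : ℝ}
    {h : Sp d} (hR : R' + ‖h‖ ≤ R) {u : Sp d → ℝ} {g F : Sp d → Sp d}
    (hu : Sol a (ball 0 R) u g F) :
    Sol a (ball 0 R') (fun x => u (x + h)) (fun x => g (x + h))
      (fun x => F (x + h) + (a (x + h) - a x) (g (x + h))) := by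
  refine ⟨hu.toWG.shift hR, (memLp_translate hu.mF h).add (memLp_coef_diff ha h hu.mg), ?_⟩
  intro φ hφ
  have h1 := hu.eq _ (hφ.shift hR)
  simp only [fderiv_shift] at h1
  rw [← integral_add_right_eq_self (fun x => fderiv ℝ φ (x - h) (a x (g x) + F x)) h] at h1
  simp only [add_sub_cancel_right] at h1
  rw [← h1]
  congr 1
  funext x
  congr 1
  simp only [sub_apply]
  abel

theorem WG.diff {U : Set (Sp d)} {u₁ u₂ : Sp d → ℝ} {g₁ g₂ : Sp d → Sp d}
    (h₁ : WG U u₁ g₁) (h₂ : WG U u₂ g₂) (c : ℝ) :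
    WG U (fun x => c • (u₁ x - u₂ x)) (fun x => c • (g₁ x - g₂ x)) := by
  refine ⟨(h₁.mu.sub h₂.mu).const_smul c, (h₁.mg.sub h₂.mg).const_smul c, fun φ hφ v => ?_⟩
  have m1 := int_mul h₁.mu (hφ.memLp_fderiv_apply v)
  have m2 := int_mul h₂.mu (hφ.memLp_fderiv_apply v)
  have n1 := int_mul hφ.memLp (memLp_inner_const h₁.mg v)
  have n2 := int_mul hφ.memLp (memLp_inner_const h₂.mg v)
  have e1 : ∫ x, c • (u₁ x - u₂ x) * fderiv ℝ φ x v =
      c * ((∫ x, u₁ x * fderiv ℝ φ x v) - ∫ x, u₂ x * fderiv ℝ φ x v) := by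
    rw [← integral_sub m1 m2, ← integral_const_mul]
    congr 1
    funext x
    rw [smul_eq_mul]
    ring
  have e2 : ∫ x, φ x * ⟪c • (g₁ x - g₂ x), v⟫ =
      c * ((∫ x, φ x * ⟪g₁ x, v⟫) - ∫ x, φ x * ⟪g₂ x, v⟫) := by
    rw [← integral_sub n1 n2, ← integral_const_mul]
    congr 1
    funext x
    rw [real_inner_smul_left, inner_sub_left]
    ring
  rw [e1, e2, h₁.wg φ hφ v, h₂.wg φ hφ v]
  ring

theorem int_clm {U : Set (Sp d)} {φ : Sp d → ℝ} (hφ : Cc U φ) {H : Sp d → Sp d}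
    (hH : MemLp H 2 volume) : Integrable (fun x => fderiv ℝ φ x (H x)) := by
  have := int_inner hφ.memLp_gradient hH
  simpa only [inner_gradient] using this

theorem Sol.diff {a : Sp d → Sp d →L[ℝ] Sp d} {lam M : ℝ} (ha : Coef lam M a) {U : Set (Sp d)}
    {u₁ u₂ : Sp d → ℝ} {g₁ g₂ F₁ F₂ : Sp d → Sp d}
    (h₁ : Sol a U u₁ g₁ F₁) (h₂ : Sol a U u₂ g₂ F₂) (c : ℝ) :
    Sol a U (fun x => c • (u₁ x - u₂ x)) (fun x => c • (g₁ x - g₂ x))
      (fun x => c • (F₁ x - F₂ x)) := by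
  refine ⟨h₁.toWG.diff h₂.toWG c, (h₁.mF.sub h₂.mF).const_smul c, fun φ hφ => ?_⟩
  have i1 : Integrable (fun x => fderiv ℝ φ x (a x (g₁ x) + F₁ x)) :=
    int_clm hφ (H := fun x => a x (g₁ x) + F₁ x) ((memLp_coef ha.cont ha.bdd h₁.mg).add h₁.mF)
  have i2 : Integrable (fun x => fderiv ℝ φ x (a x (g₂ x) + F₂ x)) :=
    int_clm hφ (H := fun x => a x (g₂ x) + F₂ x) ((memLp_coef ha.cont ha.bdd h₂.mg).add h₂.mF)
  have e1 : ∫ x, fderiv ℝ φ x (a x (c • (g₁ x - g₂ x)) + c • (F₁ x - F₂ x)) =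
      c * ((∫ x, fderiv ℝ φ x (a x (g₁ x) + F₁ x)) - ∫ x, fderiv ℝ φ x (a x (g₂ x) + F₂ x)) := by
    rw [← integral_sub i1 i2, ← integral_const_mul]
    congr 1
    funext x
    simp only [map_smul, map_sub, map_add, smul_eq_mul]
    ring
  rw [e1, h₁.eq φ hφ, h₂.eq φ hφ]
  ring

theorem Sol.dq {a : Sp d → Sp d →L[ℝ] Sp d} {lam M : ℝ} (ha : Coef lam M a) {R R' t : ℝ}
    (ht : 0 < t) (b : Fin d) (hR : R' + t ≤ R) {u : Sp d → ℝ} {g F : Sp d → Sp d}
    (hu : Sol a (ball 0 R) u g F) :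
    Sol a (ball 0 R') (Dq t b u) (Dq t b g) (DF a t b g F) := by
  have hn : ‖t • eb b‖ = t := by rw [norm_smul, norm_eb, mul_one, Real.norm_of_nonneg ht.le]
  have h1 := hu.shift ha (R' := R') (h := t • eb b) (by rw [hn]; exact hR)
  have h2 := hu.mono (U := ball 0 R') (ball_subset_ball (by linarith))
  exact h1.diff ha h2 t⁻¹

/-- size of the right-hand side -/
theorem nr_DF_le {a : Sp d → Sp d →L[ℝ] Sp d} {lam M : ℝ} (ha : Coef lam M a) {R R' t κ : ℝ}
    (ht : 0 < t) (hκ : 0 ≤ κ) (b : Fin d) (hper : ∀ x, ‖a (x + t • eb b) - a x‖ ≤ κ)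
    (hR : R' + t ≤ R) {g F : Sp d → Sp d} (hg : MemLp g 2 volume) (hF : MemLp F 2 volume) :
    nr (ball 0 R') (DF a t b g F) ≤ t⁻¹ * (2 * nr (ball 0 R) F + κ * nr (ball 0 R) g) := by
  have hn : ‖t • eb b‖ = t := by rw [norm_smul, norm_eb, mul_one, Real.norm_of_nonneg ht.le]
  have hmv : ∀ x ∈ ball (0 : Sp d) R', x + t • eb b ∈ ball (0 : Sp d) R := by
    intro x hx
    rw [mem_ball_zero_iff] at hx ⊢
    refine (norm_add_le _ _).trans_lt ?_
    rw [hn]; linarith
  have hmv' : ball (0 : Sp d) R' ⊆ ball (0 : Sp d) R := ball_subset_ball (by linarith)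
  unfold DF
  rw [nr_smul, abs_of_pos (inv_pos.2 ht)]
  refine mul_le_mul_of_nonneg_left ?_ (inv_pos.2 ht).le
  have mF1 := memLp_translate hF (t • eb b)
  have mg1 := memLp_translate hg (t • eb b)
  have md := memLp_coef_diff ha (t • eb b) hg
  have s1 := nr_sub_le (S := ball 0 R')
    (f := fun x => F (x + t • eb b) + (a (x + t • eb b) - a x) (g (x + t • eb b)))
    (memLp_res (mF1.add md)) (memLp_res hF)
  have s2 := nr_add_le (S := ball 0 R') (memLp_res mF1) (memLp_res md)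
  have s3 : nr (ball 0 R') (fun x => F (x + t • eb b)) ≤ nr (ball 0 R) F :=
    nr_translate_le hmv (memLp_res hF)
  have s4 : nr (ball 0 R') F ≤ nr (ball 0 R) F := nr_mono hmv' (memLp_res hF)
  have s5 : nr (ball 0 R') (fun x => g (x + t • eb b)) ≤ nr (ball 0 R) g :=
    nr_translate_le hmv (memLp_res hg)
  have s6 : nr (ball 0 R') (fun x => (a (x + t • eb b) - a x) (g (x + t • eb b))) ≤
      κ * nr (ball 0 R') (fun x => g (x + t • eb b)) :=
    nr_le_mul measurableSet_ball hκ (memLp_res mg1) fun x _ =>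
      (a (x + t • eb b) - a x).le_of_opNorm_le (hper x) _
  have s7 : κ * nr (ball 0 R') (fun x => g (x + t • eb b)) ≤ κ * nr (ball 0 R) g :=
    mul_le_mul_of_nonneg_left s5 hκ
  linarith

/-- size of the difference quotient -/
theorem WG.nr_dq_le {R r t : ℝ} (ht : 0 < t) (hr : 0 < r) (b : Fin d) (hR : r + t < R)
    {u : Sp d → ℝ} {g : Sp d → Sp d} (hu : WG (ball 0 R) u g) :
    nr (ball 0 r) (Dq t b u) ≤ nr (ball 0 R) g := by
  have hn : ‖t • eb b‖ = t := by rw [norm_smul, norm_eb, mul_one, Real.norm_of_nonneg ht.le]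
  unfold Dq
  rw [nr_smul, abs_of_pos (inv_pos.2 ht)]
  have h1 := hu.translate (y := t • eb b) hr (by rw [hn]; exact hR)
  rw [hn] at h1
  have h2 : nr (ball 0 (r + t)) g ≤ nr (ball 0 R) g :=
    nr_mono (ball_subset_ball hR.le) (memLp_res hu.mg)
  calc t⁻¹ * nr (ball 0 r) (fun x => u (x + t • eb b) - u x)
      ≤ t⁻¹ * (t * nr (ball 0 R) g) := by
        refine mul_le_mul_of_nonneg_left (h1.trans ?_) (inv_pos.2 ht).le
        exact mul_le_mul_of_nonneg_left h2 ht.le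
    _ = nr (ball 0 R) g := by field_simp

/-- radii -/
noncomputable def rad (D k : ℕ) : ℝ := 3 / 4 - k / (4 * D)

/-- iterated difference quotients: the class of functions which is stable under `Dq` -/
structure Fam (a : Sp d → Sp d →L[ℝ] Sp d) (t K : ℝ) (D k : ℕ) (w : Sp d → ℝ)
    (g F : Sp d → Sp d) : Prop where
  sol : Sol a (ball 0 (rad D k)) w g F
  hg : nr (ball 0 (rad D k)) g ≤ K
  hF : nr (ball 0 (rad D k)) F ≤ K * t ^ (D - k)

theorem rad_half {D k : ℕ} (hD : 1 ≤ D) (hk : k ≤ D) : 1 / 2 ≤ rad D k := by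
  unfold rad
  have h1 : (1 : ℝ) ≤ D := by exact_mod_cast hD
  have h2 : (k : ℝ) ≤ D := by exact_mod_cast hk
  have : (k : ℝ) / (4 * D) ≤ 1 / 4 := by
    rw [div_le_div_iff₀ (by positivity) (by norm_num)]
    linarith
  linarith

theorem rad_succ {D k : ℕ} (hD : 1 ≤ D) : rad D (k + 1) = rad D k - 1 / (4 * D) := by
  unfold rad
  have h1 : (1 : ℝ) ≤ D := by exact_mod_cast hD
  push_cast
  field_simp
  ring

theorem step {lam M : ℝ} (hlam : 0 < lam) {D : ℕ} (hD : 1 ≤ D) {C0 : ℝ} (hC0 : 0 ≤ C0) :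
    ∃ C : ℝ, 1 ≤ C ∧ ∀ a : Sp d → Sp d →L[ℝ] Sp d, Coef lam M a → ∀ t : ℝ, 0 < t →
      t < 1 / (8 * D) → (∀ b x, ‖a (x + t • eb b) - a x‖ ≤ C0 * t ^ D) →
      ∀ k, k < D → ∀ K, 0 ≤ K → ∀ w g F, Fam a t K D k w g F → ∀ b,
        Fam a t (C * K) D (k + 1) (Dq t b w) (Dq t b g) (DF a t b g F) := by
  have hD' : (1 : ℝ) ≤ D := by exact_mod_cast hD
  have hgap : 0 < 1 / (8 * (D : ℝ)) := by positivity
  have hrad : ∀ k : ℕ, rad D (k + 1) = rad D k - 1 / (8 * D) - 1 / (8 * D) := by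
    intro k
    rw [rad_succ hD]
    field_simp
    ring
  have hcac : ∀ k : ℕ, ∃ C : ℝ, 0 ≤ C ∧ (k < D → ∀ a : Sp d → Sp d →L[ℝ] Sp d, Coef lam M a →
      ∀ (u : Sp d → ℝ) (g F : Sp d → Sp d), Sol a (ball 0 (rad D k - 1 / (8 * D))) u g F →
        nr (ball 0 (rad D (k + 1))) g ≤ C * (nr (ball 0 (rad D k - 1 / (8 * D))) u +
          nr (ball 0 (rad D k - 1 / (8 * D))) F)) := by
    intro k
    by_cases hk : k < D
    · have h1 := rad_half hD (show k + 1 ≤ D from hk)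
      obtain ⟨C, hC, h⟩ := cacc (d := d) (M := M) hlam (r := rad D (k + 1))
        (R := rad D k - 1 / (8 * D)) (by linarith) (by rw [hrad k]; linarith)
      exact ⟨C, hC, fun _ => h⟩
    · exact ⟨0, le_rfl, fun h => absurd h hk⟩
  choose Cc hCc0 hCc using hcac
  set S := ∑ k ∈ Finset.range D, Cc k with hS
  have hS0 : 0 ≤ S := Finset.sum_nonneg fun k _ => hCc0 k
  have hSk : ∀ k, k < D → Cc k ≤ S := fun k hk =>
    Finset.single_le_sum (fun i _ => hCc0 i) (Finset.mem_range.2 hk)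
  refine ⟨(3 + C0) * (S + 1), by nlinarith, ?_⟩
  intro a ha t ht ht8 hper k hk K hK w g F h b
  have ht1 : t ≤ 1 := by
    have : 1 / (8 * (D : ℝ)) ≤ 1 := by
      rw [div_le_one (by positivity)]; linarith
    linarith
  have hpow : t ^ (D - k) = t * t ^ (D - (k + 1)) := by
    rw [← pow_succ']
    congr 1
    omega
  have hpow2 : t ^ D ≤ t * t ^ (D - (k + 1)) := by
    rw [← hpow]
    exact pow_le_pow_of_le_one ht.le ht1 (Nat.sub_le _ _)
  have hpk : 0 ≤ t ^ (D - (k + 1)) := by positivity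
  have hpk1 : t ^ (D - (k + 1)) ≤ 1 := pow_le_one₀ ht.le ht1
  -- the equation on the intermediate ball
  have hs := h.sol.dq ha ht b (R' := rad D k - 1 / (8 * D)) (by linarith)
  have hDF : nr (ball 0 (rad D k - 1 / (8 * D))) (DF a t b g F) ≤
      (2 + C0) * K * t ^ (D - (k + 1)) := by
    have h1 := nr_DF_le ha ht (κ := C0 * t ^ D) (by positivity) b (hper b)
      (R' := rad D k - 1 / (8 * D)) (R := rad D k) (by linarith) h.sol.mg h.sol.mF
    refine h1.trans ?_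
    have h2 := h.hF
    have h3 := h.hg
    rw [hpow] at h2
    have h4 : C0 * t ^ D * nr (ball 0 (rad D k)) g ≤ C0 * (t * t ^ (D - (k + 1))) * K := by
      gcongr
      exact nr_nonneg _ _
    calc t⁻¹ * (2 * nr (ball 0 (rad D k)) F + C0 * t ^ D * nr (ball 0 (rad D k)) g)
        ≤ t⁻¹ * (2 * (K * (t * t ^ (D - (k + 1)))) + C0 * (t * t ^ (D - (k + 1))) * K) := by
          gcongr
      _ = (2 + C0) * K * t ^ (D - (k + 1)) := by
          field_simp
  have hr1 := rad_half hD (show k + 1 ≤ D from hk)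
  have hDw : nr (ball 0 (rad D k - 1 / (8 * D))) (Dq t b w) ≤ K :=
    (h.sol.toWG.nr_dq_le ht (by rw [hrad k] at hr1; linarith) b (by linarith)).trans h.hg
  have hsub : ball (0 : Sp d) (rad D (k + 1)) ⊆ ball 0 (rad D k - 1 / (8 * D)) :=
    ball_subset_ball (by rw [hrad k]; linarith)
  refine ⟨hs.mono hsub, ?_, ?_⟩
  · refine (hCc k hk a ha _ _ _ hs).trans ?_
    have h5 : nr (ball 0 (rad D k - 1 / (8 * D))) (DF a t b g F) ≤ (2 + C0) * K := by
      refine hDF.trans ?_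
      exact mul_le_of_le_one_right (by positivity) hpk1
    calc Cc k * (nr (ball 0 (rad D k - 1 / (8 * D))) (Dq t b w) +
          nr (ball 0 (rad D k - 1 / (8 * D))) (DF a t b g F))
        ≤ S * (K + (2 + C0) * K) := by
          gcongr
          · exact add_nonneg (nr_nonneg _ _) (nr_nonneg _ _)
          · exact hSk k hk
      _ ≤ (3 + C0) * (S + 1) * K := by
          have : S * (K + (2 + C0) * K) = (3 + C0) * S * K := by ring
          rw [this]
          gcongr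
          linarith
  · refine (nr_mono hsub (memLp_res hs.mF)).trans (hDF.trans ?_)
    gcongr
    nlinarith

end Run7.h682
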