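import Pool.Agent.Run7.h682.Slope
import Pool.Agent.Run7.h682.Count

/-!
The Campanato type iteration across the scales.
-/

set_option autoImplicit false

open MeasureTheory Filter Topology Set Metric
open scoped ENNReal NNReal RealInnerProductSpace

namespace Run7.h682

variable {d n : ℕ}

/-- dyadic radii -/
noncomputable def Rd (i : ℕ) : ℝ := (1/2) ^ (i + 1)

theorem Rd_pos (i : ℕ) : 0 < Rd i := by unfold Rd; positivity

theorem Rd_add (j m : ℕ) : Rd (j + m) = Rd j * (1/2) ^ m := by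
  unfold Rd
  rw [← pow_add]
  congr 1
  ring

theorem Rd_succ (j : ℕ) : Rd (j + 1) = Rd j * (1/2) := by
  rw [Rd_add, pow_one]

theorem Rd_le_half (i : ℕ) : Rd i ≤ 1 / 2 := by
  unfold Rd
  rw [pow_succ]
  have : ((1:ℝ)/2) ^ i ≤ 1 := pow_le_one₀ (by norm_num) (by norm_num)
  linarith

theorem ball_Rd_sub {x0 : Sp d} (hx0 : x0 ∈ ball (0 : Sp d) (1/2)) (i : ℕ) :
    ball x0 (Rd i) ⊆ ball 0 1 := by
  intro x hx
  rw [mem_ball_zero_iff] at hx0 ⊢
  rw [mem_ball_iff_norm] at hx
  have h := Rd_le_half i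
  have e : x = (x - x0) + x0 := by abel
  rw [e]
  refine (norm_add_le _ _).trans_lt ?_
  linarith

/-- almost periodicity of the coefficients -/
def PerC (a : Sp d → Sp d →L[ℝ] Sp d) (ω : Fin n → ℝ) (L γ : ℝ) : Prop :=
  ∀ t κ : ℝ, 0 ≤ t → 0 ≤ κ → AP ω κ t → ∀ b x, ‖a (x + t • eb b) - a x‖ ≤ L * (t + n * κ) ^ γ

/-- smallness of the coefficient error at a good scale -/
theorem good_small {L γ : ℝ} (hL : 0 ≤ L) (hγ : 0 < γ) (hγ1 : γ ≤ 1) {K : ℕ}
    (hK : 2 * ((d:ℝ) + 1) ≤ K * γ) {m j : ℕ} (hj : K * m ≤ j) {t : ℝ}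
    (h1 : 2 / 3 * ((1/2) ^ (j + 1) * (1/4) ^ m) ≤ t)
    (h2 : t ≤ 4 / 3 * ((1/2) ^ (j + 1) * (1/4) ^ m)) :
    L * (t + n * (1 / ((2 ^ (K * m) : ℕ) : ℝ))) ^ γ ≤
      (L * (1 + n) * (3/2) ^ (d + 1)) * (t / Rd j) ^ (d + 1) := by
  have hR := Rd_pos j
  have ht : 0 < t := lt_of_lt_of_le (by positivity) h1
  have hκ : (1 / ((2 ^ (K * m) : ℕ) : ℝ)) = (1/2) ^ (K * m) := by
    push_cast
    rw [one_div_pow]
  rw [hκ]
  have q4 : ((1:ℝ)/4) ^ m ≤ 1 := pow_le_one₀ (by norm_num) (by norm_num)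
  have htk : t ≤ (1/2) ^ (K * m) := by
    have e1 : ((1:ℝ)/2) ^ (j + 1) ≤ (1/2) ^ (K * m) * (1/2) := by
      rw [pow_succ]
      have e0 : ((1:ℝ)/2) ^ j ≤ (1/2) ^ (K * m) :=
        pow_le_pow_of_le_one (by norm_num) (by norm_num) hj
      linarith
    have e2 : ((1:ℝ)/2) ^ (j + 1) * (1/4) ^ m ≤ (1/2) ^ (K * m) * (1/2) * 1 := by gcongr
    have e3 : (0:ℝ) < (1/2) ^ (K * m) := by positivity
    linarith
  have hb : t + n * ((1:ℝ)/2) ^ (K * m) ≤ (1 + n) * (1/2) ^ (K * m) := by linarith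
  have h3 : (t + n * ((1:ℝ)/2) ^ (K * m)) ^ γ ≤ ((1 + n) * (1/2) ^ (K * m)) ^ γ :=
    Real.rpow_le_rpow (by positivity) hb hγ.le
  have h4 : ((1 + n : ℝ) * (1/2) ^ (K * m)) ^ γ = (1 + n : ℝ) ^ γ * (((1:ℝ)/2) ^ (K * m)) ^ γ :=
    Real.mul_rpow (by positivity) (by positivity)
  have h5 : (1 + n : ℝ) ^ γ ≤ 1 + n := by
    have := Real.rpow_le_rpow_of_exponent_le (x := (1 + n : ℝ)) (by simp) hγ1
    simpa using this
  have h6 : (((1:ℝ)/2) ^ (K * m)) ^ γ ≤ ((1/4) ^ m) ^ (d + 1) := by
    rw [← Real.rpow_natCast, ← Real.rpow_mul (by norm_num)]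
    have e : (((1:ℝ)/4) ^ m) ^ (d + 1) = (1/2 : ℝ) ^ ((2 * m * (d + 1) : ℕ) : ℝ) := by
      rw [Real.rpow_natCast, ← pow_mul, pow_mul _ (2 * m), pow_mul _ 2 m, ← pow_mul]
      norm_num
    rw [e]
    refine Real.rpow_le_rpow_of_exponent_ge (by norm_num) (by norm_num) ?_
    push_cast
    have hm : (0:ℝ) ≤ m := Nat.cast_nonneg m
    nlinarith
  have h7 : ((1:ℝ)/4) ^ m ≤ 3/2 * (t / Rd j) := by
    rw [mul_div_assoc', le_div_iff₀ hR]
    have : Rd j = (1/2) ^ (j + 1) := rfl
    rw [this]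
    nlinarith
  have h8 : (((1:ℝ)/4) ^ m) ^ (d + 1) ≤ (3/2) ^ (d + 1) * (t / Rd j) ^ (d + 1) := by
    rw [← mul_pow]
    exact pow_le_pow_left₀ (by positivity) h7 _
  calc L * (t + n * ((1:ℝ)/2) ^ (K * m)) ^ γ
      ≤ L * ((1 + n : ℝ) ^ γ * (((1:ℝ)/2) ^ (K * m)) ^ γ) := by
        rw [← h4]
        gcongr
    _ ≤ L * ((1 + n) * ((3/2) ^ (d + 1) * (t / Rd j) ^ (d + 1))) := by
        have := h6.trans h8
        gcongr
    _ = _ := by ring

theorem good_step {lam M : ℝ} (hlam : 0 < lam) {L γ : ℝ} (hL : 0 ≤ L) (hγ : 0 < γ) (hγ1 : γ ≤ 1)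
    {K : ℕ} (hK : 2 * ((d:ℝ) + 1) ≤ K * γ) :
    ∃ C : ℝ, 0 ≤ C ∧ ∀ a : Sp d → Sp d →L[ℝ] Sp d, Coef lam M a →
      ∀ ω : Fin n → ℝ, PerC a ω L γ →
      ∀ u g, Sol a (ball 0 1) u g (fun _ => 0) → ∀ x0 ∈ ball (0 : Sp d) (1/2),
      ∀ m j, good ω K m j → ∀ c0 : ℝ,
        ∃ (c : ℝ) (p : Sp d), nr (ball x0 (Rd (j + m))) (fun x => u x - c - ⟪p, x - x0⟫) ≤
          C * ((1/2) ^ m * wt d ((1/2) ^ m)) * nr (ball x0 (Rd j)) (fun x => u x - c0) := by
  obtain ⟨C, hC, H⟩ := scaled (d := d) (M := M) hlam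
    (C0 := L * (1 + n) * (3/2) ^ (d + 1)) (by positivity)
  refine ⟨C, hC, ?_⟩
  intro a ha ω hω u g hu x0 hx0 m j hg c0
  obtain ⟨hj, t, h1, h2, hap⟩ := hg
  have hR := Rd_pos j
  have hRe : Rd j = (1/2) ^ (j + 1) := rfl
  have ht : 0 < t := lt_of_lt_of_le (by positivity) h1
  have hθ1 : ((1:ℝ)/2) ^ m ≤ 1 := pow_le_one₀ (by norm_num) (by norm_num)
  have hθ2 : (((1:ℝ)/2) ^ m) ^ 2 = (1/4) ^ m := by
    rw [← pow_mul, mul_comm, pow_mul]
    norm_num
  have hper : ∀ b x, ‖a (x + t • eb b) - a x‖ ≤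
      (L * (1 + n) * (3/2) ^ (d + 1)) * (t / Rd j) ^ (d + 1) := fun b x =>
    (hω t _ ht.le (by positivity) hap b x).trans (good_small hL hγ hγ1 hK hj h1 h2)
  obtain ⟨c, p, h⟩ := H a ha x0 (Rd j) ((1/2) ^ m) t hR (by positivity) hθ1 ht
    (by
      rw [hθ2, hRe]
      have : (0:ℝ) < (1/2) ^ (j + 1) * (1/4) ^ m := by positivity
      linarith) hper u g (hu.mono (ball_Rd_sub hx0 j)) c0
  refine ⟨c, p, ?_⟩
  rw [Rd_add]
  refine h.trans (le_of_eq ?_)
  unfold wt
  ring

/-- the `L²` excess at scale `i` -/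
def Exc (u : Sp d → ℝ) (x0 : Sp d) (i : ℕ) (c : ℝ) (p : Sp d) (E : ℝ) : Prop :=
  nr (ball x0 (Rd i)) (fun x => u x - c - ⟪p, x - x0⟫) ≤ E * wt d (Rd i)

theorem memLp_exc {u : Sp d → ℝ} (hu : MemLp u 2 volume) (x0 x1 p : Sp d) (R c : ℝ) :
    MemLp (fun x => u x - c - ⟪p, x - x0⟫) 2 (volume.restrict (ball x1 R)) := by
  have h1 : MemLp u 2 (volume.restrict (ball x1 R)) := memLp_res hu
  have h2 := memLp_affine x0 x1 p R c
  have h3 := h1.sub h2
  have e : (u - fun x => c + ⟪p, x - x0⟫) = fun x => u x - c - ⟪p, x - x0⟫ := by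
    funext x
    simp only [Pi.sub_apply]
    ring
  rwa [e] at h3

theorem exc_const {u : Sp d → ℝ} (hu : MemLp u 2 volume) {x0 : Sp d} {i : ℕ} {c : ℝ} {p : Sp d}
    {E : ℝ} (h : Exc u x0 i c p E) :
    nr (ball x0 (Rd i)) (fun x => u x - c) ≤ (E + Vb d * ‖p‖) * wt d (Rd i) := by
  have h1 := nr_add_le (memLp_exc hu x0 x0 p (Rd i) c) (memLp_lin x0 x0 p (Rd i))
  have h2 := slope_upper x0 p (Rd_pos i)
  have e : (fun x => u x - c - ⟪p, x - x0⟫ + ⟪p, x - x0⟫) = fun x => u x - c := by
    funext x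
    ring
  rw [e] at h1
  unfold Exc at h
  calc _ ≤ _ := h1
    _ ≤ E * wt d (Rd i) + Vb d * ‖p‖ * wt d (Rd i) := add_le_add h h2
    _ = _ := by ring

theorem wt_Rd_succ (i : ℕ) : wt d (Rd i) = wt d 2 * wt d (Rd (i + 1)) := by
  rw [← wt_mul (by norm_num), Rd_succ]
  congr 1
  ring

/-- the change of slopes between consecutive scales -/
theorem exc_slope {u : Sp d → ℝ} (hu : MemLp u 2 volume) {x0 : Sp d} {i : ℕ} {c c' : ℝ}
    {p p' : Sp d} {E E' : ℝ} (h : Exc u x0 i c p E) (h' : Exc u x0 (i + 1) c' p' E') :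
    Vb d * ‖p'‖ ≤ Vb d * ‖p‖ + 2 ^ (d + 1) * (E' + wt d 2 * E) := by
  have hw := wt_pos (d := d) (Rd_pos (i + 1))
  have hsub : ball x0 (Rd (i + 1)) ⊆ ball x0 (Rd i) := by
    apply ball_subset_ball
    rw [Rd_succ]
    have := Rd_pos i
    linarith
  have h1 := slope_lower x0 (p - p') (Rd_pos (i + 1)) (c - c')
  have h2 := nr_sub_le (memLp_exc hu x0 x0 p' (Rd (i + 1)) c') (memLp_exc hu x0 x0 p (Rd (i + 1)) c)
  have e : (fun x => u x - c' - ⟪p', x - x0⟫ - (u x - c - ⟪p, x - x0⟫)) =
      fun x => (c - c') + ⟪p - p', x - x0⟫ := by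
    funext x
    rw [inner_sub_left]
    ring
  rw [e] at h2
  have h3 := nr_mono hsub (memLp_exc hu x0 x0 p (Rd i) c)
  unfold Exc at h h'
  have h4 : Vb d * ‖p - p'‖ * wt d (Rd (i + 1)) ≤
      2 ^ (d + 1) * (E' + wt d 2 * E) * wt d (Rd (i + 1)) := by
    rw [wt_Rd_succ] at h
    calc _ ≤ _ := h1
      _ ≤ 2 ^ (d + 1) * (E' * wt d (Rd (i + 1)) + E * (wt d 2 * wt d (Rd (i + 1)))) := by
          gcongr
          linarith
      _ = _ := by ring
  have h5 := le_of_mul_le_mul_right h4 hw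
  have h6 : ‖p'‖ ≤ ‖p‖ + ‖p - p'‖ := by
    have : p' = p - (p - p') := by abel
    rw [this]
    refine (norm_sub_le _ _).trans ?_
    simp
  have h7 := mul_le_mul_of_nonneg_left h6 (Vb_pos (d := d)).le
  rw [mul_add] at h7
  linarith

theorem prod_bound (ε : ℕ → ℝ) (hε : ∀ i, 0 ≤ ε i) {C3 B : ℝ} (hC3 : 0 ≤ C3)
    (hB : ∀ I, ∑ i ∈ Finset.range I, ε i ≤ B) (I : ℕ) :
    ∏ j ∈ Finset.range I, (1 + C3 * (ε (j + 1) + ε j)) ≤ Real.exp (C3 * (B + B)) := by
  calc ∏ j ∈ Finset.range I, (1 + C3 * (ε (j + 1) + ε j))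
      ≤ ∏ j ∈ Finset.range I, Real.exp (C3 * (ε (j + 1) + ε j)) := by
        refine Finset.prod_le_prod (fun j _ => ?_) (fun j _ => ?_)
        · have := hε j
          have := hε (j + 1)
          positivity
        · rw [add_comm]
          exact Real.add_one_le_exp _
    _ = Real.exp (∑ j ∈ Finset.range I, C3 * (ε (j + 1) + ε j)) := (Real.exp_sum _ _).symm
    _ ≤ _ := by
        apply Real.exp_le_exp.2
        rw [← Finset.mul_sum, Finset.sum_add_distrib]
        have h1 := hB I
        have h2 := hB (I + 1)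
        rw [Finset.sum_range_succ'] at h2
        have h3 := hε 0
        gcongr
        linarith

/-- **Main iteration**: the `L²` oscillation decays at the Lipschitz rate, uniformly. -/
theorem iteration {lam M : ℝ} (hlam : 0 < lam) {L γ : ℝ} (hL : 0 ≤ L) (hγ : 0 < γ)
    (hγ1 : γ ≤ 1) :
    ∃ C : ℝ, 0 ≤ C ∧ ∀ a : Sp d → Sp d →L[ℝ] Sp d, Coef lam M a →
      ∀ ω : Fin n → ℝ, PerC a ω L γ →
      ∀ u g, Sol a (ball 0 1) u g (fun _ => 0) → ∀ x0 ∈ ball (0 : Sp d) (1/2), ∀ i : ℕ,
        ∃ c : ℝ, nr (ball x0 (Rd i)) (fun x => u x - c) ≤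
          C * nr (ball 0 1) u * wt d (Rd i) := by
  obtain ⟨K, hK⟩ : ∃ K : ℕ, 2 * ((d:ℝ) + 1) ≤ K * γ := by
    obtain ⟨K, hK⟩ := exists_nat_ge (2 * ((d:ℝ) + 1) / γ)
    exact ⟨K, by rwa [div_le_iff₀ hγ] at hK⟩
  obtain ⟨C, hC, H⟩ := good_step (d := d) (n := n) (M := M) hlam hL hγ hγ1 hK
  set q : ℝ := wt d 2 with hq
  have hq0 : 0 < q := wt_pos (by norm_num)
  set C2 : ℝ := C + 1 with hC2
  set C3 : ℝ := q + C + 2 ^ (d + 1) * (C + q * C2 + q) with hC3
  have hC30 : 0 ≤ C3 := by positivity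
  set B : ℝ := 2 + 4 * (K * (1 + 2 * n)) with hB
  have hw0 : 0 < wt d (Rd 0) := wt_pos (Rd_pos 0)
  refine ⟨(wt d (Rd 0))⁻¹ * Real.exp (C3 * (B + B)), by positivity, ?_⟩
  intro a ha ω hω u g hu x0 hx0
  set N0 := nr (ball 0 1) u with hN0
  have hN0' : 0 ≤ N0 := nr_nonneg _ _
  set ε : ℕ → ℝ := fun i => (1/2) ^ back ω K i with hε
  have hεnn : ∀ i, 0 ≤ ε i := fun i => by rw [hε]; positivity
  set S : ℕ → ℝ := fun i => N0 * (wt d (Rd 0))⁻¹ *
    ∏ j ∈ Finset.range i, (1 + C3 * (ε (j + 1) + ε j)) with hS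
  have hSsucc : ∀ i, S (i + 1) = S i * (1 + C3 * (ε (i + 1) + ε i)) := by
    intro i
    simp only [hS]
    rw [Finset.prod_range_succ]
    ring
  have hSnn : ∀ i, 0 ≤ S i := by
    intro i
    simp only [hS]
    refine mul_nonneg (by positivity) (Finset.prod_nonneg fun j _ => ?_)
    have := hεnn j
    have := hεnn (j + 1)
    positivity
  have hSmono : Monotone S := by
    apply monotone_nat_of_le_succ
    intro i
    rw [hSsucc]
    have h1 := hεnn i
    have h2 := hεnn (i + 1)
    have h3 : 0 ≤ C3 * (ε (i + 1) + ε i) := by positivity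
    nlinarith [hSnn i]
  have hSb : ∀ i, S i ≤ N0 * (wt d (Rd 0))⁻¹ * Real.exp (C3 * (B + B)) := by
    intro i
    simp only [hS]
    have := prod_bound ε hεnn hC30 (B := B) (fun I => back_sum ω K I) i
    gcongr
  -- the induction
  have main : ∀ i, ∃ (c : ℝ) (p : Sp d) (E : ℝ), 0 ≤ E ∧ Exc u x0 i c p E ∧
      E ≤ C2 * ε i * S i ∧ E + Vb d * ‖p‖ ≤ S i := by
    intro i
    induction i using Nat.strong_induction_on with
    | _ i ih =>
      rcases i with _ | i
      · have hb0 : back ω K 0 = 0 := Nat.le_zero.1 (back_le ω K 0)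
        refine ⟨0, 0, S 0, hSnn 0, ?_, ?_, ?_⟩
        · unfold Exc
          have e : (fun x => u x - 0 - ⟪(0 : Sp d), x - x0⟫) = u := by
            funext x
            simp
          rw [e]
          have h1 : nr (ball x0 (Rd 0)) u ≤ N0 := nr_mono (ball_Rd_sub hx0 0) (memLp_res hu.mu)
          refine h1.trans (le_of_eq ?_)
          simp only [hS, Finset.range_zero, Finset.prod_empty, mul_one]
          rw [mul_assoc, inv_mul_cancel₀ hw0.ne', mul_one]
        · have h1 : ε 0 = 1 := by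
            simp only [hε, hb0, pow_zero]
          rw [h1, mul_one]
          have := hSnn 0
          nlinarith
        · rw [norm_zero, mul_zero, add_zero]
      · obtain ⟨c, p, E, hE, hexc, hE1, hE2⟩ := ih i (Nat.lt_succ_self i)
        have hVp : 0 ≤ Vb d * ‖p‖ := mul_nonneg Vb_pos.le (norm_nonneg _)
        have hSi := hSnn i
        have he1 := hεnn (i + 1)
        have he0 := hεnn i
        rcases back_spec ω K (i + 1) with hb | hb
        · -- trivial step
          have h1 : ε (i + 1) = 1 := by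
            simp only [hε, hb, pow_zero]
          have hES : E ≤ S i := by linarith
          have hexc' : Exc u x0 (i + 1) c p (q * E) := by
            unfold Exc at hexc ⊢
            have hsub : ball x0 (Rd (i + 1)) ⊆ ball x0 (Rd i) := by
              apply ball_subset_ball
              rw [Rd_succ]
              have := Rd_pos i
              linarith
            have h3 := nr_mono hsub (memLp_exc hu.mu x0 x0 p (Rd i) c)
            rw [wt_Rd_succ] at hexc
            refine h3.trans (hexc.trans (le_of_eq ?_))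
            ring
          have hqS : q * E ≤ q * S i := by gcongr
          have hC3q : q ≤ C3 := by
            rw [hC3]
            have : 0 ≤ C + 2 ^ (d + 1) * (C + q * C2 + q) := by positivity
            linarith
          have hkey : S i + q * S i ≤ S (i + 1) := by
            rw [hSsucc, h1]
            have h4 : q * S i ≤ C3 * S i := by gcongr
            have h5 : 0 ≤ C3 * ε i * S i := by positivity
            nlinarith
          refine ⟨c, p, q * E, by positivity, hexc', ?_, ?_⟩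
          · rw [h1, mul_one]
            have h6 : S (i + 1) ≤ C2 * S (i + 1) := by
              have := hSnn (i + 1)
              nlinarith
            linarith
          · linarith
        · -- good step
          set m := back ω K (i + 1) with hm
          have hmle : m ≤ i + 1 := back_le ω K (i + 1)
          rcases Nat.eq_zero_or_pos m with hm0 | hmpos
          · -- this is also a trivial step
            have h1 : ε (i + 1) = 1 := by
              simp only [hε, ← hm, hm0, pow_zero]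
            have hES : E ≤ S i := by linarith
            have hexc' : Exc u x0 (i + 1) c p (q * E) := by
              unfold Exc at hexc ⊢
              have hsub : ball x0 (Rd (i + 1)) ⊆ ball x0 (Rd i) := by
                apply ball_subset_ball
                rw [Rd_succ]
                have := Rd_pos i
                linarith
              have h3 := nr_mono hsub (memLp_exc hu.mu x0 x0 p (Rd i) c)
              rw [wt_Rd_succ] at hexc
              refine h3.trans (hexc.trans (le_of_eq ?_))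
              ring
            have hqS : q * E ≤ q * S i := by gcongr
            have hC3q : q ≤ C3 := by
              rw [hC3]
              have : 0 ≤ C + 2 ^ (d + 1) * (C + q * C2 + q) := by positivity
              linarith
            have hkey : S i + q * S i ≤ S (i + 1) := by
              rw [hSsucc, h1]
              have h4 : q * S i ≤ C3 * S i := by gcongr
              have h5 : 0 ≤ C3 * ε i * S i := by positivity
              nlinarith
            refine ⟨c, p, q * E, by positivity, hexc', ?_, ?_⟩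
            · rw [h1, mul_one]
              have h6 : S (i + 1) ≤ C2 * S (i + 1) := by
                have := hSnn (i + 1)
                nlinarith
              linarith
            · linarith
          · have hlt : i + 1 - m < i + 1 := by omega
            obtain ⟨cj, pj, Ej, hEj, hexcj, -, hEj2⟩ := ih (i + 1 - m) hlt
            obtain ⟨c', p', h⟩ := H a ha ω hω u g hu x0 hx0 m (i + 1 - m) hb cj
            have hjm : i + 1 - m + m = i + 1 := by omega
            have hRj : Rd (i + 1) = Rd (i + 1 - m) * (1/2) ^ m := by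
              rw [← Rd_add, hjm]
            have h1 := exc_const hu.mu hexcj
            have hjle : i + 1 - m ≤ i := by omega
            have h2 : S (i + 1 - m) ≤ S i := hSmono hjle
            have hwj := wt_pos (d := d) (Rd_pos (i + 1 - m))
            have hεm : ε (i + 1) = (1/2) ^ m := rfl
            have hexc' : Exc u x0 (i + 1) c' p' (C * ε (i + 1) * S i) := by
              unfold Exc
              rw [hjm] at h
              have hwm : wt d (Rd (i + 1)) = wt d (Rd (i + 1 - m)) * wt d ((1/2) ^ m) := by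
                rw [hRj, wt_mul (Rd_pos _).le]
              have hwm' : 0 < wt d (((1:ℝ)/2) ^ m) := wt_pos (by positivity)
              calc _ ≤ _ := h
                _ ≤ C * ((1/2) ^ m * wt d ((1/2) ^ m)) * (S i * wt d (Rd (i + 1 - m))) := by
                    gcongr
                    refine h1.trans ?_
                    gcongr
                    linarith
                _ = _ := by
                    rw [hwm, hεm]
                    ring
            have hsl := exc_slope hu.mu hexc hexc'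
            have hqE : q * E ≤ q * (C2 * ε i * S i) := by gcongr
            refine ⟨c', p', C * ε (i + 1) * S i, by positivity, hexc', ?_, ?_⟩
            · have h6 : S i ≤ S (i + 1) := hSmono (Nat.le_succ i)
              have h7 : C ≤ C2 := by rw [hC2]; linarith
              gcongr
            · rw [hSsucc]
              have hE3 : Vb d * ‖p‖ ≤ S i := by linarith
              have h8 : 2 ^ (d + 1) * (C * ε (i + 1) * S i + q * E) ≤
                  2 ^ (d + 1) * (C * ε (i + 1) * S i + q * (C2 * ε i * S i)) := by gcongr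
              have h9 : S i * (C3 * (ε (i + 1) + ε i)) =
                  (C * ε (i + 1) * S i + 2 ^ (d + 1) * (C * ε (i + 1) * S i + q * (C2 * ε i * S i)))
                  + (q * (ε (i + 1) + ε i) * S i + C * ε i * S i +
                    2 ^ (d + 1) * (C * ε i + q * C2 * ε (i + 1) + q * (ε (i + 1) + ε i)) * S i) := by
                rw [hC3]
                ring
              have h10 : 0 ≤ q * (ε (i + 1) + ε i) * S i + C * ε i * S i +
                    2 ^ (d + 1) * (C * ε i + q * C2 * ε (i + 1) + q * (ε (i + 1) + ε i)) * S i := by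
                positivity
              rw [mul_add, mul_one, h9]
              linarith
  intro i
  obtain ⟨c, p, E, hE, hexc, -, hE2⟩ := main i
  refine ⟨c, (exc_const hu.mu hexc).trans ?_⟩
  have hw := wt_pos (d := d) (Rd_pos i)
  have h1 := hE2.trans (hSb i)
  have e : (wt d (Rd 0))⁻¹ * Real.exp (C3 * (B + B)) * N0 =
      N0 * (wt d (Rd 0))⁻¹ * Real.exp (C3 * (B + B)) := by ring
  rw [e]
  gcongr

end Run7.h682
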