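import Mathlib

/-!
Mollification of compactly supported Sobolev functions (taken over from the starting tree,
`Pool.Agent.Helper533.NHM.Moll`, with its dependencies removed).
-/

set_option autoImplicit false

open MeasureTheory Filter Topology Set
open scoped ENNReal NNReal RealInnerProductSpace

namespace Run7.h682

/-- Euclidean space -/
abbrev Sp (n : ℕ) := EuclideanSpace ℝ (Fin n)

/-- smooth, compactly supported in `D` -/
structure Cc {n : ℕ} (D : Set (Sp n)) (φ : Sp n → ℝ) : Prop where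
  smooth : ContDiff ℝ (⊤ : ℕ∞) φ
  comp : HasCompactSupport φ
  sub : tsupport φ ⊆ D

section
section PM
variable {n : ℕ} {p : ℝ}

/-- Jensen for a probability density -/
theorem jensen_aux (hp : 1 < p) {K V : Sp n → ℝ≥0∞} (hK : AEMeasurable K volume)
    (hK1 : ∫⁻ y, K y = 1) (hV : AEMeasurable V volume) :
    (∫⁻ y, K y * V y) ^ p ≤ ∫⁻ y, K y * V y ^ p := by
  have hp0 : 0 < p := by linarith
  set ν := (volume : Measure (Sp n)).withDensity K with hν
  have hac : ν ≪ volume := withDensity_absolutelyContinuous _ _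
  have h1 : ∫⁻ y, V y ∂ν = ∫⁻ y, K y * V y := lintegral_withDensity_eq_lintegral_mul₀ hK hV
  have h2 : ∫⁻ y, V y ^ p ∂ν = ∫⁻ y, K y * V y ^ p :=
    lintegral_withDensity_eq_lintegral_mul₀ hK (hV.pow_const p)
  have hν1 : ν univ = 1 := by
    rw [hν, withDensity_apply _ MeasurableSet.univ, Measure.restrict_univ, hK1]
  have h3 := ENNReal.lintegral_mul_le_Lp_mul_Lq ν (Real.HolderConjugate.conjExponent hp)
    (hV.mono_ac hac) (aemeasurable_const (b := (1 : ℝ≥0∞)))
  simp only [Pi.mul_apply, mul_one, ENNReal.one_rpow, lintegral_const, hν1] at h3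
  rw [← h1, ← h2]
  calc (∫⁻ y, V y ∂ν) ^ p ≤ ((∫⁻ y, V y ^ p ∂ν) ^ (1 / p)) ^ p :=
        ENNReal.rpow_le_rpow h3 hp0.le
    _ = ∫⁻ y, V y ^ p ∂ν := by
        rw [← ENNReal.rpow_mul, one_div, inv_mul_cancel₀ hp0.ne', ENNReal.rpow_one]

/-- convolution with a kernel supported in a small ball, local `L^p` bound (Jensen) -/
theorem conv_local_bound {F : Type} [NormedAddCommGroup F] [NormedSpace ℝ F] [CompleteSpace F]
    (hp : 1 < p) {k : Sp n → ℝ} (hk : Continuous k) (hk0 : ∀ x, 0 ≤ k x) (hk1 : ∫ x, k x = 1)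
    {δ : ℝ} (hδ : 0 < δ) (hks : ∀ x, δ ≤ ‖x‖ → k x = 0) {U : Sp n → F}
    (hU : MemLp U (ENNReal.ofReal p) volume) {S : Set (Sp n)} (hS : MeasurableSet S) :
    ∫⁻ x in S, ‖∫ y, k y • U (x - y)‖ₑ ^ p ≤
      ∫⁻ x in Metric.thickening δ S, ‖U x‖ₑ ^ p := by
  have hp0 : 0 < p := by linarith
  set K : Sp n → ℝ≥0∞ := fun y => ENNReal.ofReal (k y) with hK
  have hKm : Measurable K := ENNReal.measurable_ofReal.comp hk.measurable
  have hki : Integrable k volume := integrable_of_integral_eq_one hk1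
  have hK1 : ∫⁻ y, K y = 1 := by
    rw [hK, ← ofReal_integral_eq_lintegral_ofReal hki (Eventually.of_forall hk0), hk1,
      ENNReal.ofReal_one]
  have hVm : AEMeasurable (fun x => ‖U x‖ₑ) volume := hU.1.enorm
  have hVx : ∀ x, AEMeasurable (fun y => ‖U (x - y)‖ₑ) volume := by
    intro x
    exact hVm.comp_quasiMeasurePreserving
      (quasiMeasurePreserving_sub_left (volume : Measure (Sp n)) x)
  have hT : MeasurableSet (Metric.thickening δ S) := Metric.isOpen_thickening.measurableSet
  -- step 1 and 2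
  have h12 : ∀ x, ‖∫ y, k y • U (x - y)‖ₑ ^ p ≤ ∫⁻ y, K y * ‖U (x - y)‖ₑ ^ p := by
    intro x
    have e1 : ‖∫ y, k y • U (x - y)‖ₑ ≤ ∫⁻ y, K y * ‖U (x - y)‖ₑ := by
      refine (enorm_integral_le_lintegral_enorm _).trans (le_of_eq ?_)
      refine lintegral_congr (fun y => ?_)
      rw [enorm_smul, Real.enorm_eq_ofReal (hk0 y)]
    exact (ENNReal.rpow_le_rpow e1 hp0.le).trans (jensen_aux hp hKm.aemeasurable hK1 (hVx x))
  -- step 4
  have h4 : ∀ y, K y * ∫⁻ x in S, ‖U (x - y)‖ₑ ^ p ≤
      K y * ∫⁻ x in Metric.thickening δ S, ‖U x‖ₑ ^ p := by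
    intro y
    by_cases hy : δ ≤ ‖y‖
    · have : K y = 0 := by simp only [hK, hks y hy, ENNReal.ofReal_zero]
      rw [this, zero_mul, zero_mul]
    · push Not at hy
      refine mul_le_mul' le_rfl ?_
      rw [← lintegral_indicator hS, ← lintegral_indicator hT,
        ← lintegral_sub_right_eq_self (fun x => (Metric.thickening δ S).indicator
          (fun x => ‖U x‖ₑ ^ p) x) y]
      refine lintegral_mono (fun x => ?_)
      by_cases hx : x ∈ S
      · have hx2 : x - y ∈ Metric.thickening δ S := by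
          rw [Metric.mem_thickening_iff]
          refine ⟨x, hx, ?_⟩
          rw [dist_eq_norm]
          have : x - y - x = -y := by abel
          rw [this, norm_neg]
          exact hy
        simp only [indicator_of_mem hx, indicator_of_mem hx2]
        exact le_rfl
      · simp only [indicator_of_notMem hx]
        exact zero_le
  -- measurability for Tonelli
  have hm : AEMeasurable (Function.uncurry fun (x y : Sp n) => K y * ‖U (x - y)‖ₑ ^ p)
      ((volume.restrict S).prod volume) := by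
    have e1 : AEMeasurable (fun q : Sp n × Sp n => ‖U (q.1 - q.2)‖ₑ)
        ((volume : Measure (Sp n)).prod volume) :=
      hVm.comp_quasiMeasurePreserving
        (quasiMeasurePreserving_sub (volume : Measure (Sp n)) (volume : Measure (Sp n)))
    have e2 : AEMeasurable (fun q : Sp n × Sp n => K q.2 * ‖U (q.1 - q.2)‖ₑ ^ p)
        ((volume : Measure (Sp n)).prod volume) :=
      ((hKm.comp measurable_snd).aemeasurable).mul (e1.pow_const p)
    exact e2.mono_ac (Measure.restrict_le_self.absolutelyContinuous.prod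
      Measure.AbsolutelyContinuous.rfl)
  calc ∫⁻ x in S, ‖∫ y, k y • U (x - y)‖ₑ ^ p
      ≤ ∫⁻ x in S, ∫⁻ y, K y * ‖U (x - y)‖ₑ ^ p := lintegral_mono (fun x => h12 x)
    _ = ∫⁻ y, ∫⁻ x in S, K y * ‖U (x - y)‖ₑ ^ p := lintegral_lintegral_swap hm
    _ = ∫⁻ y, K y * ∫⁻ x in S, ‖U (x - y)‖ₑ ^ p := by
        refine lintegral_congr (fun y => ?_)
        rw [lintegral_const_mul' _ _ ENNReal.ofReal_ne_top]
    _ ≤ ∫⁻ y, K y * ∫⁻ x in Metric.thickening δ S, ‖U x‖ₑ ^ p := lintegral_mono h4
    _ = ∫⁻ x in Metric.thickening δ S, ‖U x‖ₑ ^ p := by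
        rw [lintegral_mul_const _ hKm, hK1, one_mul]

end PM


end

section


section Aux781
variable {n : ℕ} {p : ℝ}

structure Ker781 (ε : ℝ) (k : Sp n → ℝ) : Prop where
  smooth : ContDiff ℝ (⊤ : ℕ∞) k
  nonneg : ∀ x, 0 ≤ k x
  int : ∫ x, k x = 1
  supp : ∀ x, ε ≤ ‖x‖ → k x = 0

theorem exists_ker781 {ε : ℝ} (hε : 0 < ε) : ∃ k : Sp n → ℝ, Ker781 ε k := by
  let f : ContDiffBump (0 : Sp n) := ⟨ε / 2, ε, by positivity, by linarith⟩
  refine ⟨f.normed volume, f.contDiff_normed, fun x => f.nonneg_normed x, f.integral_normed, ?_⟩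
  intro x hx
  have h := f.support_normed_eq (μ := volume)
  by_contra hne
  have hm : x ∈ Function.support (f.normed volume) := hne
  rw [h, mem_ball_zero_iff] at hm
  exact absurd hm (not_lt.mpr hx)

theorem Ker781.comp {ε : ℝ} {k : Sp n → ℝ} (hk : Ker781 ε k) : HasCompactSupport k := by
  apply HasCompactSupport.intro (isCompact_closedBall (0 : Sp n) ε)
  intro x hx
  apply hk.supp
  rw [mem_closedBall_zero_iff, not_le] at hx
  exact hx.le

theorem Ker781.cont {ε : ℝ} {k : Sp n → ℝ} (hk : Ker781 ε k) : Continuous k := hk.smooth.continuous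

theorem Ker781.mono {ε ε' : ℝ} {k : Sp n → ℝ} (hk : Ker781 ε k) (h : ε ≤ ε') : Ker781 ε' k :=
  ⟨hk.smooth, hk.nonneg, hk.int, fun x hx => hk.supp x (h.trans hx)⟩

theorem memLp_locInt781 {F : Type} [NormedAddCommGroup F] (hp : 1 < p)
    {h : Sp n → F} (hh : MemLp h (ENNReal.ofReal p) volume) : LocallyIntegrable h volume :=
  hh.locallyIntegrable (by rw [ENNReal.one_le_ofReal]; exact hp.le)

theorem int_cv781 {F : Type} [NormedAddCommGroup F] [NormedSpace ℝ F]
    {ε : ℝ} {k : Sp n → ℝ} (hk : Ker781 ε k)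
    {h : Sp n → F} (hh : LocallyIntegrable h volume) (x : Sp n) :
    Integrable (fun t => k t • h (x - t)) volume :=
  (hk.comp.convolutionExists_left (ContinuousLinearMap.lsmul ℝ ℝ) hk.cont hh) x

theorem cont_cv781 {F : Type} [NormedAddCommGroup F] [NormedSpace ℝ F]
    {ε : ℝ} {k : Sp n → ℝ} (hk : Ker781 ε k)
    {h : Sp n → F} (hh : LocallyIntegrable h volume) :
    Continuous (fun x => ∫ t, k t • h (x - t)) :=
  hk.comp.continuous_convolution_left (ContinuousLinearMap.lsmul ℝ ℝ) hk.cont hh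

theorem cv_close781 {F : Type} [NormedAddCommGroup F] [NormedSpace ℝ F] [CompleteSpace F]
    {ε : ℝ} {k : Sp n → ℝ} (hk : Ker781 ε k)
    {h : Sp n → F} (hh : LocallyIntegrable h volume) {η : ℝ} (x : Sp n)
    (hc : ∀ t : Sp n, ‖t‖ < ε → ‖h x - h (x - t)‖ ≤ η) :
    ‖h x - ∫ t, k t • h (x - t)‖ ≤ η := by
  have hki : Integrable k volume := hk.cont.integrable_of_hasCompactSupport hk.comp
  have h1 : h x = ∫ t, k t • h x := by
    rw [integral_smul_const, hk.int, one_smul]
  have h2 : h x - ∫ t, k t • h (x - t) = ∫ t, k t • (h x - h (x - t)) := by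
    conv_lhs => rw [h1]
    rw [← integral_sub (hki.smul_const _) (int_cv781 hk hh x)]
    congr 1
    funext t
    rw [smul_sub]
  rw [h2]
  have h3 : ‖∫ t, k t • (h x - h (x - t))‖ ≤ ∫ t, k t * η := by
    apply norm_integral_le_of_norm_le (hki.mul_const η)
    filter_upwards with t
    rw [norm_smul, Real.norm_of_nonneg (hk.nonneg t)]
    by_cases ht : ‖t‖ < ε
    · exact mul_le_mul_of_nonneg_left (hc t ht) (hk.nonneg t)
    · rw [hk.supp t (not_lt.mp ht), zero_mul, zero_mul]
  rwa [integral_mul_const, hk.int, one_mul] at h3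

theorem cv_norm_le781 {F : Type} [NormedAddCommGroup F] [NormedSpace ℝ F] [CompleteSpace F] (hp : 1 < p)
    {ε : ℝ} (hε : 0 < ε) {k : Sp n → ℝ} (hk : Ker781 ε k)
    {h : Sp n → F} (hh : MemLp h (ENNReal.ofReal p) volume) :
    eLpNorm (fun x => ∫ t, k t • h (x - t)) (ENNReal.ofReal p) volume ≤ eLpNorm h (ENNReal.ofReal p) volume := by
  have h0 : ENNReal.ofReal p ≠ 0 := by simp; linarith
  have h1 := conv_local_bound hp hk.cont hk.nonneg hk.int hε hk.supp hh MeasurableSet.univ
  have h2 : Metric.thickening ε (univ : Set (Sp n)) = univ :=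
    eq_univ_of_univ_subset (Metric.self_subset_thickening hε _)
  rw [h2, Measure.restrict_univ] at h1
  rw [eLpNorm_eq_lintegral_rpow_enorm_toReal h0 ENNReal.ofReal_ne_top,
    eLpNorm_eq_lintegral_rpow_enorm_toReal h0 ENNReal.ofReal_ne_top, ENNReal.toReal_ofReal (by linarith)]
  exact ENNReal.rpow_le_rpow h1 (by positivity)

theorem cv_approx781 {F : Type} [NormedAddCommGroup F] [NormedSpace ℝ F] [CompleteSpace F] (hp : 1 < p)
    {h : Sp n → F} (hh : MemLp h (ENNReal.ofReal p) volume) {δ : ℝ} (hδ : 0 < δ) :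
    ∃ ε₀ : ℝ, 0 < ε₀ ∧ ∀ ε : ℝ, 0 < ε → ε ≤ ε₀ → ∀ k : Sp n → ℝ, Ker781 ε k →
      eLpNorm (fun x => h x - ∫ t, k t • h (x - t)) (ENNReal.ofReal p) volume ≤ ENNReal.ofReal δ := by
  have hp0 : ENNReal.ofReal p ≠ 0 := by simp; linarith
  have hp1 : (1 : ℝ≥0∞) ≤ ENNReal.ofReal p := by rw [ENNReal.one_le_ofReal]; exact hp.le
  obtain ⟨h', hcs, hle, hcont, hmem⟩ := hh.exists_hasCompactSupport_eLpNorm_sub_le
    (ENNReal.ofReal_ne_top) (ε := ENNReal.ofReal (δ / 3)) (by simp; linarith)
  set B := Metric.cthickening 1 (tsupport h') with hB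
  have hBc : IsCompact B := hcs.isCompact.cthickening
  have hBtop : volume B ≠ ⊤ := hBc.measure_lt_top.ne
  set Vp : ℝ := (volume B).toReal ^ (1 / p) with hVp
  have hVp0 : 0 ≤ Vp := by positivity
  set η : ℝ := (δ / 3) / (Vp + 1) with hη
  have hη0 : 0 < η := by positivity
  have huc := hcs.uniformContinuous_of_continuous hcont
  obtain ⟨ε₁, hε₁, hu⟩ := Metric.uniformContinuous_iff.mp huc η hη0
  refine ⟨min ε₁ 1, lt_min hε₁ one_pos, ?_⟩
  intro ε hε hεle k hk
  have hloc' : LocallyIntegrable h' volume := hcont.locallyIntegrable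
  have hloc : LocallyIntegrable h volume := memLp_locInt781 hp hh
  -- second piece
  have hb2 : ∀ x, ‖h' x - ∫ t, k t • h' (x - t)‖ ≤ ‖B.indicator (fun _ => η) x‖ := by
    intro x
    by_cases hx : x ∈ B
    · rw [indicator_of_mem hx, Real.norm_of_nonneg hη0.le]
      apply cv_close781 hk hloc' x
      intro t ht
      have := hu (a := x) (b := x - t) (by
        rw [dist_eq_norm, sub_sub_cancel]
        exact ht.trans_le (hεle.trans (min_le_left _ _)))
      rw [dist_eq_norm] at this
      exact this.le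
    · rw [indicator_of_notMem hx, norm_zero]
      have h0 : h' x = 0 := by
        by_contra hne
        exact hx (Metric.self_subset_cthickening _ (subset_tsupport _ hne))
      have := cv_close781 (η := 0) hk hloc' x (by
        intro t ht
        have h1 : h' (x - t) = 0 := by
          by_contra hne
          apply hx
          rw [hB]
          apply Metric.mem_cthickening_of_dist_le x (x - t) 1 _ (subset_tsupport _ hne)
          rw [dist_eq_norm, sub_sub_cancel]
          exact ht.le.trans (hεle.trans (min_le_right _ _))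
        rw [h0, h1, sub_zero, norm_zero])
      exact this
  have hn2 : eLpNorm (fun x => h' x - ∫ t, k t • h' (x - t)) (ENNReal.ofReal p) volume ≤ ENNReal.ofReal (δ / 3) := by
    refine (eLpNorm_mono hb2).trans ?_
    rw [eLpNorm_indicator_const hBc.isClosed.measurableSet hp0 ENNReal.ofReal_ne_top,
      ENNReal.toReal_ofReal (by linarith), ← ofReal_norm, Real.norm_of_nonneg hη0.le]
    rw [← ENNReal.ofReal_toReal hBtop, ENNReal.ofReal_rpow_of_nonneg ENNReal.toReal_nonneg (by positivity),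
      ← ENNReal.ofReal_mul hη0.le]
    apply ENNReal.ofReal_le_ofReal
    rw [← hVp, hη, div_mul_eq_mul_div, div_le_iff₀ (by positivity)]
    nlinarith
  -- third piece
  have hmd : MemLp (h - h') (ENNReal.ofReal p) volume := hh.sub hmem
  have hn3 : eLpNorm (fun x => ∫ t, k t • (h - h') (x - t)) (ENNReal.ofReal p) volume ≤ ENNReal.ofReal (δ / 3) :=
    (cv_norm_le781 hp hε hk hmd).trans hle
  have heq : (fun x => h x - ∫ t, k t • h (x - t)) =
      (h - h') + ((fun x => h' x - ∫ t, k t • h' (x - t)) - (fun x => ∫ t, k t • (h - h') (x - t))) := by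
    funext x
    simp only [Pi.add_apply, Pi.sub_apply]
    have : ∫ t, k t • (h (x - t) - h' (x - t)) = (∫ t, k t • h (x - t)) - ∫ t, k t • h' (x - t) := by
      rw [← integral_sub (int_cv781 hk hloc x) (int_cv781 hk hloc' x)]
      congr 1
      funext t
      rw [smul_sub]
    rw [this]
    abel
  rw [heq]
  have m1 : AEStronglyMeasurable (h - h') volume := hmd.1
  have m2 : AEStronglyMeasurable (fun x => h' x - ∫ t, k t • h' (x - t)) volume :=
    (hcont.sub (cont_cv781 hk hloc')).aestronglyMeasurable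
  have m3 : AEStronglyMeasurable (fun x => ∫ t, k t • (h - h') (x - t)) volume :=
    (cont_cv781 hk (memLp_locInt781 hp hmd)).aestronglyMeasurable
  refine (eLpNorm_add_le m1 (m2.sub m3) hp1).trans ?_
  have hsub := eLpNorm_sub_le m2 m3 hp1
  calc eLpNorm (h - h') (ENNReal.ofReal p) volume +
      eLpNorm ((fun x => h' x - ∫ t, k t • h' (x - t)) - (fun x => ∫ t, k t • (h - h') (x - t)))
        (ENNReal.ofReal p) volume
      ≤ ENNReal.ofReal (δ / 3) + (ENNReal.ofReal (δ / 3) + ENNReal.ofReal (δ / 3)) :=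
        add_le_add hle (hsub.trans (add_le_add hn2 hn3))
    _ = ENNReal.ofReal δ := by
        rw [← ENNReal.ofReal_add (by positivity) (by positivity), ← ENNReal.ofReal_add (by positivity) (by positivity)]
        congr 1
        ring


theorem grad_cv781 (hp : 1 < p) {g : Sp n → ℝ} {U : Sp n → Sp n}
    (hg : MemLp g (ENNReal.ofReal p) volume) (hU : MemLp U (ENNReal.ofReal p) volume)
    (hw : ∀ φ : Sp n → ℝ, Cc univ φ → ∫ x, g x • gradient φ x = - ∫ x, φ x • U x)
    {ε : ℝ} {k : Sp n → ℝ} (hk : Ker781 ε k) (x : Sp n) :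
    HasGradientAt (fun x => ∫ t, k t • g (x - t)) (∫ t, k t • U (x - t)) x := by
  have hgl := memLp_locInt781 hp hg
  have hUl := memLp_locInt781 hp hU
  have hk1 : ContDiff ℝ 1 k := hk.smooth.of_le (by exact_mod_cast le_top)
  have hkd : Differentiable ℝ k := hk1.differentiable one_ne_zero
  have hfd := hk.comp.hasFDerivAt_convolution_left (ContinuousLinearMap.lsmul ℝ ℝ) hk1 hgl x
  rw [hasGradientAt_iff_hasFDerivAt]
  refine HasFDerivAt.congr_fderiv hfd ?_
  -- test function
  set ψ : Sp n → ℝ := fun y => k (x - y) with hψ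
  have hψs : ContDiff ℝ (⊤ : ℕ∞) ψ := hk.smooth.comp (contDiff_const.sub contDiff_id)
  have hψc : HasCompactSupport ψ := by
    apply HasCompactSupport.intro (isCompact_closedBall x ε)
    intro y hy
    apply hk.supp
    rw [mem_closedBall_iff_norm, not_le, norm_sub_rev] at hy
    exact hy.le
  have hCc : Cc univ ψ := ⟨hψs, hψc, subset_univ _⟩
  have hψ1 : ContDiff ℝ 1 ψ := hψs.of_le (by exact_mod_cast le_top)
  have hfψ : ∀ y v, fderiv ℝ ψ y v = - fderiv ℝ k (x - y) v := by
    intro y v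
    have h1 : HasFDerivAt ψ ((fderiv ℝ k (x - y)).comp (-ContinuousLinearMap.id ℝ (Sp n))) y :=
      (hkd (x - y)).hasFDerivAt.comp y ((hasFDerivAt_id y).const_sub x)
    rw [h1.fderiv]
    simp
  have hgr : ∀ y v, inner ℝ (gradient ψ y) v = - fderiv ℝ k (x - y) v := by
    intro y v
    rw [← hfψ, gradient, InnerProductSpace.toDual_symm_apply]
  have hgc : Continuous (gradient ψ) := by
    unfold gradient
    exact (InnerProductSpace.toDual ℝ (Sp n)).symm.continuous.comp (hψ1.continuous_fderiv one_ne_zero)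
  have hgs : HasCompactSupport (gradient ψ) := by
    apply HasCompactSupport.intro hψc.isCompact
    intro y hy
    unfold gradient
    have : fderiv ℝ ψ y = 0 := by
      by_contra hne
      exact hy (support_fderiv_subset ℝ hne)
    rw [this, map_zero]
  have hi : Integrable (fun y => g y • gradient ψ y) volume :=
    hgl.integrable_smul_right_of_hasCompactSupport hgc hgs
  have hw' := hw ψ hCc
  have hUi : ∫ t, k t • U (x - t) = ∫ y, ψ y • U y := by
    rw [← integral_sub_left_eq_self (fun y => ψ y • U y) volume x]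
    simp only [hψ, sub_sub_cancel]
  ext v
  rw [convolution_def]
  have hce : Integrable (fun t => ((ContinuousLinearMap.lsmul ℝ ℝ : ℝ →L[ℝ] ℝ →L[ℝ] ℝ).precompL (Sp n) (fderiv ℝ k t)) (g (x - t))) volume :=
    ((hk.comp.fderiv (𝕜 := ℝ)).convolutionExists_left _ (hk1.continuous_fderiv one_ne_zero) hgl) x
  rw [ContinuousLinearMap.integral_apply hce]
  have e1 : ∀ t, (((ContinuousLinearMap.lsmul ℝ ℝ : ℝ →L[ℝ] ℝ →L[ℝ] ℝ).precompL (Sp n) (fderiv ℝ k t)) (g (x - t))) v =
      fderiv ℝ k t v * g (x - t) := by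
    intro t
    rw [ContinuousLinearMap.precompL_apply]
    rfl
  simp only [e1]
  rw [InnerProductSpace.toDual_apply_apply, hUi]
  have e2 : inner ℝ (∫ y, ψ y • U y) v = - ∫ y, inner ℝ (g y • gradient ψ y) v := by
    have h3 : ∫ y, ψ y • U y = - ∫ y, g y • gradient ψ y := by rw [hw', neg_neg]
    rw [h3, inner_neg_left, real_inner_comm, ← integral_inner hi]
    congr 1
    congr 1
    funext y
    rw [real_inner_comm]
  rw [e2, ← integral_neg, ← integral_sub_left_eq_self (fun y => -inner ℝ (g y • gradient ψ y) v) volume x]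
  congr 1
  funext t
  rw [real_inner_smul_left, hgr, sub_sub_cancel]
  ring

end Aux781

section PM
variable {n : ℕ} {p : ℝ}


/-- mollification of compactly supported Sobolev functions -/
theorem mollify_weak (hp : 1 < p) {g : Sp n → ℝ} {U : Sp n → Sp n}
    (hg : MemLp g (ENNReal.ofReal p) volume) (hU : MemLp U (ENNReal.ofReal p) volume)
    {K : Set (Sp n)} (hK : IsCompact K) (hgK : ∀ᵐ x ∂(volume : Measure (Sp n)), x ∉ K → g x = 0)
    (hw : ∀ φ : Sp n → ℝ, Cc univ φ → ∫ x, g x • gradient φ x = - ∫ x, φ x • U x) {δ : ℝ}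
    (hδ : 0 < δ) :
    ∃ φ : Sp n → ℝ, Cc univ φ ∧ tsupport φ ⊆ Metric.cthickening δ K ∧
      eLpNorm (fun x => g x - φ x) (ENNReal.ofReal p) volume ≤ ENNReal.ofReal δ ∧
      eLpNorm (fun x => U x - gradient φ x) (ENNReal.ofReal p) volume ≤ ENNReal.ofReal δ ∧
      (∀ S : Set (Sp n), MeasurableSet S → ∫⁻ x in S, ‖gradient φ x‖ₑ ^ p ≤
        ∫⁻ x in Metric.thickening δ S, ‖U x‖ₑ ^ p) ∧
      (Continuous g → ∀ x, |φ x - g x| ≤ δ) := by
  set g₀ : Sp n → ℝ := K.indicator g with hg₀
  have hae : g =ᵐ[volume] g₀ := by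
    filter_upwards [hgK] with x hx
    by_cases hxK : x ∈ K
    · rw [hg₀, indicator_of_mem hxK]
    · rw [hg₀, indicator_of_notMem hxK, hx hxK]
  have hgm : MemLp g₀ (ENNReal.ofReal p) volume := hg.ae_eq hae
  have hw₀ : ∀ φ : Sp n → ℝ, Cc univ φ → ∫ x, g₀ x • gradient φ x = - ∫ x, φ x • U x := by
    intro φ hφ
    rw [← hw φ hφ]
    apply integral_congr_ae
    filter_upwards [hae] with x hx
    rw [hx]
  have hgl := memLp_locInt781 hp hgm
  -- uniform continuity
  obtain ⟨ε₂, hε₂, hu⟩ : ∃ ε₂ : ℝ, 0 < ε₂ ∧ (Continuous g → g = g₀ ∧ ∀ x t, ‖t‖ < ε₂ → |g x - g (x - t)| ≤ δ) := by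
    by_cases hgc : Continuous g
    · have hz : ∀ x ∉ K, g x = 0 := by
        intro x hx
        by_contra hne
        have hopen : IsOpen (Kᶜ ∩ g ⁻¹' {0}ᶜ) := hK.isClosed.isOpen_compl.inter
          (isOpen_compl_singleton.preimage hgc)
        have hpos := hopen.measure_pos volume ⟨x, hx, hne⟩
        have hnull : volume (Kᶜ ∩ g ⁻¹' {0}ᶜ) = 0 := by
          apply measure_mono_null _ hgK
          intro y hy h
          exact hy.2 (h hy.1)
        exact hpos.ne' hnull
      have hcs : HasCompactSupport g := HasCompactSupport.intro hK hz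
      obtain ⟨ε₂, hε₂, h⟩ := Metric.uniformContinuous_iff.mp (hcs.uniformContinuous_of_continuous hgc) δ hδ
      refine ⟨ε₂, hε₂, fun _ => ⟨?_, fun x t ht => ?_⟩⟩
      · funext x
        by_cases hxK : x ∈ K
        · rw [hg₀, indicator_of_mem hxK]
        · rw [hg₀, indicator_of_notMem hxK, hz x hxK]
      · have := h (a := x) (b := x - t) (by rw [dist_eq_norm, sub_sub_cancel]; exact ht)
        rw [Real.dist_eq] at this
        exact this.le
    · exact ⟨1, one_pos, fun h => absurd h hgc⟩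
  obtain ⟨ε₀, hε₀, ha⟩ := cv_approx781 hp hgm hδ
  obtain ⟨ε₁, hε₁, hb⟩ := cv_approx781 hp hU hδ
  set ε := min (min ε₀ ε₁) (min ε₂ δ) with hε
  have hεpos : 0 < ε := lt_min (lt_min hε₀ hε₁) (lt_min hε₂ hδ)
  obtain ⟨k, hk⟩ := exists_ker781 (n := n) hεpos
  have hkδ : Ker781 δ k := hk.mono ((min_le_right _ _).trans (min_le_right _ _))
  have hgrad : ∀ x, gradient (fun x => ∫ t, k t • g₀ (x - t)) x = ∫ t, k t • U (x - t) := fun x =>
    (grad_cv781 hp hgm hU hw₀ hk x).gradient
  have hsupp : tsupport (fun x => ∫ t, k t • g₀ (x - t)) ⊆ Metric.cthickening δ K := by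
    apply closure_minimal _ Metric.isClosed_cthickening
    intro x hx
    by_contra hxn
    apply hx
    have : (fun t => k t • g₀ (x - t)) = fun _ => 0 := by
      funext t
      by_cases ht : δ ≤ ‖t‖
      · rw [hkδ.supp t ht, zero_smul]
      · have : x - t ∉ K := by
          intro hm
          apply hxn
          apply Metric.mem_cthickening_of_dist_le x (x - t) δ _ hm
          rw [dist_eq_norm, sub_sub_cancel]
          exact (not_le.mp ht).le
        rw [hg₀, indicator_of_notMem this, smul_zero]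
    show ∫ t, k t • g₀ (x - t) = 0
    rw [this, integral_zero]
  have hcomp : HasCompactSupport (fun x => ∫ t, k t • g₀ (x - t)) :=
    HasCompactSupport.of_support_subset_isCompact hK.cthickening ((subset_tsupport _).trans hsupp)
  refine ⟨fun x => ∫ t, k t • g₀ (x - t), ⟨?_, hcomp, subset_univ _⟩, hsupp, ?_, ?_, ?_, ?_⟩
  · exact hk.comp.contDiff_convolution_left (ContinuousLinearMap.lsmul ℝ ℝ) hk.smooth hgl
  · have h1 := ha ε hεpos ((min_le_left _ _).trans (min_le_left _ _)) k hk
    refine le_trans (le_of_eq ?_) h1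
    apply eLpNorm_congr_ae
    filter_upwards [hae] with x hx
    rw [hx]
  · have h1 := hb ε hεpos ((min_le_left _ _).trans (min_le_right _ _)) k hk
    simp only [hgrad]
    exact h1
  · intro S hS
    simp only [hgrad]
    exact conv_local_bound hp hkδ.cont hkδ.nonneg hkδ.int hδ hkδ.supp hU hS
  · intro hgc x
    obtain ⟨h1, h2⟩ := hu hgc
    have h3 := cv_close781 (η := δ) hk hgl x (by
      intro t ht
      rw [Real.norm_eq_abs, ← h1]
      exact h2 x t (ht.trans_le ((min_le_right _ _).trans (min_le_left _ _))))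
    rw [Real.norm_eq_abs, ← h1, abs_sub_comm] at h3
    rw [← h1]
    exact h3

end PM

end

end Run7.h682
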