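import Pool.Agent.Run7.h682.Sob

/-!
A Poincare type inequality in terms of translations.
-/

set_option autoImplicit false

open MeasureTheory Filter Topology Set Metric
open scoped ENNReal NNReal RealInnerProductSpace ContDiff

namespace Run7.h682

variable {d : ℕ}

theorem elp_sq {α F : Type*} [MeasurableSpace α] [NormedAddCommGroup F] (μ : Measure α)
    (f : α → F) : eLpNorm f 2 μ ^ 2 = ∫⁻ x, ‖f x‖ₑ ^ 2 ∂μ := by
  have h := eLpNorm_nnreal_pow_eq_lintegral (μ := μ) (f := f) (p := 2) (by norm_num)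
  simpa using h

theorem vol_ball (x : Sp d) {r : ℝ} (hr : 0 < r) :
    volume (ball x r) = ENNReal.ofReal (r ^ d) * volume (ball (0 : Sp d) 1) := by
  rw [Measure.addHaar_ball_of_pos _ _ hr]
  simp

theorem poin_aux {f : Sp d → ℝ} (hf : Measurable f) {r : ℝ} (hr : 0 < r) (c0 : Sp d)
    {X : ℝ≥0∞} (h : ∀ v ∈ ball c0 (2 * r), ∫⁻ x in ball 0 r, ‖f (x + v) - f x‖ₑ ^ 2 ≤ X) :
    ∃ c : ℝ, ∫⁻ x in ball 0 r, ‖f x - c‖ₑ ^ 2 ≤ 2 ^ d * X := by
  have hvr : volume (ball c0 r) ≠ 0 := (measure_ball_pos _ _ hr).ne'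
  have hvt : volume (ball c0 r) ≠ ⊤ := measure_ball_lt_top.ne
  have m1 : Measurable (Function.uncurry fun (y x : Sp d) => ‖f x - f y‖ₑ ^ 2) := by
    unfold Function.uncurry
    fun_prop
  have m2 : Measurable (Function.uncurry fun (x v : Sp d) => ‖f (x + v) - f x‖ₑ ^ 2) := by
    unfold Function.uncurry
    fun_prop
  have key : ∫⁻ y in ball c0 r, ∫⁻ x in ball (0 : Sp d) r, ‖f x - f y‖ₑ ^ 2 ≤
      X * volume (ball c0 (2 * r)) := by
    calc ∫⁻ y in ball c0 r, ∫⁻ x in ball (0 : Sp d) r, ‖f x - f y‖ₑ ^ 2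
        = ∫⁻ x in ball (0 : Sp d) r, ∫⁻ y in ball c0 r, ‖f x - f y‖ₑ ^ 2 :=
          lintegral_lintegral_swap m1.aemeasurable
      _ ≤ ∫⁻ x in ball (0 : Sp d) r, ∫⁻ v in ball c0 (2 * r), ‖f (x + v) - f x‖ₑ ^ 2 := by
          refine setLIntegral_mono' measurableSet_ball fun x hx => ?_
          rw [← lintegral_indicator measurableSet_ball, ← lintegral_indicator measurableSet_ball,
            ← lintegral_add_left_eq_self _ x]
          refine lintegral_mono fun v => ?_
          by_cases hv : x + v ∈ ball c0 r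
          · have hv2 : v ∈ ball c0 (2 * r) := by
              rw [mem_ball_iff_norm] at hv ⊢
              rw [mem_ball_zero_iff] at hx
              have : v - c0 = (x + v - c0) - x := by abel
              rw [this]
              refine (norm_sub_le _ _).trans_lt ?_
              linarith
            rw [indicator_of_mem hv, indicator_of_mem hv2, ← enorm_neg, neg_sub]
          · rw [indicator_of_notMem hv]
            exact zero_le
      _ = ∫⁻ v in ball c0 (2 * r), ∫⁻ x in ball (0 : Sp d) r, ‖f (x + v) - f x‖ₑ ^ 2 :=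
          lintegral_lintegral_swap m2.aemeasurable
      _ ≤ ∫⁻ v in ball c0 (2 * r), X := setLIntegral_mono' measurableSet_ball h
      _ = X * volume (ball c0 (2 * r)) := by rw [setLIntegral_const]
  obtain ⟨y, -, hy⟩ := exists_le_setLAverage hvr hvt
    (f := fun y => ∫⁻ x in ball (0 : Sp d) r, ‖f x - f y‖ₑ ^ 2)
    (Measurable.lintegral_prod_right m1).aemeasurable
  refine ⟨f y, hy.trans ?_⟩
  rw [setLAverage_eq]
  refine ENNReal.div_le_of_le_mul (key.trans (le_of_eq ?_))
  rw [vol_ball c0 (by positivity), vol_ball c0 hr, mul_pow, ENNReal.ofReal_mul (by positivity),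
    ENNReal.ofReal_pow (by norm_num)]
  have : ENNReal.ofReal 2 = 2 := by simp
  rw [this]
  ring

theorem poin {f : Sp d → ℝ} (hf : MemLp f 2 volume) {r : ℝ} (hr : 0 < r) (c0 : Sp d)
    {X : ℝ} (hX : 0 ≤ X)
    (h : ∀ v ∈ ball c0 (2 * r), nr (ball 0 r) (fun x => f (x + v) - f x) ≤ X) :
    ∃ c : ℝ, nr (ball 0 r) (fun x => f x - c) ≤ 2 ^ d * X := by
  obtain ⟨f', hf', hff'⟩ : ∃ f' : Sp d → ℝ, Measurable f' ∧ f =ᵐ[volume] f' :=
    ⟨hf.1.mk f, hf.1.stronglyMeasurable_mk.measurable, hf.1.ae_eq_mk⟩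
  have hfv : ∀ v : Sp d, (fun x => f (x + v)) =ᵐ[volume] fun x => f' (x + v) := fun v =>
    (measurePreserving_add_right volume v).quasiMeasurePreserving.ae_eq_comp hff'
  have hm : ∀ v : Sp d, MemLp (fun x => f (x + v) - f x) 2 volume := fun v =>
    (memLp_translate hf v).sub hf
  have h' : ∀ v ∈ ball c0 (2 * r), ∫⁻ x in ball 0 r, ‖f' (x + v) - f' x‖ₑ ^ 2 ≤
      ENNReal.ofReal X ^ 2 := by
    intro v hv
    rw [← elp_sq]
    refine pow_le_pow_left₀ zero_le ?_ 2
    have h1 : eLpNorm (fun x => f' (x + v) - f' x) 2 (volume.restrict (ball 0 r)) =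
        eLpNorm (fun x => f (x + v) - f x) 2 (volume.restrict (ball 0 r)) := by
      apply eLpNorm_congr_ae
      apply ae_restrict_of_ae
      filter_upwards [hfv v, hff'] with x hx1 hx2
      rw [hx1, hx2]
    rw [h1]
    have h2 := h v hv
    unfold nr at h2
    exact (ENNReal.le_ofReal_iff_toReal_le (memLp_res (hm v)).2.ne hX).2 h2
  obtain ⟨c, hc⟩ := poin_aux hf' hr c0 h'
  refine ⟨c, ?_⟩
  have h3 : eLpNorm (fun x => f x - c) 2 (volume.restrict (ball 0 r)) =
      eLpNorm (fun x => f' x - c) 2 (volume.restrict (ball 0 r)) := by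
    apply eLpNorm_congr_ae
    apply ae_restrict_of_ae
    filter_upwards [hff'] with x hx2
    rw [hx2]
  unfold nr
  rw [h3]
  rw [← elp_sq] at hc
  have h4 : eLpNorm (fun x => f' x - c) 2 (volume.restrict (ball 0 r)) ^ 2 ≤
      (ENNReal.ofReal (2 ^ d * X)) ^ 2 := by
    refine hc.trans ?_
    rw [ENNReal.ofReal_mul (by positivity), mul_pow, ENNReal.ofReal_pow (by norm_num)]
    have : ENNReal.ofReal 2 = 2 := by simp
    rw [this]
    refine mul_le_mul_of_nonneg_right ?_ zero_le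
    exact le_self_pow₀ (one_le_pow₀ (by norm_num)) (by norm_num)
  have h5 : eLpNorm (fun x => f' x - c) 2 (volume.restrict (ball 0 r)) ≤
      ENNReal.ofReal (2 ^ d * X) := by
    by_contra hcon
    push Not at hcon
    exact absurd h4 (not_le.2 (ENNReal.pow_lt_pow_left (by norm_num) hcon))
  rw [← ENNReal.toReal_ofReal (show 0 ≤ 2 ^ d * X by positivity)]
  exact ENNReal.toReal_mono ENNReal.ofReal_ne_top h5

end Run7.h682
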