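import Pool.Agent.Run7.h682.Camp

/-!
The core theorem, and the reduction of the multiscale problem to it.
-/

set_option autoImplicit false

open MeasureTheory Filter Topology Set Metric
open scoped ENNReal NNReal RealInnerProductSpace

namespace Run7.h682

variable {d n : ℕ}

/-- **Core theorem**: uniform Lipschitz estimate for almost periodic coefficients. -/
theorem core {lam M : ℝ} (hlam : 0 < lam) {L γ : ℝ} (hL : 0 ≤ L) (hγ : 0 < γ) (hγ1 : γ ≤ 1) :
    ∃ C : ℝ, 0 ≤ C ∧ ∀ a : Sp d → Sp d →L[ℝ] Sp d, Coef lam M a →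
      ∀ ω : Fin n → ℝ, PerC a ω L γ →
      ∀ u g, Sol a (ball 0 1) u g (fun _ => 0) →
      ∃ v : Sp d → ℝ, (∀ᵐ x, v x = u x) ∧
        ∀ x ∈ ball (0 : Sp d) (1/2), ∀ y ∈ ball (0 : Sp d) (1/2),
          |v x - v y| ≤ C * ‖x - y‖ * nr (ball 0 1) u := by
  obtain ⟨C1, hC1, H1⟩ := iteration (d := d) (n := n) (M := M) hlam hL hγ hγ1
  obtain ⟨C2, hC2, H2⟩ := campanato (d := d)
  refine ⟨C2 * C1, by positivity, ?_⟩
  intro a ha ω hω u g hu
  have hn := nr_nonneg (ball (0 : Sp d) 1) u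
  obtain ⟨v, hv1, hv2⟩ := H2 u (C1 * nr (ball 0 1) u) hu.mu (by positivity)
    (fun x0 hx0 i => H1 a ha ω hω u g hu x0 hx0 i)
  refine ⟨v, hv1, fun x hx y hy => (hv2 x hx y hy).trans (le_of_eq ?_)⟩
  ring

/-! ### matrices -/

/-- the linear map of a matrix -/
noncomputable def tl (B : Matrix (Fin d) (Fin d) ℝ) : Sp d →ₗ[ℝ] Sp d where
  toFun ξ := WithLp.toLp 2 (fun i => ∑ j, B i j * ξ j)
  map_add' ξ η := by
    ext i
    simp only [PiLp.add_apply]
    rw [← Finset.sum_add_distrib]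
    exact Finset.sum_congr rfl fun j _ => by ring
  map_smul' c ξ := by
    ext i
    simp only [PiLp.smul_apply, smul_eq_mul, RingHom.id_apply]
    rw [Finset.mul_sum]
    exact Finset.sum_congr rfl fun j _ => by ring

/-- the continuous linear map of a matrix -/
noncomputable def tc (B : Matrix (Fin d) (Fin d) ℝ) : Sp d →L[ℝ] Sp d :=
  LinearMap.toContinuousLinearMap (tl B)

theorem tc_apply (B : Matrix (Fin d) (Fin d) ℝ) (ξ : Sp d) (i : Fin d) :
    tc B ξ i = ∑ j, B i j * ξ j := rfl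

theorem tc_sub (B B' : Matrix (Fin d) (Fin d) ℝ) : tc (B - B') = tc B - tc B' := by
  ext ξ i
  rw [_root_.sub_apply, PiLp.sub_apply, tc_apply, tc_apply, tc_apply,
    ← Finset.sum_sub_distrib]
  exact Finset.sum_congr rfl fun j _ => by rw [Matrix.sub_apply]; ring

theorem norm_tc_le {B : Matrix (Fin d) (Fin d) ℝ} {m : ℝ} (hm : 0 ≤ m)
    (h : ∀ i j, |B i j| ≤ m) : ‖tc B‖ ≤ d * d * m := by
  refine ContinuousLinearMap.opNorm_le_bound _ (by positivity) fun ξ => ?_
  refine (norm_le_sum_abs _).trans ?_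
  calc ∑ i, |tc B ξ i| ≤ ∑ i : Fin d, ∑ j : Fin d, m * ‖ξ‖ := by
        refine Finset.sum_le_sum fun i _ => ?_
        rw [tc_apply]
        refine (Finset.abs_sum_le_sum_abs _ _).trans (Finset.sum_le_sum fun j _ => ?_)
        rw [abs_mul]
        exact mul_le_mul (h i j) (abs_apply_le ξ j) (abs_nonneg _) hm
    _ = d * d * m * ‖ξ‖ := by
        simp only [Finset.sum_const, Finset.card_univ, Fintype.card_fin, nsmul_eq_mul]
        ring

theorem inner_tc (B : Matrix (Fin d) (Fin d) ℝ) (ξ : Sp d) :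
    ⟪tc B ξ, ξ⟫ = ∑ i, ∑ j, B i j * ξ j * ξ i := by
  rw [PiLp.inner_apply]
  refine Finset.sum_congr rfl fun i _ => ?_
  rw [tc_apply]
  simp only [RCLike.inner_apply, conj_trivial]
  rw [Finset.mul_sum]
  exact Finset.sum_congr rfl fun j _ => by ring

/-! ### clamping -/

/-- componentwise clamping to `[-1, 1]` -/
noncomputable def cl (x : Sp d) : Sp d := WithLp.toLp 2 (fun i => max (-1) (min 1 (x i)))

theorem cl_apply (x : Sp d) (i : Fin d) : cl x i = max (-1) (min 1 (x i)) := rfl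

theorem cl_of_mem {x : Sp d} (hx : x ∈ ball (0 : Sp d) 1) : cl x = x := by
  ext i
  rw [cl_apply]
  rw [mem_ball_zero_iff] at hx
  have h := (abs_apply_le x i).trans hx.le
  rw [abs_le] at h
  rw [min_eq_right h.2, max_eq_right h.1]

theorem clamp_lip (a b : ℝ) : |max (-1) (min 1 a) - max (-1) (min 1 b)| ≤ |a - b| := by
  rcases le_total a b with h | h
  · rw [abs_of_nonpos (sub_nonpos.2 h), abs_of_nonpos]
    · rcases max_cases (-1) (min 1 a) with h1 | h1 <;> rcases max_cases (-1) (min 1 b) with h2 | h2 <;>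
        rcases min_cases 1 a with h3 | h3 <;> rcases min_cases 1 b with h4 | h4 <;> linarith
    · have h1 : max (-1) (min 1 a) ≤ max (-1) (min 1 b) :=
        max_le_max le_rfl (min_le_min le_rfl h)
      linarith
  · rw [abs_of_nonneg (sub_nonneg.2 h), abs_of_nonneg]
    · rcases max_cases (-1) (min 1 a) with h1 | h1 <;> rcases max_cases (-1) (min 1 b) with h2 | h2 <;>
        rcases min_cases 1 a with h3 | h3 <;> rcases min_cases 1 b with h4 | h4 <;> linarith
    · have h1 : max (-1) (min 1 b) ≤ max (-1) (min 1 a) :=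
        max_le_max le_rfl (min_le_min le_rfl h)
      linarith

theorem cl_lip (x y : Sp d) : ‖cl x - cl y‖ ≤ ‖x - y‖ := by
  rw [EuclideanSpace.norm_eq, EuclideanSpace.norm_eq]
  apply Real.sqrt_le_sqrt
  refine Finset.sum_le_sum fun i _ => ?_
  rw [PiLp.sub_apply, PiLp.sub_apply, Real.norm_eq_abs, Real.norm_eq_abs, cl_apply, cl_apply]
  exact pow_le_pow_left₀ (abs_nonneg _) (clamp_lip _ _) 2

theorem norm_le_of_apply {x : Sp d} (h : ∀ i, |x i| ≤ 1) : ‖x‖ ≤ d := by
  refine (norm_le_sum_abs x).trans ?_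
  calc ∑ i, |x i| ≤ ∑ i : Fin d, (1:ℝ) := Finset.sum_le_sum fun i _ => h i
    _ = d := by simp

theorem norm_cl (x : Sp d) : ‖cl x‖ ≤ d := by
  refine norm_le_of_apply fun i => ?_
  rw [cl_apply, abs_le]
  exact ⟨le_max_left _ _, max_le (by norm_num) (min_le_left _ _)⟩

/-! ### reduction -/

/-- the admissible coefficient fields, unbundled -/
structure Adm (Λ γ L : ℝ) (A : Sp d → (Fin n → Sp d) → Matrix (Fin d) (Fin d) ℝ) : Prop where
  ell : ∀ x y (ξ : Sp d), Λ * ‖ξ‖ ^ 2 ≤ ∑ i, ∑ j, A x y i j * ξ j * ξ i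
  bdd : ∀ x y (ξ : Sp d), ∑ i, ∑ j, A x y i j * ξ j * ξ i ≤ Λ⁻¹ * ‖ξ‖ ^ 2
  per : ∀ x y (z : Fin n → Fin d → ℤ),
    A x (fun k => y k + WithLp.toLp 2 (fun i => (z k i : ℝ))) = A x y
  hol : ∀ x y x' y' i j,
    |A x y i j - A x' y' i j| ≤ L * (‖x - x'‖ + ∑ k, ‖y k - y' k‖) ^ γ

variable {Λ γ L : ℝ} {A : Sp d → (Fin n → Sp d) → Matrix (Fin d) (Fin d) ℝ}

/-- the antisymmetric part of the coefficients at the origin -/
noncomputable def anti (A : Sp d → (Fin n → Sp d) → Matrix (Fin d) (Fin d) ℝ) :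
    Matrix (Fin d) (Fin d) ℝ := fun i j => (A 0 0 i j - A 0 0 j i) / 2

theorem anti_symm (i j : Fin d) : anti A i j = - anti A j i := by
  unfold anti
  ring

theorem anti_quad (ξ : Sp d) : ∑ i, ∑ j, anti A i j * ξ j * ξ i = 0 := by
  have h : ∑ i, ∑ j, anti A i j * ξ j * ξ i = - ∑ i, ∑ j, anti A i j * ξ j * ξ i := by
    calc ∑ i, ∑ j, anti A i j * ξ j * ξ i = ∑ j, ∑ i, anti A i j * ξ j * ξ i :=
          Finset.sum_comm
      _ = ∑ j, ∑ i, - (anti A j i * ξ i * ξ j) := by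
          refine Finset.sum_congr rfl fun j _ => Finset.sum_congr rfl fun i _ => ?_
          rw [anti_symm i j]
          ring
      _ = _ := by
          simp only [Finset.sum_neg_distrib]
  linarith

theorem quad_single (B : Matrix (Fin d) (Fin d) ℝ) (i j : Fin d) :
    ∑ k, ∑ l, B k l * (eb j : Sp d) l * (eb i : Sp d) k = B i j := by
  rw [Finset.sum_eq_single i]
  · rw [Finset.sum_eq_single j]
    · rw [eb_apply, eb_apply]; simp
    · intro b _ hb
      rw [eb_apply, if_neg hb]; simp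
    · simp
  · intro b _ hb
    refine Finset.sum_eq_zero fun l _ => ?_
    rw [eb_apply i b, if_neg hb, mul_zero]
  · simp

theorem Adm.diag (h : Adm Λ γ L A) (hΛ : 0 < Λ) (i : Fin d) : 0 ≤ A 0 0 i i ∧ A 0 0 i i ≤ Λ⁻¹ := by
  have h1 := h.ell 0 0 (eb i)
  have h2 := h.bdd 0 0 (eb i)
  rw [quad_single] at h1 h2
  rw [norm_eb] at h1 h2
  constructor
  · linarith
  · linarith

theorem Adm.symm_le (h : Adm Λ γ L A) (hΛ : 0 < Λ) (i j : Fin d) :
    |A 0 0 i j + A 0 0 j i| ≤ 4 * Λ⁻¹ := by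
  have hΛ' : 0 < Λ⁻¹ := inv_pos.2 hΛ
  have hi := h.diag hΛ i
  have hj := h.diag hΛ j
  have h1 := h.ell 0 0 (eb i + eb j)
  have h2 := h.bdd 0 0 (eb i + eb j)
  have e : ∑ k, ∑ l, A 0 0 k l * (eb i + eb j : Sp d) l * (eb i + eb j : Sp d) k =
      A 0 0 i i + A 0 0 i j + A 0 0 j i + A 0 0 j j := by
    rw [← quad_single (A 0 0) i i, ← quad_single (A 0 0) i j, ← quad_single (A 0 0) j i,
      ← quad_single (A 0 0) j j, ← Finset.sum_add_distrib, ← Finset.sum_add_distrib,
      ← Finset.sum_add_distrib]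
    refine Finset.sum_congr rfl fun k _ => ?_
    rw [← Finset.sum_add_distrib, ← Finset.sum_add_distrib, ← Finset.sum_add_distrib]
    refine Finset.sum_congr rfl fun l _ => ?_
    rw [PiLp.add_apply, PiLp.add_apply]
    ring
  rw [e] at h1 h2
  have hn : ‖(eb i + eb j : Sp d)‖ ^ 2 ≤ 4 := by
    have h3 : ‖(eb i + eb j : Sp d)‖ ≤ 2 := by
      refine (norm_add_le _ _).trans ?_
      rw [norm_eb, norm_eb]
      norm_num
    nlinarith [norm_nonneg (eb i + eb j : Sp d)]
  have h4 : 0 ≤ Λ * ‖(eb i + eb j : Sp d)‖ ^ 2 := by positivity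
  have h5 : Λ⁻¹ * ‖(eb i + eb j : Sp d)‖ ^ 2 ≤ Λ⁻¹ * 4 := by gcongr
  rw [abs_le]
  constructor
  · linarith
  · linarith

/-- entries are bounded up to the constant antisymmetric part -/
theorem Adm.entry (h : Adm Λ γ L A) (hΛ : 0 < Λ) (hL : 0 ≤ L) (hγ : 0 < γ) (x : Sp d)
    (y : Fin n → Sp d) (i j : Fin d) :
    |A (cl x) y i j - anti A i j| ≤ L * (d + n * d) ^ γ + 2 * Λ⁻¹ := by
  set z : Fin n → Fin d → ℤ := fun k i => -⌊y k i⌋ with hz
  set y' : Fin n → Sp d := fun k => y k + WithLp.toLp 2 (fun i => (z k i : ℝ)) with hy'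
  have h1 : A (cl x) y' = A (cl x) y := h.per (cl x) y z
  rw [← h1]
  have h2 := h.hol (cl x) y' 0 0 i j
  have h3 : ‖cl x - 0‖ + ∑ k, ‖y' k - (0 : Fin n → Sp d) k‖ ≤ d + n * d := by
    rw [sub_zero]
    refine add_le_add (norm_cl x) ?_
    calc ∑ k, ‖y' k - (0 : Fin n → Sp d) k‖ ≤ ∑ k : Fin n, (d : ℝ) := by
          refine Finset.sum_le_sum fun k _ => ?_
          rw [Pi.zero_apply, sub_zero]
          refine norm_le_of_apply fun i => ?_
          have e : y' k i = Int.fract (y k i) := by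
            simp only [hy', PiLp.add_apply, hz]
            push_cast
            rw [← sub_eq_add_neg]
            rfl
          rw [e, abs_of_nonneg (Int.fract_nonneg _)]
          exact (Int.fract_lt_one _).le
      _ = n * d := by simp
  have h4 : L * (‖cl x - 0‖ + ∑ k, ‖y' k - (0 : Fin n → Sp d) k‖) ^ γ ≤ L * (d + n * d) ^ γ := by
    gcongr
  have h5 := h.symm_le hΛ i j
  have e : A (cl x) y' i j - anti A i j = (A (cl x) y' i j - A 0 0 i j) +
      (A 0 0 i j + A 0 0 j i) / 2 := by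
    unfold anti
    ring
  rw [e]
  refine (abs_add_le _ _).trans ?_
  have h6 : |(A 0 0 i j + A 0 0 j i) / 2| ≤ 2 * Λ⁻¹ := by
    rw [abs_div, abs_of_pos (show (0:ℝ) < 2 by norm_num)]
    linarith
  linarith

/-- the modified coefficients -/
noncomputable def coe (A : Sp d → (Fin n → Sp d) → Matrix (Fin d) (Fin d) ℝ) (ω : Fin n → ℝ)
    (x : Sp d) : Sp d →L[ℝ] Sp d := tc (A (cl x) (fun k => ω k • x) - anti A)

theorem Adm.coe_sub (h : Adm Λ γ L A) (hL : 0 ≤ L) {x x' : Sp d} {y y' : Fin n → Sp d} {ρ : ℝ}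
    (hγ : 0 < γ) (hρ : ‖x - x'‖ + ∑ k, ‖y k - y' k‖ ≤ ρ) :
    ‖tc (A x y - anti A) - tc (A x' y' - anti A)‖ ≤ d * d * L * ρ ^ γ := by
  have hρ0 : 0 ≤ ρ := le_trans (by positivity) hρ
  rw [← tc_sub, sub_sub_sub_cancel_right]
  have h1 := norm_tc_le (B := A x y - A x' y') (m := L * ρ ^ γ) (by positivity) (fun i j => by
    rw [Matrix.sub_apply]
    refine (h.hol x y x' y' i j).trans ?_
    gcongr)
  refine h1.trans (le_of_eq ?_)
  ring

theorem Adm.coef (h : Adm Λ γ L A) (hΛ : 0 < Λ) (hL : 0 ≤ L) (hγ : 0 < γ) (ω : Fin n → ℝ) :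
    Coef Λ (d * d * (L * (d + n * d) ^ γ + 2 * Λ⁻¹)) (coe A ω) := by
  have hΛ' : 0 < Λ⁻¹ := inv_pos.2 hΛ
  refine ⟨?_, fun x => ?_, fun x ξ => ?_⟩
  · rw [continuous_iff_continuousAt]
    intro x0
    unfold ContinuousAt
    rw [tendsto_iff_norm_sub_tendsto_zero]
    have hlim : Tendsto (fun x : Sp d => d * d * L * (‖x - x0‖ + ∑ k, ‖ω k • x - ω k • x0‖) ^ γ)
        (𝓝 x0) (𝓝 0) := by
      have hc : Continuous (fun x : Sp d => d * d * L *
          (‖x - x0‖ + ∑ k, ‖ω k • x - ω k • x0‖) ^ γ) := by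
        refine continuous_const.mul (Continuous.rpow_const ?_ fun x => Or.inr hγ.le)
        fun_prop
      have := hc.tendsto x0
      simpa [Real.zero_rpow hγ.ne'] using this
    refine squeeze_zero (fun x => norm_nonneg _) (fun x => ?_) hlim
    refine h.coe_sub hL hγ ?_
    have := cl_lip x x0
    gcongr
  · exact norm_tc_le (by positivity) fun i j => by
      rw [Matrix.sub_apply]
      exact h.entry hΛ hL hγ x _ i j
  · unfold coe
    rw [inner_tc]
    have e : ∑ i, ∑ j, (A (cl x) (fun k => ω k • x) - anti A) i j * ξ j * ξ i =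
        (∑ i, ∑ j, A (cl x) (fun k => ω k • x) i j * ξ j * ξ i) -
        ∑ i, ∑ j, anti A i j * ξ j * ξ i := by
      rw [← Finset.sum_sub_distrib]
      refine Finset.sum_congr rfl fun i _ => ?_
      rw [← Finset.sum_sub_distrib]
      refine Finset.sum_congr rfl fun j _ => ?_
      rw [Matrix.sub_apply]
      ring
    rw [e, anti_quad, sub_zero]
    exact h.ell _ _ _

theorem Adm.perC (h : Adm Λ γ L A) (hL : 0 ≤ L) (hγ : 0 < γ) (ω : Fin n → ℝ) :
    PerC (coe A ω) ω (d * d * L) γ := by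
  intro t κ ht hκ hap b x
  unfold coe
  set z : Fin n → Fin d → ℤ := fun k i => if i = b then - round (t * ω k) else 0 with hz
  have h1 := h.per (cl (x + t • eb b)) (fun k => ω k • (x + t • eb b)) z
  rw [← h1]
  refine h.coe_sub hL hγ (add_le_add ?_ ?_)
  · refine (cl_lip _ _).trans ?_
    rw [add_sub_cancel_left, norm_smul, norm_eb, Real.norm_of_nonneg ht, mul_one]
  · calc ∑ k, ‖ω k • (x + t • eb b) + WithLp.toLp 2 (fun i => (z k i : ℝ)) - ω k • x‖
        ≤ ∑ k : Fin n, κ := by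
          refine Finset.sum_le_sum fun k _ => ?_
          have e : ω k • (x + t • eb b) + WithLp.toLp 2 (fun i => (z k i : ℝ)) - ω k • x =
              (t * ω k - round (t * ω k)) • (eb b : Sp d) := by
            ext i
            simp only [PiLp.add_apply, PiLp.sub_apply, PiLp.smul_apply, smul_eq_mul, eb_apply, hz]
            split_ifs
            · push_cast; ring
            · push_cast; ring
          rw [e, norm_smul, norm_eb, mul_one]
          exact hap k
      _ = n * κ := by simp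

theorem Cc.deriv {U : Set (Sp d)} {φ : Sp d → ℝ} (hφ : Cc U φ) (v : Sp d) :
    Cc U (fun x => fderiv ℝ φ x v) := by
  refine ⟨?_, hφ.comp_fderiv_apply v, ?_⟩
  · have h1 : ContDiff ℝ (⊤ : ℕ∞) (fderiv ℝ φ) := hφ.smooth.fderiv_right le_rfl
    exact h1.clm_apply contDiff_const
  · refine (closure_mono ?_).trans ((tsupport_fderiv_subset ℝ (f := φ)).trans hφ.sub)
    intro x hx
    rw [Function.mem_support] at hx ⊢
    intro h0
    rw [h0] at hx
    simp at hx

theorem snd_symm {U : Set (Sp d)} {φ : Sp d → ℝ} (hφ : Cc U φ) (v w x : Sp d) :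
    fderiv ℝ (fun x => fderiv ℝ φ x v) x w = fderiv ℝ (fun x => fderiv ℝ φ x w) x v := by
  have h0 : ContDiff ℝ (⊤ : ℕ∞) (fderiv ℝ φ) := hφ.smooth.fderiv_right le_rfl
  have h1 : Differentiable ℝ (fderiv ℝ φ) := h0.differentiable (by simp)
  have e : ∀ v w : Sp d, fderiv ℝ (fun x => fderiv ℝ φ x v) x w =
      fderiv ℝ (fderiv ℝ φ) x w v := by
    intro v w
    have := (h1 x).hasFDerivAt.clm_apply (hasFDerivAt_const v x)
    rw [this.fderiv]
    simp
  rw [e, e]
  have h2 : ContDiffAt ℝ (⊤ : ℕ∞) φ x := hφ.smooth.contDiffAt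
  exact (h2.isSymmSndFDerivAt (by
    rw [minSmoothness_of_isRCLikeNormedField]
    norm_cast)) w v

theorem fderiv_eq_sum (φ : Sp d → ℝ) (x v : Sp d) :
    fderiv ℝ φ x v = ∑ i, v i * fderiv ℝ φ x (eb i) := by
  have e : v = ∑ i, v i • (eb i : Sp d) := by
    ext j
    rw [WithLp.ofLp_sum, Finset.sum_apply, Finset.sum_eq_single j]
    · rw [PiLp.smul_apply, eb_apply, if_pos rfl, smul_eq_mul, mul_one]
    · intro b _ hb
      rw [PiLp.smul_apply, eb_apply, if_neg (Ne.symm hb), smul_eq_mul, mul_zero]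
    · simp
  conv_lhs => rw [e]
  rw [map_sum]
  refine Finset.sum_congr rfl fun i _ => ?_
  rw [map_smul, smul_eq_mul]

/-- constant antisymmetric coefficients do not matter -/
theorem anti_zero {U : Set (Sp d)} {u : Sp d → ℝ} {g : Sp d → Sp d} (hu : WG U u g)
    {φ : Sp d → ℝ} (hφ : Cc U φ) : ∫ x, fderiv ℝ φ x (tc (anti A) (g x)) = 0 := by
  have hint : ∀ i j : Fin d, Integrable (fun x => fderiv ℝ φ x (eb i) * ⟪g x, eb j⟫) := fun i j =>
    int_mul (hφ.memLp_fderiv_apply _) (memLp_inner_const hu.mg _)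
  have e1 : (fun x => fderiv ℝ φ x (tc (anti A) (g x))) =
      fun x => ∑ i, ∑ j, anti A i j * (fderiv ℝ φ x (eb i) * ⟪g x, eb j⟫) := by
    funext x
    rw [fderiv_eq_sum]
    refine Finset.sum_congr rfl fun i _ => ?_
    rw [tc_apply, Finset.sum_mul]
    refine Finset.sum_congr rfl fun j _ => ?_
    rw [inner_eb]
    ring
  have e2 : ∀ i j : Fin d, ∫ x, fderiv ℝ φ x (eb i) * ⟪g x, eb j⟫ =
      - ∫ x, u x * fderiv ℝ (fun x => fderiv ℝ φ x (eb i)) x (eb j) := by
    intro i j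
    rw [hu.wg _ (hφ.deriv (eb i)) (eb j), neg_neg]
  have e3 : ∀ i j : Fin d, ∫ x, fderiv ℝ φ x (eb i) * ⟪g x, eb j⟫ =
      ∫ x, fderiv ℝ φ x (eb j) * ⟪g x, eb i⟫ := by
    intro i j
    rw [e2, e2]
    congr 2
    funext x
    rw [snd_symm hφ]
  rw [e1, integral_finsetSum _ fun i _ => integrable_finsetSum _ fun j _ =>
    (hint i j).const_mul _]
  have e4 : ∀ i : Fin d, ∫ x, ∑ j, anti A i j * (fderiv ℝ φ x (eb i) * ⟪g x, eb j⟫) =
      ∑ j, anti A i j * ∫ x, fderiv ℝ φ x (eb i) * ⟪g x, eb j⟫ := by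
    intro i
    rw [integral_finsetSum _ fun j _ => (hint i j).const_mul _]
    refine Finset.sum_congr rfl fun j _ => ?_
    rw [integral_const_mul]
  simp only [e4]
  have h : ∑ i, ∑ j, anti A i j * ∫ x, fderiv ℝ φ x (eb i) * ⟪g x, eb j⟫ =
      - ∑ i, ∑ j, anti A i j * ∫ x, fderiv ℝ φ x (eb i) * ⟪g x, eb j⟫ := by
    calc ∑ i, ∑ j, anti A i j * ∫ x, fderiv ℝ φ x (eb i) * ⟪g x, eb j⟫
        = ∑ j, ∑ i, anti A i j * ∫ x, fderiv ℝ φ x (eb i) * ⟪g x, eb j⟫ := Finset.sum_comm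
      _ = ∑ j, ∑ i, - (anti A j i * ∫ x, fderiv ℝ φ x (eb j) * ⟪g x, eb i⟫) := by
          refine Finset.sum_congr rfl fun j _ => Finset.sum_congr rfl fun i _ => ?_
          rw [anti_symm i j, e3 i j]
          ring
      _ = _ := by
          simp only [Finset.sum_neg_distrib]
  linarith

/-- **Reduction**: the uniform Lipschitz estimate for multiscale coefficients. -/
theorem reduction (d n : ℕ) {Λ γ L : ℝ} (hΛ : 0 < Λ) (hγ : 0 < γ) (hγ1 : γ ≤ 1) (hL : 0 ≤ L) :
    ∃ C : ℝ, 0 ≤ C ∧ ∀ A : Sp d → (Fin n → Sp d) → Matrix (Fin d) (Fin d) ℝ, Adm Λ γ L A →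
      ∀ ω : Fin n → ℝ, ∀ (u : Sp d → ℝ) (g : Sp d → Sp d),
      MemLp u 2 (volume.restrict (ball 0 1)) → MemLp g 2 (volume.restrict (ball 0 1)) →
      (∀ φ, Cc (ball 0 1) φ → ∀ i, ∫ x in ball 0 1, u x * fderiv ℝ φ x (eb i) =
        - ∫ x in ball 0 1, φ x * g x i) →
      (∀ φ, Cc (ball 0 1) φ → ∫ x in ball 0 1, ∑ i, ∑ j,
        A x (fun k => ω k • x) i j * g x j * fderiv ℝ φ x (eb i) = 0) →
      ∃ v : Sp d → ℝ, (∀ᵐ x ∂(volume.restrict (ball (0 : Sp d) 1)), v x = u x) ∧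
        ∀ x ∈ ball (0 : Sp d) (1/2), ∀ y ∈ ball (0 : Sp d) (1/2),
          |v x - v y| ≤ C * ‖x - y‖ * Real.sqrt (∫ x in ball 0 1, u x ^ 2) := by
  obtain ⟨C, hC, H⟩ := core (d := d) (n := n) (lam := Λ)
    (M := d * d * (L * (d + n * d) ^ γ + 2 * Λ⁻¹)) hΛ (L := d * d * L) (by positivity) hγ hγ1
  refine ⟨C, hC, ?_⟩
  intro A hA ω u g hu hg hw he
  set u' : Sp d → ℝ := (ball (0 : Sp d) 1).indicator u with hu'
  set g' : Sp d → Sp d := (ball (0 : Sp d) 1).indicator g with hg'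
  have mu' : MemLp u' 2 volume := (memLp_indicator_iff_restrict measurableSet_ball).2 hu
  have mg' : MemLp g' 2 volume := (memLp_indicator_iff_restrict measurableSet_ball).2 hg
  have hout : ∀ φ, Cc (ball (0 : Sp d) 1) φ → ∀ x ∉ ball (0 : Sp d) 1, fderiv ℝ φ x = 0 := by
    intro φ hφ x hx
    by_contra hne
    exact hx (hφ.sub (support_fderiv_subset ℝ hne))
  have hwi : ∀ φ, Cc (ball (0 : Sp d) 1) φ → ∀ i, ∫ x, u' x * fderiv ℝ φ x (eb i) =
      - ∫ x, φ x * g' x i := by
    intro φ hφ i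
    have h1 := hw φ hφ i
    rw [← integral_indicator measurableSet_ball, ← integral_indicator measurableSet_ball] at h1
    have e1 : (fun x => u' x * fderiv ℝ φ x (eb i)) =
        (ball (0 : Sp d) 1).indicator (fun x => u x * fderiv ℝ φ x (eb i)) := by
      funext x
      by_cases hx : x ∈ ball (0 : Sp d) 1
      · rw [indicator_of_mem hx, hu', indicator_of_mem hx]
      · rw [indicator_of_notMem hx, hu', indicator_of_notMem hx, zero_mul]
    have e2 : (fun x => φ x * g' x i) =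
        (ball (0 : Sp d) 1).indicator (fun x => φ x * g x i) := by
      funext x
      by_cases hx : x ∈ ball (0 : Sp d) 1
      · rw [indicator_of_mem hx, hg', indicator_of_mem hx]
      · rw [indicator_of_notMem hx, hg', indicator_of_notMem hx]
        simp
    rw [e1, e2]
    exact h1
  have hWG : WG (ball 0 1) u' g' := by
    refine ⟨mu', mg', fun φ hφ v => ?_⟩
    have hi1 : ∀ i : Fin d, Integrable (fun x => v i * (u' x * fderiv ℝ φ x (eb i))) := fun i =>
      (int_mul mu' (hφ.memLp_fderiv_apply _)).const_mul _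
    have hi2 : ∀ i : Fin d, Integrable (fun x => v i * (φ x * g' x i)) := by
      intro i
      have h1 := (int_mul hφ.memLp (memLp_inner_const mg' (eb i))).const_mul (v i)
      refine h1.congr (ae_of_all _ fun x => ?_)
      simp only [inner_eb]
    have e1 : (fun x => u' x * fderiv ℝ φ x v) =
        fun x => ∑ i, v i * (u' x * fderiv ℝ φ x (eb i)) := by
      funext x
      rw [fderiv_eq_sum, Finset.mul_sum]
      exact Finset.sum_congr rfl fun i _ => by ring
    have e2 : (fun x => φ x * ⟪g' x, v⟫) = fun x => ∑ i, v i * (φ x * g' x i) := by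
      funext x
      rw [PiLp.inner_apply, Finset.mul_sum]
      refine Finset.sum_congr rfl fun i _ => ?_
      simp only [RCLike.inner_apply, conj_trivial]
      ring
    rw [e1, e2, integral_finsetSum _ fun i _ => hi1 i, integral_finsetSum _ fun i _ => hi2 i,
      ← Finset.sum_neg_distrib]
    refine Finset.sum_congr rfl fun i _ => ?_
    rw [integral_const_mul, integral_const_mul, hwi φ hφ i]
    ring
  have hco := hA.coef hΛ hL hγ ω
  have hsol : Sol (coe A ω) (ball 0 1) u' g' (fun _ => 0) := by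
    refine ⟨hWG, MemLp.zero', fun φ hφ => ?_⟩
    have h1 := he φ hφ
    rw [← integral_indicator measurableSet_ball] at h1
    have e1 : ∀ x, fderiv ℝ φ x (coe A ω x (g' x) + 0) =
        (ball (0 : Sp d) 1).indicator (fun x => ∑ i, ∑ j,
          A x (fun k => ω k • x) i j * g x j * fderiv ℝ φ x (eb i)) x -
          fderiv ℝ φ x (tc (anti A) (g' x)) := by
      intro x
      by_cases hx : x ∈ ball (0 : Sp d) 1
      · rw [indicator_of_mem hx, add_zero]
        unfold coe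
        rw [tc_sub, _root_.sub_apply, map_sub, cl_of_mem hx]
        congr 1
        rw [fderiv_eq_sum]
        refine Finset.sum_congr rfl fun i _ => ?_
        rw [tc_apply, Finset.sum_mul, hg', indicator_of_mem hx]
      · rw [indicator_of_notMem hx, hout φ hφ x hx]
        simp
    have i2 : Integrable (fun x => fderiv ℝ φ x (tc (anti A) (g' x))) := by
      have hm : MemLp (fun x => tc (anti A) (g' x)) 2 volume := (tc (anti A)).comp_memLp' mg'
      have h3 := int_clm hφ hm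
      exact h3
    have i1 : Integrable (fun x => fderiv ℝ φ x (coe A ω x (g' x) + 0)) := by
      have hm : MemLp (fun x => coe A ω x (g' x)) 2 volume := memLp_coef hco.cont hco.bdd mg'
      have h3 := int_clm hφ hm
      refine h3.congr (ae_of_all _ fun x => ?_)
      simp
    have e2 : ∫ x, (ball (0 : Sp d) 1).indicator (fun x => ∑ i, ∑ j,
          A x (fun k => ω k • x) i j * g x j * fderiv ℝ φ x (eb i)) x =
        (∫ x, fderiv ℝ φ x (coe A ω x (g' x) + 0)) + ∫ x, fderiv ℝ φ x (tc (anti A) (g' x)) := by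
      rw [← integral_add i1 i2]
      congr 1
      funext x
      rw [e1]
      ring
    rw [e2, anti_zero hWG hφ, add_zero] at h1
    exact h1
  obtain ⟨v, hv1, hv2⟩ := H (coe A ω) hco ω (hA.perC hL hγ ω) u' g' hsol
  refine ⟨v, ?_, ?_⟩
  · rw [ae_restrict_iff' measurableSet_ball]
    filter_upwards [hv1] with x hx hxb
    rw [hx, hu', indicator_of_mem hxb]
  · intro x hx y hy
    refine (hv2 x hx y hy).trans (le_of_eq ?_)
    congr 1
    have h1 : nr (ball (0 : Sp d) 1) u' = nr (ball (0 : Sp d) 1) u :=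
      nr_congr measurableSet_ball fun x hx => by rw [hu', indicator_of_mem hx]
    have h2 : nr (ball (0 : Sp d) 1) u ^ 2 = ∫ x in ball (0 : Sp d) 1, u x ^ 2 := by
      rw [nr_sq hu]
      congr 1
      funext x
      rw [Real.norm_eq_abs, sq_abs]
    rw [h1, ← h2, Real.sqrt_sq (nr_nonneg _ _)]

end Run7.h682
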