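import Pool.Agent.Run7.h682.Unit

/-!
Scaling of the unit scale theorem to balls of arbitrary radius and centre.
-/

set_option autoImplicit false

open MeasureTheory Filter Topology Set Metric
open scoped ENNReal NNReal RealInnerProductSpace ContDiff

namespace Run7.h682

variable {d : ℕ}

/-- affine change of variables -/
def aff (x0 : Sp d) (R : ℝ) (x : Sp d) : Sp d := x0 + R • x

theorem emb_aff (x0 : Sp d) {R : ℝ} (hR : 0 < R) : MeasurableEmbedding (aff x0 R) := by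
  have h : aff x0 R = ((Homeomorph.smulOfNeZero R hR.ne').trans (Homeomorph.addLeft x0) :
      Sp d → Sp d) := by
    funext x
    simp [aff]
  rw [h]
  exact (((Homeomorph.smulOfNeZero R hR.ne').trans (Homeomorph.addLeft x0)) :
    Sp d ≃ₜ Sp d).measurableEmbedding

theorem map_aff (x0 : Sp d) {R : ℝ} (hR : 0 < R) :
    Measure.map (aff x0 R) (volume : Measure (Sp d)) = ENNReal.ofReal ((R ^ d)⁻¹) • volume := by
  have h : aff x0 R = (fun x => x0 + x) ∘ (fun x : Sp d => R • x) := by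
    funext x; simp [aff]
  have hm : Measurable (fun x : Sp d => R • x) := by fun_prop
  rw [h, ← Measure.map_map (by fun_prop) hm, Measure.map_addHaar_smul _ hR.ne', Measure.map_smul,
    map_add_left_eq_self]
  congr 2
  rw [abs_of_pos (by positivity)]
  simp

theorem memLp_aff {F : Type*} [NormedAddCommGroup F] {x0 : Sp d} {R : ℝ} (hR : 0 < R)
    {f : Sp d → F} (hf : MemLp f 2 volume) : MemLp (fun x => f (aff x0 R x)) 2 volume := by
  have h1 : MemLp f 2 (Measure.map (aff x0 R) volume) := by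
    rw [map_aff x0 hR]
    exact hf.smul_measure ENNReal.ofReal_ne_top
  exact ((emb_aff x0 hR).memLp_map_measure_iff).1 h1

theorem integral_aff {F : Type*} [NormedAddCommGroup F] [NormedSpace ℝ F] (x0 : Sp d) {R : ℝ}
    (hR : 0 < R) (f : Sp d → F) : ∫ x, f (aff x0 R x) = (R ^ d)⁻¹ • ∫ x, f x := by
  have h1 := (emb_aff x0 hR).integral_map (μ := volume) f
  rw [← h1, map_aff x0 hR, integral_smul_measure, ENNReal.toReal_ofReal (by positivity)]

theorem nr_aff {F : Type*} [NormedAddCommGroup F] (x0 : Sp d) {R : ℝ} (hR : 0 < R) (r : ℝ)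
    (f : Sp d → F) : nr (ball 0 r) (fun x => f (aff x0 R x)) =
      Real.sqrt ((R ^ d)⁻¹) * nr (ball x0 (R * r)) f := by
  have hpre : aff x0 R ⁻¹' (ball x0 (R * r)) = ball 0 r := by
    ext x
    rw [mem_preimage, mem_ball_iff_norm, mem_ball_zero_iff]
    unfold aff
    rw [add_sub_cancel_left, norm_smul, Real.norm_of_nonneg hR.le]
    exact mul_lt_mul_iff_right₀ hR
  have he := emb_aff x0 hR
  have h1 : Measure.map (aff x0 R) (volume.restrict (ball 0 r)) =
      ENNReal.ofReal ((R ^ d)⁻¹) • volume.restrict (ball x0 (R * r)) := by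
    rw [← hpre, ← he.restrict_map, map_aff x0 hR, Measure.restrict_smul]
  unfold nr
  have h2 : eLpNorm (fun x => f (aff x0 R x)) 2 (volume.restrict (ball 0 r)) =
      eLpNorm f 2 (Measure.map (aff x0 R) (volume.restrict (ball 0 r))) :=
    (he.eLpNorm_map_measure).symm
  rw [h2, h1, eLpNorm_smul_measure_of_ne_top (by norm_num), smul_eq_mul, ENNReal.toReal_mul]
  congr 1
  rw [ENNReal.ofReal_rpow_of_nonneg (by positivity) (by simp), ENNReal.toReal_ofReal (by positivity),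
    Real.sqrt_eq_rpow]
  congr 1
  simp

theorem aff_inv {x0 : Sp d} {R : ℝ} (hR : 0 < R) (x : Sp d) :
    R⁻¹ • (aff x0 R x - x0) = x := by
  unfold aff
  rw [add_sub_cancel_left, smul_smul, inv_mul_cancel₀ hR.ne', one_smul]

theorem Cc.unscale {x0 : Sp d} {R : ℝ} (hR : 0 < R) {φ : Sp d → ℝ} (hφ : Cc (ball 0 1) φ) :
    Cc (ball x0 R) (fun y => φ (R⁻¹ • (y - x0))) := by
  have hR' : R⁻¹ ≠ 0 := inv_ne_zero hR.ne'
  have hc : Continuous (fun y : Sp d => R⁻¹ • (y - x0)) := by fun_prop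
  have hsub : tsupport (fun y => φ (R⁻¹ • (y - x0))) ⊆ (fun y => R⁻¹ • (y - x0)) ⁻¹' (tsupport φ) :=
    tsupport_comp_subset_preimage φ hc
  refine ⟨hφ.smooth.comp ((contDiff_id.sub contDiff_const).const_smul R⁻¹), ?_,
    hsub.trans fun y hy => ?_⟩
  · have := hφ.comp.comp_homeomorph ((Homeomorph.subRight x0).trans (Homeomorph.smulOfNeZero R⁻¹ hR'))
    exact this
  · have h1 : R⁻¹ • (y - x0) ∈ ball (0 : Sp d) 1 := hφ.sub hy
    rw [mem_ball_zero_iff, norm_smul, Real.norm_of_nonneg (by positivity)] at h1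
    rw [mem_ball_iff_norm]
    have := mul_lt_mul_of_pos_left h1 hR
    rwa [← mul_assoc, mul_inv_cancel₀ hR.ne', one_mul, mul_one] at this

theorem fderiv_unscale {x0 : Sp d} {R : ℝ} {φ : Sp d → ℝ} (hφ : Differentiable ℝ φ)
    (y v : Sp d) : fderiv ℝ (fun y => φ (R⁻¹ • (y - x0))) y v =
      R⁻¹ * fderiv ℝ φ (R⁻¹ • (y - x0)) v := by
  have h1 : HasFDerivAt (fun y : Sp d => R⁻¹ • (y - x0)) (R⁻¹ • ContinuousLinearMap.id ℝ (Sp d)) y :=
    ((hasFDerivAt_id y).sub_const x0).const_smul R⁻¹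
  have h2 := (hφ (R⁻¹ • (y - x0))).hasFDerivAt.comp y h1
  have h3 : fderiv ℝ (fun y => φ (R⁻¹ • (y - x0))) y =
      (fderiv ℝ φ (R⁻¹ • (y - x0))).comp (R⁻¹ • ContinuousLinearMap.id ℝ (Sp d)) := h2.fderiv
  rw [h3]
  simp

theorem WG.scale {x0 : Sp d} {R : ℝ} (hR : 0 < R) {u : Sp d → ℝ} {g : Sp d → Sp d}
    (h : WG (ball x0 R) u g) :
    WG (ball 0 1) (fun x => u (aff x0 R x)) (fun x => R • g (aff x0 R x)) := by
  refine ⟨memLp_aff hR h.mu, (memLp_aff hR h.mg).const_smul R, fun φ hφ v => ?_⟩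
  have h1 := h.wg _ (hφ.unscale (x0 := x0) hR) v
  simp only [fderiv_unscale hφ.differentiable] at h1
  have e1 := integral_aff x0 hR (fun y => u y * (R⁻¹ * fderiv ℝ φ (R⁻¹ • (y - x0)) v))
  have e2 := integral_aff x0 hR (fun y => φ (R⁻¹ • (y - x0)) * ⟪g y, v⟫)
  simp only [aff_inv hR] at e1 e2
  rw [h1, smul_neg, ← e2] at e1
  have e3 : ∫ x, u (aff x0 R x) * fderiv ℝ φ x v =
      R * ∫ x, u (aff x0 R x) * (R⁻¹ * fderiv ℝ φ x v) := by
    rw [← integral_const_mul]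
    congr 1
    funext x
    field_simp
  rw [e3, e1, mul_neg, ← integral_const_mul]
  congr 2
  funext x
  rw [real_inner_smul_left]
  ring

theorem Sol.scale {a : Sp d → Sp d →L[ℝ] Sp d} {x0 : Sp d} {R : ℝ} (hR : 0 < R)
    {u : Sp d → ℝ} {g : Sp d → Sp d} (h : Sol a (ball x0 R) u g (fun _ => 0)) :
    Sol (fun x => a (aff x0 R x)) (ball 0 1) (fun x => u (aff x0 R x))
      (fun x => R • g (aff x0 R x)) (fun _ => 0) := by
  refine ⟨h.toWG.scale hR, MemLp.zero', fun φ hφ => ?_⟩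
  have h1 := h.eq _ (hφ.unscale (x0 := x0) hR)
  simp only [fderiv_unscale hφ.differentiable, add_zero] at h1
  have e1 := integral_aff x0 hR (fun y => R⁻¹ * fderiv ℝ φ (R⁻¹ • (y - x0)) (a y (g y)))
  simp only [aff_inv hR] at e1
  rw [h1, smul_zero] at e1
  have e3 : ∫ x, fderiv ℝ φ x (a (aff x0 R x) (R • g (aff x0 R x)) + 0) =
      (R * R) * ∫ x, R⁻¹ * fderiv ℝ φ x (a (aff x0 R x) (g (aff x0 R x))) := by
    rw [← integral_const_mul]
    congr 1
    funext x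
    rw [add_zero, map_smul, map_smul, smul_eq_mul]
    field_simp
  rw [e3, e1, mul_zero]

theorem Coef.scale {a : Sp d → Sp d →L[ℝ] Sp d} {lam M : ℝ} (ha : Coef lam M a) (x0 : Sp d)
    (R : ℝ) : Coef lam M (fun x => a (aff x0 R x)) := by
  refine ⟨?_, fun x => ha.bdd _, fun x ξ => ha.ell _ ξ⟩
  have h1 := ha.cont
  unfold aff
  fun_prop

theorem int_fderiv_zero {U : Set (Sp d)} {φ : Sp d → ℝ} (hφ : Cc U φ) (v : Sp d) :
    ∫ x, fderiv ℝ φ x v = 0 := by
  have i1 : Integrable (fun x => fderiv ℝ φ x v) :=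
    (hφ.cont_fderiv_apply v).integrable_of_hasCompactSupport (hφ.comp_fderiv_apply v)
  have i2 : Integrable φ := hφ.continuous.integrable_of_hasCompactSupport hφ.comp
  have h := integral_mul_fderiv_eq_neg_fderiv_mul_of_integrable (μ := volume)
    (f := fun _ : Sp d => (1:ℝ)) (g := φ) (v := v) (by simp) (by simpa using i1)
    (by simpa using i2) (fun x _ => differentiableAt_const _) (fun x _ => hφ.differentiable x)
  simpa using h

theorem Sol.sub_const {a : Sp d → Sp d →L[ℝ] Sp d} {x0 : Sp d} {R : ℝ}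
    {u : Sp d → ℝ} {g F : Sp d → Sp d} (h : Sol a (ball x0 R) u g F) (c : ℝ) :
    Sol a (ball x0 R) ((ball x0 R).indicator (fun x => u x - c)) g F := by
  have mI : MemLp ((ball x0 R).indicator (fun x => u x - c)) 2 volume := by
    rw [memLp_indicator_iff_restrict measurableSet_ball]
    exact (memLp_res h.mu).sub (memLp_const_on measure_ball_lt_top.ne _)
  refine ⟨⟨mI, h.mg, fun φ hφ v => ?_⟩, h.mF, h.eq⟩
  rw [← h.wg φ hφ v]
  have i1 := int_mul h.mu (hφ.memLp_fderiv_apply v)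
  have i2 : Integrable (fun x => fderiv ℝ φ x v) :=
    (hφ.cont_fderiv_apply v).integrable_of_hasCompactSupport (hφ.comp_fderiv_apply v)
  have e1 : ∫ x, (ball x0 R).indicator (fun x => u x - c) x * fderiv ℝ φ x v =
      ∫ x, u x * fderiv ℝ φ x v - c * fderiv ℝ φ x v := by
    congr 1
    funext x
    by_cases hx : x ∈ ball x0 R
    · rw [indicator_of_mem hx]
      ring
    · have : fderiv ℝ φ x = 0 := by
        by_contra hne
        exact hx (hφ.sub (support_fderiv_subset ℝ hne))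
      rw [this]
      simp
  rw [e1, integral_sub i1 (i2.const_mul c), integral_const_mul, int_fderiv_zero hφ v]
  simp

/-- unit scale theorem without smallness of `θ` -/
theorem unit_scale {lam M : ℝ} (hlam : 0 < lam) {C0 : ℝ} (hC0 : 0 ≤ C0) :
    ∃ C : ℝ, 0 ≤ C ∧ ∀ a : Sp d → Sp d →L[ℝ] Sp d, Coef lam M a →
      ∀ θ t : ℝ, 0 < θ → θ ≤ 1 → 0 < t → t ≤ 2 * θ ^ 2 →
      (∀ b x, ‖a (x + t • eb b) - a x‖ ≤ C0 * t ^ (d + 1)) →
      ∀ u g, Sol a (ball 0 1) u g (fun _ => 0) →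
        ∃ (c : ℝ) (p : Sp d), nr (ball 0 θ) (fun x => u x - c - ⟪p, x⟫) ≤
          C * (θ ^ 2 * Real.sqrt (θ ^ d)) * nr (ball 0 1) u := by
  obtain ⟨C, θ0, hC, hθ0, H⟩ := unit_small (d := d) (M := M) hlam hC0
  have hs0 : 0 < Real.sqrt (θ0 ^ d) := Real.sqrt_pos.2 (by positivity)
  refine ⟨C + (θ0 ^ 2 * Real.sqrt (θ0 ^ d))⁻¹, by positivity, ?_⟩
  intro a ha θ t hθ hθ1 ht htθ hper u g hu
  have hn := nr_nonneg (ball 0 1) u
  by_cases h : θ ≤ θ0
  · obtain ⟨c, p, hcp⟩ := H a ha θ t hθ h ht htθ hper u g hu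
    refine ⟨c, p, hcp.trans ?_⟩
    gcongr
    have : 0 ≤ (θ0 ^ 2 * Real.sqrt (θ0 ^ d))⁻¹ := by positivity
    linarith
  · push Not at h
    refine ⟨0, 0, ?_⟩
    have e : (fun x => u x - 0 - ⟪(0 : Sp d), x⟫) = u := by
      funext x; simp
    rw [e]
    have h1 : nr (ball 0 θ) u ≤ nr (ball 0 1) u :=
      nr_mono (ball_subset_ball hθ1) (memLp_res hu.mu)
    refine h1.trans ?_
    have h2 : 1 ≤ (θ0 ^ 2 * Real.sqrt (θ0 ^ d))⁻¹ * (θ ^ 2 * Real.sqrt (θ ^ d)) := by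
      rw [inv_mul_eq_div, le_div_iff₀ (by positivity), one_mul]
      gcongr
    have h3 : 1 ≤ (C + (θ0 ^ 2 * Real.sqrt (θ0 ^ d))⁻¹) * (θ ^ 2 * Real.sqrt (θ ^ d)) := by
      have : 0 ≤ C * (θ ^ 2 * Real.sqrt (θ ^ d)) := by positivity
      linarith
    nlinarith

/-- the scaled theorem -/
theorem scaled {lam M : ℝ} (hlam : 0 < lam) {C0 : ℝ} (hC0 : 0 ≤ C0) :
    ∃ C : ℝ, 0 ≤ C ∧ ∀ a : Sp d → Sp d →L[ℝ] Sp d, Coef lam M a →
      ∀ (x0 : Sp d) (R θ t : ℝ), 0 < R → 0 < θ → θ ≤ 1 → 0 < t → t ≤ 2 * θ ^ 2 * R →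
      (∀ b x, ‖a (x + t • eb b) - a x‖ ≤ C0 * (t / R) ^ (d + 1)) →
      ∀ u g, Sol a (ball x0 R) u g (fun _ => 0) → ∀ c0 : ℝ,
        ∃ (c : ℝ) (p : Sp d), nr (ball x0 (R * θ)) (fun x => u x - c - ⟪p, x - x0⟫) ≤
          C * (θ ^ 2 * Real.sqrt (θ ^ d)) * nr (ball x0 R) (fun x => u x - c0) := by
  obtain ⟨C, hC, H⟩ := unit_scale (d := d) (M := M) hlam hC0
  refine ⟨C, hC, ?_⟩
  intro a ha x0 R θ t hR hθ hθ1 ht htθ hper u g hu c0
  have hs := (hu.sub_const c0).scale hR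
  obtain ⟨c, p, h⟩ := H _ (ha.scale x0 R) θ (t / R) hθ hθ1 (by positivity)
    (by rw [div_le_iff₀ hR]; exact htθ) (fun b x => by
      have h1 := hper b (aff x0 R x)
      have h2 : aff x0 R (x + (t / R) • eb b) = aff x0 R x + t • eb b := by
        unfold aff
        rw [smul_add, smul_smul, mul_div_cancel₀ _ hR.ne', add_assoc]
      rw [h2]
      exact h1) _ _ hs
  refine ⟨c0 + c, R⁻¹ • p, ?_⟩
  have hsq : 0 < Real.sqrt ((R ^ d)⁻¹) := Real.sqrt_pos.2 (by positivity)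
  have e1 : nr (ball 0 1) (fun x => (ball x0 R).indicator (fun x => u x - c0) (aff x0 R x)) =
      Real.sqrt ((R ^ d)⁻¹) * nr (ball x0 R) (fun x => u x - c0) := by
    rw [nr_aff x0 hR 1 ((ball x0 R).indicator (fun x => u x - c0)), mul_one]
    congr 1
    refine nr_congr measurableSet_ball fun x hx => ?_
    rw [indicator_of_mem hx]
  have e2 : nr (ball 0 θ) (fun x => (ball x0 R).indicator (fun x => u x - c0) (aff x0 R x) - c -
      ⟪p, x⟫) = Real.sqrt ((R ^ d)⁻¹) *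
      nr (ball x0 (R * θ)) (fun x => u x - (c0 + c) - ⟪R⁻¹ • p, x - x0⟫) := by
    rw [← nr_aff x0 hR θ (fun x => u x - (c0 + c) - ⟪R⁻¹ • p, x - x0⟫)]
    refine nr_congr measurableSet_ball fun x hx => ?_
    have hx' : aff x0 R x ∈ ball x0 R := by
      rw [mem_ball_zero_iff] at hx
      rw [mem_ball_iff_norm]
      unfold aff
      rw [add_sub_cancel_left, norm_smul, Real.norm_of_nonneg hR.le]
      nlinarith
    rw [indicator_of_mem hx']
    have h3 : ⟪R⁻¹ • p, aff x0 R x - x0⟫ = ⟪p, x⟫ := by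
      rw [real_inner_smul_left, ← real_inner_smul_right, aff_inv hR]
    rw [h3]
    ring
  rw [e1, e2] at h
  refine le_of_mul_le_mul_left (h.trans (le_of_eq ?_)) hsq
  ring

end Run7.h682
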