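import Pool.Agent.Run7.h682.Scale

/-!
Weights, volumes of balls, and the size of affine functions on balls.
-/

set_option autoImplicit false

open MeasureTheory Filter Topology Set Metric
open scoped ENNReal NNReal RealInnerProductSpace ContDiff

namespace Run7.h682

variable {d : ℕ}

/-- the weight `r ^ (1 + d / 2)` -/
noncomputable def wt (d : ℕ) (r : ℝ) : ℝ := r * Real.sqrt (r ^ d)

theorem wt_pos {r : ℝ} (hr : 0 < r) : 0 < wt d r :=
  mul_pos hr (Real.sqrt_pos.2 (by positivity))

theorem wt_mul {r s : ℝ} (hr : 0 ≤ r) : wt d (r * s) = wt d r * wt d s := by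
  unfold wt
  rw [mul_pow, Real.sqrt_mul (by positivity)]
  ring

/-- the root of the volume of the unit ball -/
noncomputable def Vb (d : ℕ) : ℝ := Real.sqrt (volume.real (ball (0 : Sp d) 1))

theorem Vb_pos : 0 < Vb d := by
  unfold Vb
  apply Real.sqrt_pos.2
  exact ENNReal.toReal_pos (measure_ball_pos _ _ one_pos).ne' measure_ball_lt_top.ne

theorem real_vol_ball (x : Sp d) {r : ℝ} (hr : 0 < r) :
    volume.real (ball x r) = r ^ d * volume.real (ball (0 : Sp d) 1) := by
  unfold Measure.real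
  rw [vol_ball x hr, ENNReal.toReal_mul, ENNReal.toReal_ofReal (by positivity)]

theorem sqrt_vol_ball (x : Sp d) {r : ℝ} (hr : 0 < r) :
    Real.sqrt (volume.real (ball x r)) = Real.sqrt (r ^ d) * Vb d := by
  rw [real_vol_ball x hr, Real.sqrt_mul (by positivity)]
  rfl

theorem memLp_lin (x0 x1 p : Sp d) (R : ℝ) :
    MemLp (fun x => ⟪p, x - x0⟫) 2 (volume.restrict (ball x1 R)) := by
  have : IsFiniteMeasure (volume.restrict (ball x1 R)) := ⟨by
    rw [Measure.restrict_apply_univ]; exact measure_ball_lt_top⟩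
  have hc : Continuous (fun x : Sp d => ⟪p, x - x0⟫) := by fun_prop
  refine MemLp.of_bound hc.aestronglyMeasurable (‖p‖ * (|R| + ‖x1 - x0‖)) ?_
  refine (ae_restrict_iff' measurableSet_ball).2 (Eventually.of_forall fun x hx => ?_)
  refine (norm_inner_le_norm _ _).trans ?_
  gcongr
  rw [mem_ball_iff_norm] at hx
  have e : x - x0 = (x - x1) + (x1 - x0) := by abel
  rw [e]
  refine (norm_add_le _ _).trans ?_
  have := le_abs_self R
  linarith

theorem memLp_affine (x0 x1 p : Sp d) (R c : ℝ) :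
    MemLp (fun x => c + ⟪p, x - x0⟫) 2 (volume.restrict (ball x1 R)) := by
  have h1 : MemLp (fun _ : Sp d => c) 2 (volume.restrict (ball x1 R)) :=
    memLp_const_on measure_ball_lt_top.ne c
  have h2 : MemLp (fun x => ⟪p, x - x0⟫) 2 (volume.restrict (ball x1 R)) := memLp_lin x0 x1 p R
  exact h1.add h2

theorem slope_upper (x0 p : Sp d) {R : ℝ} (hR : 0 < R) :
    nr (ball x0 R) (fun x => ⟪p, x - x0⟫) ≤ Vb d * ‖p‖ * wt d R := by
  have h := nr_le_mul (f := fun x : Sp d => ⟪p, x - x0⟫) (g := fun _ : Sp d => (1:ℝ))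
    (S := ball x0 R) measurableSet_ball (C := ‖p‖ * R) (by positivity)
    (memLp_const_on measure_ball_lt_top.ne _) ?_
  · rw [nr_const, sqrt_vol_ball x0 hR] at h
    refine h.trans (le_of_eq ?_)
    unfold wt
    simp
    ring
  · intro x hx
    rw [mem_ball_iff_norm] at hx
    refine (norm_inner_le_norm _ _).trans ?_
    simp only [norm_one, mul_one]
    gcongr

theorem slope_lower_aux (x0 p : Sp d) {R : ℝ} (hR : 0 < R) {c : ℝ} (hc : 0 ≤ c) :
    Vb d * ‖p‖ * wt d R ≤ 2 ^ (d + 1) * nr (ball x0 R) (fun x => c + ⟪p, x - x0⟫) := by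
  rcases eq_or_ne p 0 with rfl | hp
  · rw [norm_zero]
    have := nr_nonneg (ball x0 R) (fun x => c + ⟪(0 : Sp d), x - x0⟫)
    have h2 : (0:ℝ) ≤ 2 ^ (d + 1) * nr (ball x0 R) (fun x => c + ⟪(0 : Sp d), x - x0⟫) := by
      positivity
    simpa using h2
  · have hp0 : 0 < ‖p‖ := norm_pos_iff.2 hp
    set x1 : Sp d := x0 + (3 / 4 * R * ‖p‖⁻¹) • p with hx1
    have hn : ‖x1 - x0‖ = 3 / 4 * R := by
      rw [hx1, add_sub_cancel_left, norm_smul, Real.norm_of_nonneg (by positivity), mul_assoc,
        inv_mul_cancel₀ hp0.ne', mul_one]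
    have hsub : ball x1 (R / 4) ⊆ ball x0 R := by
      intro x hx
      rw [mem_ball_iff_norm] at hx ⊢
      have e : x - x0 = (x - x1) + (x1 - x0) := by abel
      rw [e]
      refine (norm_add_le _ _).trans_lt ?_
      rw [hn]
      linarith
    have hm : MemLp (fun x : Sp d => c + ⟪p, x - x0⟫) 2 (volume.restrict (ball x0 R)) :=
      memLp_affine x0 x0 p R c
    have h1 := nr_mono hsub hm
    have h2 := nr_le_mul (f := fun _ : Sp d => ‖p‖ * R / 2) (g := fun x : Sp d => c + ⟪p, x - x0⟫)
      (S := ball x1 (R / 4)) measurableSet_ball (C := 1) zero_le_one (memLp_res_mono hsub hm) ?_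
    · rw [nr_const, sqrt_vol_ball x1 (by positivity), one_mul] at h2
      have e1 : Real.sqrt ((R / 4) ^ d) = Real.sqrt (R ^ d) / 2 ^ d := by
        rw [div_pow, Real.sqrt_div (by positivity)]
        congr 1
        rw [show (4:ℝ) ^ d = (2 ^ d) ^ 2 by rw [← pow_mul, mul_comm, pow_mul]; norm_num]
        exact Real.sqrt_sq (by positivity)
      rw [e1, Real.norm_of_nonneg (by positivity)] at h2
      have h3 := h2.trans h1
      have h4 := mul_le_mul_of_nonneg_left h3 (show (0:ℝ) ≤ 2 ^ (d + 1) by positivity)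
      refine le_trans (le_of_eq ?_) h4
      unfold wt
      rw [pow_succ]
      field_simp
    · intro x hx
      rw [mem_ball_iff_norm] at hx
      rw [one_mul, Real.norm_of_nonneg (by positivity), Real.norm_eq_abs]
      refine le_trans ?_ (le_abs_self _)
      have e : x - x0 = (x - x1) + (x1 - x0) := by abel
      have e2 : ⟪p, x1 - x0⟫ = 3 / 4 * R * ‖p‖ := by
        rw [hx1, add_sub_cancel_left, real_inner_smul_right, real_inner_self_eq_norm_sq]
        field_simp
      have e3 : |⟪p, x - x1⟫| ≤ ‖p‖ * (R / 4) := by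
        refine (abs_real_inner_le_norm _ _).trans ?_
        gcongr
      rw [e, inner_add_right, e2]
      have := (abs_le.1 e3).1
      linarith

theorem slope_lower (x0 p : Sp d) {R : ℝ} (hR : 0 < R) (c : ℝ) :
    Vb d * ‖p‖ * wt d R ≤ 2 ^ (d + 1) * nr (ball x0 R) (fun x => c + ⟪p, x - x0⟫) := by
  rcases le_total 0 c with hc | hc
  · exact slope_lower_aux x0 p hR hc
  · have h := slope_lower_aux x0 (-p) hR (neg_nonneg.2 hc)
    rw [norm_neg] at h
    have e : (fun x => -c + ⟪-p, x - x0⟫) = fun x => -(c + ⟪p, x - x0⟫) := by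
      funext x
      rw [inner_neg_left]
      ring
    rw [e, nr_neg] at h
    exact h

end Run7.h682
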