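import Pool.Agent.Run7.h682.Diff

/-!
Discrete Sobolev inequality for difference quotients.
-/

set_option autoImplicit false

open MeasureTheory Filter Topology Set Metric
open scoped ENNReal NNReal RealInnerProductSpace ContDiff

namespace Run7.h682

variable {d : ℕ}

theorem overlap {S T : Set (Sp d)} (hS : MeasurableSet S) (hT : MeasurableSet T) {G : Sp d → ℝ}
    (hG : Integrable G) (hG0 : ∀ x, 0 ≤ G x) (v : Sp d) (A : Finset ℕ)
    (hST : ∀ j ∈ A, ∀ x ∈ S, x + (j : ℝ) • v ∈ T) {N : ℝ}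
    (hN : ∀ x, ∑ j ∈ A, S.indicator (fun _ => (1:ℝ)) (x - (j : ℝ) • v) ≤ N) :
    ∑ j ∈ A, ∫ x in S, G (x + (j : ℝ) • v) ≤ N * ∫ x in T, G x := by
  have e1 : ∀ w : Sp d, ∫ x in S, G (x + w) = ∫ x, S.indicator (fun _ => (1:ℝ)) (x - w) * G x := by
    intro w
    rw [← integral_indicator hS,
      ← integral_sub_right_eq_self (fun x => S.indicator (fun x => G (x + w)) x) w]
    congr 1
    funext x
    by_cases hx : x - w ∈ S
    · rw [indicator_of_mem hx, indicator_of_mem hx, sub_add_cancel, one_mul]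
    · rw [indicator_of_notMem hx, indicator_of_notMem hx, zero_mul]
  have hi : ∀ w : Sp d, Integrable (fun x => S.indicator (fun _ => (1:ℝ)) (x - w) * G x) := by
    intro w
    have h1 : MeasurableSet ((fun x : Sp d => x - w) ⁻¹' S) := hS.preimage (by fun_prop)
    refine (hG.indicator h1).congr (ae_of_all _ fun x => ?_)
    show ((fun x : Sp d => x - w) ⁻¹' S).indicator G x = S.indicator (fun _ => (1:ℝ)) (x - w) * G x
    by_cases hx : x - w ∈ S
    · rw [indicator_of_mem hx, indicator_of_mem (show x ∈ (fun x : Sp d => x - w) ⁻¹' S from hx),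
        one_mul]
    · rw [indicator_of_notMem hx,
        indicator_of_notMem (show x ∉ (fun x : Sp d => x - w) ⁻¹' S from hx), zero_mul]
  simp only [e1]
  rw [← integral_finsetSum _ fun j _ => hi _, ← integral_const_mul, ← integral_indicator hT]
  refine integral_mono (integrable_finsetSum _ fun j _ => hi _)
    ((hG.const_mul N).indicator hT) fun x => ?_
  show ∑ j ∈ A, S.indicator (fun _ => (1:ℝ)) (x - (j:ℝ) • v) * G x ≤
    T.indicator (fun x => N * G x) x
  rw [← Finset.sum_mul]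
  by_cases hx : x ∈ T
  · rw [indicator_of_mem hx]
    exact mul_le_mul_of_nonneg_right (hN x) (hG0 x)
  · rw [indicator_of_notMem hx]
    have : ∑ j ∈ A, S.indicator (fun _ => (1:ℝ)) (x - (j:ℝ) • v) = 0 := by
      refine Finset.sum_eq_zero fun j hj => ?_
      refine indicator_of_notMem (fun hm => hx ?_) _
      have := hST j hj _ hm
      rwa [sub_add_cancel] at this
    rw [this, zero_mul]

theorem smul_Dq {F : Type*} [AddCommGroup F] [Module ℝ F] {t : ℝ} (ht : 0 < t) (b : Fin d)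
    (f : Sp d → F) (x : Sp d) : t • Dq t b f x = f (x + t • eb b) - f x := by
  unfold Dq
  rw [smul_smul, mul_inv_cancel₀ ht.ne', one_smul]

theorem slab {F : Type*} [NormedAddCommGroup F] [NormedSpace ℝ F] {f : Sp d → F}
    (hf : MemLp f 2 volume) {t : ℝ} (ht : 0 < t) (b : Fin d) {S T : Set (Sp d)}
    (hS : MeasurableSet S) (hT : MeasurableSet T) (J : ℕ)
    (hST : ∀ j ≤ J, ∀ x ∈ S, x + (j : ℝ) • (t • eb b) ∈ T) {N : ℝ}
    (hN : ∀ x, ∑ j ∈ Finset.range (J + 1),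
      S.indicator (fun _ => (1:ℝ)) (x - (j : ℝ) • (t • eb b)) ≤ N) :
    (J + 1) * ∫ x in S, ‖f x‖ ^ 2 ≤ 2 * (N * ∫ x in T, ‖f x‖ ^ 2) +
      2 * (J + 1) * J * t ^ 2 * (N * ∫ x in T, ‖Dq t b f x‖ ^ 2) := by
  set v : Sp d := t • eb b with hv
  have mD : MemLp (Dq t b f) 2 volume := ((memLp_translate hf v).sub hf).const_smul t⁻¹
  have if2 : Integrable (fun x => ‖f x‖ ^ 2) := (memLp_two_iff_integrable_sq_norm hf.1).1 hf
  have iD2 : Integrable (fun x => ‖Dq t b f x‖ ^ 2) :=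
    (memLp_two_iff_integrable_sq_norm mD.1).1 mD
  have ift : ∀ w : Sp d, Integrable (fun x => ‖f (x + w)‖ ^ 2) := fun w =>
    (memLp_two_iff_integrable_sq_norm (memLp_translate hf w).1).1 (memLp_translate hf w)
  have iDt : ∀ w : Sp d, Integrable (fun x => ‖Dq t b f (x + w)‖ ^ 2) := fun w =>
    (memLp_two_iff_integrable_sq_norm (memLp_translate mD w).1).1 (memLp_translate mD w)
  -- pointwise inequality
  have hpt : ∀ x, ∀ j ≤ J, ‖f x‖ ^ 2 ≤ 2 * ‖f (x + (j:ℝ) • v)‖ ^ 2 +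
      2 * J * t ^ 2 * ∑ i ∈ Finset.range (J + 1), ‖Dq t b f (x + (i:ℝ) • v)‖ ^ 2 := by
    intro x j hj
    have h1 : f (x + (j:ℝ) • v) - f x = ∑ i ∈ Finset.range j, t • Dq t b f (x + (i:ℝ) • v) := by
      have h2 := Finset.sum_range_sub (fun i : ℕ => f (x + (i:ℝ) • v)) j
      simp only [Nat.cast_zero, zero_smul, add_zero] at h2
      rw [← h2]
      refine Finset.sum_congr rfl fun i _ => ?_
      rw [smul_Dq ht, ← hv, add_assoc]
      congr 3
      push_cast
      rw [add_smul, one_smul]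
    have h3 : ‖f (x + (j:ℝ) • v) - f x‖ ^ 2 ≤
        J * t ^ 2 * ∑ i ∈ Finset.range (J + 1), ‖Dq t b f (x + (i:ℝ) • v)‖ ^ 2 := by
      rw [h1]
      calc ‖∑ i ∈ Finset.range j, t • Dq t b f (x + (i:ℝ) • v)‖ ^ 2
          ≤ (∑ i ∈ Finset.range j, ‖t • Dq t b f (x + (i:ℝ) • v)‖) ^ 2 := by
            gcongr
            exact norm_sum_le _ _
        _ ≤ (Finset.range j).card * ∑ i ∈ Finset.range j, ‖t • Dq t b f (x + (i:ℝ) • v)‖ ^ 2 :=
            sq_sum_le_card_mul_sum_sq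
        _ = j * (t ^ 2 * ∑ i ∈ Finset.range j, ‖Dq t b f (x + (i:ℝ) • v)‖ ^ 2) := by
            have e : ∀ y, ‖t • Dq t b f y‖ ^ 2 = t ^ 2 * ‖Dq t b f y‖ ^ 2 := fun y => by
              rw [norm_smul, mul_pow, Real.norm_eq_abs, sq_abs]
            simp only [e]
            rw [Finset.card_range, ← Finset.mul_sum]
        _ ≤ J * (t ^ 2 * ∑ i ∈ Finset.range (J + 1), ‖Dq t b f (x + (i:ℝ) • v)‖ ^ 2) := by
            have hj' : (j:ℝ) ≤ J := by exact_mod_cast hj
            have hsum : ∑ i ∈ Finset.range j, ‖Dq t b f (x + (i:ℝ) • v)‖ ^ 2 ≤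
                ∑ i ∈ Finset.range (J + 1), ‖Dq t b f (x + (i:ℝ) • v)‖ ^ 2 :=
              Finset.sum_le_sum_of_subset_of_nonneg
                (Finset.range_subset_range.2 (by omega)) fun _ _ _ => by positivity
            gcongr
        _ = _ := by ring
    have h4 : ‖f x‖ ≤ ‖f (x + (j:ℝ) • v)‖ + ‖f (x + (j:ℝ) • v) - f x‖ := by
      have := norm_sub_le (f (x + (j:ℝ) • v)) (f (x + (j:ℝ) • v) - f x)
      rwa [sub_sub_cancel] at this
    have h5 : ‖f x‖ ^ 2 ≤ (‖f (x + (j:ℝ) • v)‖ + ‖f (x + (j:ℝ) • v) - f x‖) ^ 2 := by gcongr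
    nlinarith [sq_nonneg (‖f (x + (j:ℝ) • v)‖ - ‖f (x + (j:ℝ) • v) - f x‖)]
  -- sum over `j`
  have hsum : ∀ x, (J + 1) * ‖f x‖ ^ 2 ≤
      2 * (∑ j ∈ Finset.range (J + 1), ‖f (x + (j:ℝ) • v)‖ ^ 2) +
      2 * (J + 1) * J * t ^ 2 * ∑ i ∈ Finset.range (J + 1), ‖Dq t b f (x + (i:ℝ) • v)‖ ^ 2 := by
    intro x
    have h1 : ∑ j ∈ Finset.range (J + 1), ‖f x‖ ^ 2 ≤ ∑ j ∈ Finset.range (J + 1),
        (2 * ‖f (x + (j:ℝ) • v)‖ ^ 2 +
          2 * J * t ^ 2 * ∑ i ∈ Finset.range (J + 1), ‖Dq t b f (x + (i:ℝ) • v)‖ ^ 2) :=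
      Finset.sum_le_sum fun j hj => hpt x j (by rw [Finset.mem_range] at hj; omega)
    rw [Finset.sum_const, Finset.sum_add_distrib, Finset.sum_const, Finset.card_range,
      ← Finset.mul_sum, nsmul_eq_mul, nsmul_eq_mul] at h1
    push_cast at h1
    linarith
  -- integrate
  have i1 : Integrable (fun x => ∑ j ∈ Finset.range (J + 1), ‖f (x + (j:ℝ) • v)‖ ^ 2) :=
    integrable_finsetSum _ fun j _ => ift _
  have i2 : Integrable (fun x => ∑ j ∈ Finset.range (J + 1), ‖Dq t b f (x + (j:ℝ) • v)‖ ^ 2) :=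
    integrable_finsetSum _ fun j _ => iDt _
  have hint : (J + 1) * ∫ x in S, ‖f x‖ ^ 2 ≤
      2 * (∑ j ∈ Finset.range (J + 1), ∫ x in S, ‖f (x + (j:ℝ) • v)‖ ^ 2) +
      2 * (J + 1) * J * t ^ 2 *
        ∑ i ∈ Finset.range (J + 1), ∫ x in S, ‖Dq t b f (x + (i:ℝ) • v)‖ ^ 2 := by
    have h1 := integral_mono (μ := volume.restrict S) (if2.restrict.const_mul ((J:ℝ) + 1))
      ((i1.restrict.const_mul 2).add (i2.restrict.const_mul (2 * ((J:ℝ) + 1) * J * t ^ 2))) hsum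
    simp only [Pi.add_apply] at h1
    rw [integral_const_mul, integral_add (i1.restrict.const_mul 2)
      (i2.restrict.const_mul (2 * ((J:ℝ) + 1) * J * t ^ 2)), integral_const_mul,
      integral_const_mul, integral_finsetSum _ fun j _ => (ift _).restrict,
      integral_finsetSum _ fun j _ => (iDt _).restrict] at h1
    exact h1
  have o1 := overlap hS hT (G := fun x => ‖f x‖ ^ 2) if2 (fun x => by positivity) v
    (Finset.range (J + 1)) (fun j hj => hST j (by rw [Finset.mem_range] at hj; omega)) hN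
  have o2 := overlap hS hT (G := fun x => ‖Dq t b f x‖ ^ 2) iD2 (fun x => by positivity) v
    (Finset.range (J + 1)) (fun j hj => hST j (by rw [Finset.mem_range] at hj; omega)) hN
  refine hint.trans ?_
  gcongr

theorem count_le {y θ t : ℝ} (ht : 0 < t) (hθ : 0 ≤ θ) (J : ℕ) :
    ∑ j ∈ Finset.range J, (if |y - (j:ℝ) * t| ≤ θ then (1:ℝ) else 0) ≤ 2 * θ / t + 1 := by
  rw [← Finset.sum_filter, Finset.sum_const, nsmul_eq_mul, mul_one]
  set A := (Finset.range J).filter (fun j : ℕ => |y - (j:ℝ) * t| ≤ θ) with hA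
  by_cases hne : A.Nonempty
  · have h1 := A.min'_mem hne
    have h2 := A.max'_mem hne
    set p := A.min' hne with hp
    set q := A.max' hne with hq
    have hpq : p ≤ q := A.min'_le _ h2
    have hsub : A ⊆ Finset.Icc p q := fun j hj =>
      Finset.mem_Icc.2 ⟨A.min'_le _ hj, A.le_max' _ hj⟩
    have hcard := Finset.card_le_card hsub
    rw [Nat.card_Icc] at hcard
    have h3 : |y - (p:ℝ) * t| ≤ θ := (Finset.mem_filter.1 h1).2
    have h4 : |y - (q:ℝ) * t| ≤ θ := (Finset.mem_filter.1 h2).2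
    rw [abs_le] at h3 h4
    have h5 : ((q:ℝ) - p) * t ≤ 2 * θ := by linarith [h3.2, h4.1]
    have h6 : (q:ℝ) - p ≤ 2 * θ / t := by rw [le_div_iff₀ ht]; exact h5
    have h7 : (A.card : ℝ) ≤ q + 1 - p := by
      have : (A.card : ℝ) ≤ ((q + 1 - p : ℕ) : ℝ) := by exact_mod_cast hcard
      rwa [Nat.cast_sub (by omega), Nat.cast_add, Nat.cast_one] at this
    linarith
  · rw [Finset.not_nonempty_iff_eq_empty] at hne
    rw [hne]
    simp
    positivity

/-- thin boxes -/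
def Slb (d : ℕ) (θ c : ℝ) (m : ℕ) : Set (Sp d) :=
  {x | ∀ b : Fin d, |x b| ≤ if (b:ℕ) < m then θ else c}

theorem meas_Slb (θ c : ℝ) (m : ℕ) : MeasurableSet (Slb d θ c m) := by
  have : Slb d θ c m = ⋂ b : Fin d, {x : Sp d | |x b| ≤ if (b:ℕ) < m then θ else c} := by
    ext x; simp [Slb]
  rw [this]
  refine MeasurableSet.iInter fun b => ?_
  refine measurableSet_le ?_ measurable_const
  have : Measurable fun x : Sp d => x b := by fun_prop
  exact this.abs

theorem slb_step {F : Type*} [NormedAddCommGroup F] [NormedSpace ℝ F] {f : Sp d → F}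
    (hf : MemLp f 2 volume) {t θ c : ℝ} (ht : 0 < t) (htθ : t ≤ θ) (hθc : θ ≤ c / 2) (hc : c ≤ 1)
    {m : ℕ} (hm : m < d) :
    ∫ x in Slb d θ c (m + 1), ‖f x‖ ^ 2 ≤ 12 / c * θ * ((∫ x in Slb d θ c m, ‖f x‖ ^ 2) +
      ∫ x in Slb d θ c m, ‖Dq t ⟨m, hm⟩ f x‖ ^ 2) := by
  have hθ : 0 < θ := ht.trans_le htθ
  have hc0 : 0 < c := by linarith
  set b : Fin d := ⟨m, hm⟩ with hb
  set J : ℕ := ⌊(c - θ) / t⌋₊ with hJ
  have hJ1 : (J:ℝ) * t ≤ c - θ := by
    have := Nat.floor_le (show 0 ≤ (c - θ) / t by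
      apply div_nonneg _ ht.le; linarith)
    rw [← hJ, le_div_iff₀ ht] at this
    exact this
  have hJ2 : c - θ < ((J:ℝ) + 1) * t := by
    have := Nat.lt_floor_add_one ((c - θ) / t)
    rw [← hJ, div_lt_iff₀ ht] at this
    exact this
  have hco : ∀ (x : Sp d) (j : ℝ) (b' : Fin d), (x + j • (t • eb b)) b' =
      x b' + if b' = b then j * t else 0 := by
    intro x j b'
    simp only [eb, PiLp.add_apply, PiLp.smul_apply, smul_eq_mul, PiLp.single_apply]
    split_ifs <;> ring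
  have hcs : ∀ (x : Sp d) (j : ℝ), (x - j • (t • eb b)) b = x b - j * t := by
    intro x j
    simp only [eb, PiLp.sub_apply, PiLp.smul_apply, smul_eq_mul, PiLp.single_apply, if_true]
    ring
  have h := slab hf ht b (meas_Slb (d := d) θ c (m + 1)) (meas_Slb θ c m) J
    (fun j hj x hx => ?_) (N := 2 * θ / t + 1) (fun x => ?_)
  · have hI1 : 0 ≤ ∫ x in Slb d θ c m, ‖f x‖ ^ 2 := integral_nonneg fun x => by positivity
    have hI2 : 0 ≤ ∫ x in Slb d θ c m, ‖Dq t b f x‖ ^ 2 := integral_nonneg fun x => by positivity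
    set I1 := ∫ x in Slb d θ c m, ‖f x‖ ^ 2
    set I2 := ∫ x in Slb d θ c m, ‖Dq t b f x‖ ^ 2
    set I0 := ∫ x in Slb d θ c (m + 1), ‖f x‖ ^ 2
    have hN : 2 * θ / t + 1 ≤ 3 * θ / t := by
      rw [div_add_one ht.ne']
      gcongr
      linarith
    have hN0 : 0 ≤ 2 * θ / t + 1 := by positivity
    have k1 : ((J:ℝ) + 1) * I0 ≤ ((J:ℝ) + 1) * (12 / c * θ * (I1 + I2)) := by
      refine h.trans ?_
      have q1 : 2 * ((2 * θ / t + 1) * I1) ≤ ((J:ℝ) + 1) * (12 / c * θ * I1) := by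
        have : 2 * (2 * θ / t + 1) ≤ ((J:ℝ) + 1) * (12 / c * θ) := by
          calc 2 * (2 * θ / t + 1) ≤ 2 * (3 * θ / t) := by gcongr
            _ = (c / 2) / t * (12 / c * θ) := by field_simp; ring
            _ ≤ ((J:ℝ) + 1) * (12 / c * θ) := by
                gcongr
                rw [div_le_iff₀ ht]
                linarith
        calc 2 * ((2 * θ / t + 1) * I1) = (2 * (2 * θ / t + 1)) * I1 := by ring
          _ ≤ (((J:ℝ) + 1) * (12 / c * θ)) * I1 := by gcongr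
          _ = _ := by ring
      have q2 : 2 * ((J:ℝ) + 1) * J * t ^ 2 * ((2 * θ / t + 1) * I2) ≤
          ((J:ℝ) + 1) * (12 / c * θ * I2) := by
        have : 2 * J * t ^ 2 * (2 * θ / t + 1) ≤ 12 / c * θ := by
          calc 2 * J * t ^ 2 * (2 * θ / t + 1) ≤ 2 * J * t ^ 2 * (3 * θ / t) := by gcongr
            _ = 6 * (J * t) * θ := by field_simp; ring
            _ ≤ 6 * 1 * θ := by gcongr; linarith
            _ ≤ 12 / c * θ := by
                gcongr
                rw [le_div_iff₀ hc0]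
                linarith
        calc 2 * ((J:ℝ) + 1) * J * t ^ 2 * ((2 * θ / t + 1) * I2)
            = ((J:ℝ) + 1) * ((2 * J * t ^ 2 * (2 * θ / t + 1)) * I2) := by ring
          _ ≤ _ := by gcongr
      linarith
    exact le_of_mul_le_mul_left k1 (by positivity)
  · intro b'
    rw [hco]
    have h1 := hx b'
    by_cases hbb : b' = b
    · rw [if_pos hbb, if_neg (by rw [hbb, hb]; simp)]
      rw [if_pos (by rw [hbb, hb]; simp)] at h1
      have hj' : (j:ℝ) ≤ J := by exact_mod_cast hj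
      have h2 : 0 ≤ (j:ℝ) * t := by positivity
      have h3 : (j:ℝ) * t ≤ J * t := by gcongr
      rw [abs_le] at h1 ⊢
      constructor <;> linarith [h1.1, h1.2]
    · rw [if_neg hbb, add_zero]
      refine h1.trans ?_
      have hne : (b':ℕ) ≠ m := fun h => hbb (Fin.ext h)
      by_cases h3 : (b':ℕ) < m
      · rw [if_pos h3, if_pos (by omega)]
      · rw [if_neg h3, if_neg (by omega)]
  · refine le_trans (Finset.sum_le_sum fun j _ => ?_) (count_le (y := x b) ht hθ.le (J + 1))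
    by_cases hx : x - (j:ℝ) • (t • eb b) ∈ Slb d θ c (m + 1)
    · rw [indicator_of_mem hx]
      have h1 := hx b
      rw [if_pos (by rw [hb]; simp), hcs] at h1
      rw [if_pos h1]
    · rw [indicator_of_notMem hx]
      split_ifs <;> norm_num

theorem Slb_zero_sub {θ : ℝ} {c : ℝ} (hc : 0 ≤ c) (hcd : c * (d + 1) ≤ 1 / 2) (hc' : 0 < c) :
    Slb d θ c 0 ⊆ ball 0 (1 / 2) := by
  intro x hx
  rw [mem_ball_zero_iff, EuclideanSpace.norm_eq]
  have h1 : ∀ b : Fin d, ‖x b‖ ^ 2 ≤ c ^ 2 := by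
    intro b
    have := hx b
    simp only [Nat.not_lt_zero, if_false] at this
    rw [Real.norm_eq_abs]
    exact pow_le_pow_left₀ (abs_nonneg _) this 2
  have h2 : ∑ b : Fin d, ‖x b‖ ^ 2 ≤ d * c ^ 2 := by
    refine (Finset.sum_le_sum fun b _ => h1 b).trans ?_
    simp
  rw [Real.sqrt_lt' (by norm_num)]
  have h3 : (c * (d + 1)) ^ 2 ≤ (1 / 2) ^ 2 := by gcongr
  have hd : (0:ℝ) ≤ d := Nat.cast_nonneg d
  nlinarith [mul_pos hc' hc', mul_nonneg hd (mul_nonneg hc hc), mul_nonneg hd (mul_nonneg hd (mul_nonneg hc hc))]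

/-- discrete Sobolev inequality on the class `Fam` -/
theorem sob {D : ℕ} (hD : 1 ≤ D) {C : ℝ} (hC : 1 ≤ C)
    {a : Sp d → Sp d →L[ℝ] Sp d} {t : ℝ} (ht : 0 < t)
    (hstep : ∀ k, k < D → ∀ K, 0 ≤ K → ∀ w g F, Fam a t K D k w g F → ∀ b,
        Fam a t (C * K) D (k + 1) (Dq t b w) (Dq t b g) (DF a t b g F))
    {θ c : ℝ} (htθ : t ≤ θ) (hθc : θ ≤ c / 2) (hcd : c * (d + 1) ≤ 1 / 2) :
    ∀ m, m ≤ d → ∀ k, k + m ≤ D → ∀ K, 0 ≤ K → ∀ w g F, Fam a t K D k w g F →
      ∫ x in Slb d θ c m, ‖g x‖ ^ 2 ≤ (12 / c * (1 + C ^ 2) * θ) ^ m * K ^ 2 := by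
  have hθ : 0 < θ := ht.trans_le htθ
  have hc0 : 0 < c := by linarith
  have hc1 : c ≤ 1 := by
    have hd : (0:ℝ) ≤ d := Nat.cast_nonneg d
    nlinarith
  intro m
  induction m with
  | zero =>
    intro _ k hk K hK w g F h
    rw [pow_zero, one_mul]
    have h1 : nr (Slb d θ c 0) g ≤ K :=
      (nr_mono ((Slb_zero_sub hc0.le hcd hc0).trans
        (ball_subset_ball (rad_half hD (by omega)))) (memLp_res h.sol.mg)).trans h.hg
    rw [← nr_sq (memLp_res h.sol.mg)]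
    exact pow_le_pow_left₀ (nr_nonneg _ _) h1 2
  | succ m ih =>
    intro hm k hk K hK w g F h
    have h1 := slb_step (f := g) h.sol.mg ht htθ hθc hc1 (m := m) (by omega)
    have h2 := ih (by omega) k (by omega) K hK w g F h
    have h3 := ih (by omega) (k + 1) (by omega) (C * K) (by positivity) _ _ _
      (hstep k (by omega) K hK w g F h ⟨m, by omega⟩)
    refine h1.trans ?_
    calc 12 / c * θ * ((∫ x in Slb d θ c m, ‖g x‖ ^ 2) +
          ∫ x in Slb d θ c m, ‖Dq t ⟨m, by omega⟩ g x‖ ^ 2)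
        ≤ 12 / c * θ * ((12 / c * (1 + C ^ 2) * θ) ^ m * K ^ 2 +
          (12 / c * (1 + C ^ 2) * θ) ^ m * (C * K) ^ 2) := by gcongr
      _ = _ := by ring

end Run7.h682
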