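import Pool.Agent.Run7.h682.Basic

/-!
Weak solutions on open sets (all functions are globally square integrable).
-/

set_option autoImplicit false

open MeasureTheory Filter Topology Set Metric
open scoped ENNReal NNReal RealInnerProductSpace ContDiff

namespace Run7.h682

variable {d : ℕ}

/-- `g` is the weak gradient of `u` on `U` -/
structure WG (U : Set (Sp d)) (u : Sp d → ℝ) (g : Sp d → Sp d) : Prop where
  mu : MemLp u 2 volume
  mg : MemLp g 2 volume
  wg : ∀ φ : Sp d → ℝ, Cc U φ → ∀ v : Sp d,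
    ∫ x, u x * fderiv ℝ φ x v = - ∫ x, φ x * ⟪g x, v⟫

/-- weak solution of `div (a ∇u + F) = 0` on `U`, with `g = ∇u` -/
structure Sol (a : Sp d → Sp d →L[ℝ] Sp d) (U : Set (Sp d)) (u : Sp d → ℝ) (g F : Sp d → Sp d) :
    Prop extends WG U u g where
  mF : MemLp F 2 volume
  eq : ∀ φ : Sp d → ℝ, Cc U φ → ∫ x, fderiv ℝ φ x (a x (g x) + F x) = 0

/-- coefficients: continuous, bounded by `M`, elliptic with constant `lam` -/
structure Coef (lam M : ℝ) (a : Sp d → Sp d →L[ℝ] Sp d) : Prop where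
  cont : Continuous a
  bdd : ∀ x, ‖a x‖ ≤ M
  ell : ∀ x ξ, lam * ‖ξ‖ ^ 2 ≤ ⟪a x ξ, ξ⟫

theorem Cc.mono {U V : Set (Sp d)} (h : U ⊆ V) {φ : Sp d → ℝ} (hφ : Cc U φ) : Cc V φ :=
  ⟨hφ.smooth, hφ.comp, hφ.sub.trans h⟩

theorem Cc.continuous {U : Set (Sp d)} {φ : Sp d → ℝ} (hφ : Cc U φ) : Continuous φ :=
  hφ.smooth.continuous

theorem Cc.differentiable {U : Set (Sp d)} {φ : Sp d → ℝ} (hφ : Cc U φ) : Differentiable ℝ φ :=
  hφ.smooth.differentiable (by simp)

theorem Cc.cont_fderiv {U : Set (Sp d)} {φ : Sp d → ℝ} (hφ : Cc U φ) : Continuous (fderiv ℝ φ) :=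
  hφ.smooth.continuous_fderiv (by simp)

theorem Cc.comp_fderiv {U : Set (Sp d)} {φ : Sp d → ℝ} (hφ : Cc U φ) :
    HasCompactSupport (fderiv ℝ φ) := hφ.comp.fderiv ℝ

theorem Cc.cont_fderiv_apply {U : Set (Sp d)} {φ : Sp d → ℝ} (hφ : Cc U φ) (v : Sp d) :
    Continuous (fun x => fderiv ℝ φ x v) := hφ.cont_fderiv.clm_apply continuous_const

theorem Cc.comp_fderiv_apply {U : Set (Sp d)} {φ : Sp d → ℝ} (hφ : Cc U φ) (v : Sp d) :
    HasCompactSupport (fun x => fderiv ℝ φ x v) :=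
  hφ.comp_fderiv.comp_left (g := fun L : Sp d →L[ℝ] ℝ => L v) rfl

theorem Cc.memLp {U : Set (Sp d)} {φ : Sp d → ℝ} (hφ : Cc U φ) : MemLp φ 2 volume :=
  hφ.continuous.memLp_of_hasCompactSupport hφ.comp

theorem Cc.memLp_fderiv {U : Set (Sp d)} {φ : Sp d → ℝ} (hφ : Cc U φ) :
    MemLp (fderiv ℝ φ) 2 volume :=
  hφ.cont_fderiv.memLp_of_hasCompactSupport hφ.comp_fderiv

theorem Cc.memLp_fderiv_apply {U : Set (Sp d)} {φ : Sp d → ℝ} (hφ : Cc U φ) (v : Sp d) :
    MemLp (fun x => fderiv ℝ φ x v) 2 volume :=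
  (hφ.cont_fderiv_apply v).memLp_of_hasCompactSupport (hφ.comp_fderiv_apply v)

theorem norm_gradient (f : Sp d → ℝ) (x : Sp d) : ‖gradient f x‖ = ‖fderiv ℝ f x‖ := by
  unfold gradient
  exact LinearIsometryEquiv.norm_map _ _

theorem inner_gradient (f : Sp d → ℝ) (x v : Sp d) : ⟪gradient f x, v⟫ = fderiv ℝ f x v := by
  rw [gradient, InnerProductSpace.toDual_symm_apply]

theorem Cc.cont_gradient {U : Set (Sp d)} {φ : Sp d → ℝ} (hφ : Cc U φ) :
    Continuous (gradient φ) := by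
  unfold gradient
  exact (InnerProductSpace.toDual ℝ (Sp d)).symm.continuous.comp hφ.cont_fderiv

theorem Cc.comp_gradient {U : Set (Sp d)} {φ : Sp d → ℝ} (hφ : Cc U φ) :
    HasCompactSupport (gradient φ) := by
  unfold gradient
  exact hφ.comp_fderiv.comp_left (g := fun L => (InnerProductSpace.toDual ℝ (Sp d)).symm L)
    (map_zero _)

theorem Cc.memLp_gradient {U : Set (Sp d)} {φ : Sp d → ℝ} (hφ : Cc U φ) :
    MemLp (gradient φ) 2 volume :=
  hφ.cont_gradient.memLp_of_hasCompactSupport hφ.comp_gradient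

/-- products of square integrable functions -/
theorem int_inner {f g : Sp d → Sp d} (hf : MemLp f 2 volume) (hg : MemLp g 2 volume) :
    Integrable (fun x => ⟪f x, g x⟫) := by
  have h := (hf.norm.integrable_mul hg.norm)
  refine h.mono (hf.1.inner hg.1) (ae_of_all _ fun x => ?_)
  simp only [Pi.mul_apply, norm_mul, norm_norm]
  exact norm_inner_le_norm _ _

theorem int_mul {f g : Sp d → ℝ} (hf : MemLp f 2 volume) (hg : MemLp g 2 volume) :
    Integrable (fun x => f x * g x) := hf.integrable_mul hg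

theorem memLp_inner_const {g : Sp d → Sp d} (hg : MemLp g 2 volume) (v : Sp d) :
    MemLp (fun x => ⟪g x, v⟫) 2 volume := by
  refine hg.of_le_mul (c := ‖v‖) (hg.1.inner aestronglyMeasurable_const) (ae_of_all _ fun x => ?_)
  rw [mul_comm]
  exact norm_inner_le_norm _ _

/-- bounded multiplication -/
theorem memLp_coef {a : Sp d → Sp d →L[ℝ] Sp d} {M : ℝ} (hc : Continuous a)
    (hb : ∀ x, ‖a x‖ ≤ M) {g : Sp d → Sp d} (hg : MemLp g 2 volume) :
    MemLp (fun x => a x (g x)) 2 volume := by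
  refine hg.of_le_mul (c := M) ?_ (ae_of_all _ fun x => ?_)
  · exact (ContinuousLinearMap.id ℝ (Sp d →L[ℝ] Sp d)).aestronglyMeasurable_comp₂
      hc.aestronglyMeasurable hg.1
  · exact (a x).le_of_opNorm_le (hb x) _

/-- bounded scalar multiplication -/
theorem memLp_bdd_smul {F : Type*} [NormedAddCommGroup F] [NormedSpace ℝ F] {χ : Sp d → ℝ}
    {M : ℝ} (hc : Continuous χ) (hb : ∀ x, |χ x| ≤ M) {g : Sp d → F} (hg : MemLp g 2 volume) :
    MemLp (fun x => χ x • g x) 2 volume := by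
  refine hg.of_le_mul (c := M) (hc.aestronglyMeasurable.smul hg.1) (ae_of_all _ fun x => ?_)
  rw [norm_smul]
  exact mul_le_mul_of_nonneg_right (hb x) (norm_nonneg _)

theorem WG.mono {U V : Set (Sp d)} (h : U ⊆ V) {u : Sp d → ℝ} {g : Sp d → Sp d}
    (hu : WG V u g) : WG U u g :=
  ⟨hu.mu, hu.mg, fun φ hφ v => hu.wg φ (hφ.mono h) v⟩

theorem Sol.mono {a : Sp d → Sp d →L[ℝ] Sp d} {U V : Set (Sp d)} (h : U ⊆ V) {u : Sp d → ℝ}
    {g F : Sp d → Sp d} (hu : Sol a V u g F) : Sol a U u g F :=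
  ⟨hu.toWG.mono h, hu.mF, fun φ hφ => hu.eq φ (hφ.mono h)⟩

end Run7.h682
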