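import Pool.Agent.Run7.h682.Affine

/-!
The unit scale theorem: affine approximation at scale `θ` when there is a good approximate
period of size at most `2 θ ^ 2`.
-/

set_option autoImplicit false

open MeasureTheory Filter Topology Set Metric
open scoped ENNReal NNReal RealInnerProductSpace ContDiff

namespace Run7.h682

variable {d : ℕ}

theorem abs_apply_le (x : Sp d) (b : Fin d) : |x b| ≤ ‖x‖ := by
  have := PiLp.norm_apply_le x b
  rwa [Real.norm_eq_abs] at this

theorem norm_le_sum_abs (x : Sp d) : ‖x‖ ≤ ∑ b, |x b| := by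
  have h : x = ∑ b, (x b) • (eb b : Sp d) := by
    ext b'
    simp only [WithLp.ofLp_sum, WithLp.ofLp_smul, Finset.sum_apply, Pi.smul_apply, eb_apply,
      smul_eq_mul]
    rw [Finset.sum_eq_single b']
    · simp
    · intro b _ hb
      rw [if_neg (Ne.symm hb)]
      ring
    · intro h
      exact absurd (Finset.mem_univ b') h
  conv_lhs => rw [h]
  refine (norm_sum_le _ _).trans (Finset.sum_le_sum fun b _ => ?_)
  rw [norm_smul, norm_eb, mul_one, Real.norm_eq_abs]

theorem abs_inner_le_sum (p y : Sp d) : |⟪p, y⟫| ≤ ∑ b, |p b| * |y b| := by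
  have : ⟪p, y⟫ = ∑ b, p b * y b := by
    rw [PiLp.inner_apply]
    refine Finset.sum_congr rfl fun b _ => ?_
    simp [mul_comm]
  rw [this]
  refine (Finset.abs_sum_le_sum_abs _ _).trans (Finset.sum_le_sum fun b _ => ?_)
  rw [abs_mul]

/-- displacement estimate: the core of the argument -/
theorem displ {u : Sp d → ℝ} {g : Sp d → Sp d} {R : ℝ} (hu : WG (ball 0 R) u g) {t : ℝ}
    (ht : 0 < t) {p : Sp d} {θ r1 ε Y : ℝ} (hθ : 0 < θ) (hY : 0 ≤ Y) (hε0 : 0 ≤ ε)
    (hε : ∀ b, nr (ball 0 r1) (fun x => Dq t b u x - p b) ≤ ε)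
    (hg : nr (ball 0 (4 * r1)) g ≤ Y) (hr1 : (5 * d + 2) * θ ≤ r1) (hR : 4 * r1 ≤ R)
    (hdt : d * t ≤ θ) (v : Sp d) (hv0 : ∀ b, 0 ≤ v b) (hv5 : ∀ b, v b ≤ 5 * θ) :
    nr (ball 0 θ) (fun x => u (x + v) - u x - ⟪p, v⟫) ≤
      5 * d * θ * ε + d * t * Y + d * t * (Y + ε) := by
  have hd0 : (0:ℝ) ≤ d := Nat.cast_nonneg d
  have hr1' : 2 * θ ≤ r1 := by nlinarith [mul_nonneg hd0 hθ.le]
  set z : Fin d → ℕ := fun b => ⌊v b / t⌋₊ with hz
  have hz1 : ∀ b, (z b : ℝ) * t ≤ v b := fun b => by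
    have := Nat.floor_le (div_nonneg (hv0 b) ht.le)
    rwa [le_div_iff₀ ht] at this
  have hz2 : ∀ b, v b < (z b : ℝ) * t + t := fun b => by
    have := Nat.lt_floor_add_one (v b / t)
    rw [div_lt_iff₀ ht] at this
    linarith
  set y : Sp d := v - Vz t z with hy
  have hyb : ∀ b, y b = v b - z b * t := fun b => by
    rw [hy]
    show v b - (Vz t z) b = _
    rw [Vz_apply]
  have hyabs : ∀ b, |y b| ≤ t := fun b => by
    rw [hyb, abs_of_nonneg (by linarith [hz1 b])]
    linarith [hz2 b]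
  have hynorm : ‖y‖ ≤ d * t := by
    refine (norm_le_sum_abs y).trans ((Finset.sum_le_sum fun b _ => hyabs b).trans ?_)
    simp
  set n : ℕ := ∑ b, z b with hn
  have hnt : (n:ℝ) * t ≤ 5 * d * θ := by
    rw [hn]
    push_cast
    rw [Finset.sum_mul]
    refine (Finset.sum_le_sum fun b _ => (hz1 b).trans (hv5 b)).trans ?_
    simp
    linarith
  have hpath := path hu.mu ht hε n z hn.symm y (θ := θ) (by
    have : t * n ≤ 5 * d * θ := by linarith
    nlinarith)
  have e1 : (fun x => u (x + v) - u x - ⟪p, v⟫) = fun x =>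
      (u (x + y + Vz t z) - u (x + y) - ⟪p, Vz t z⟫) + ((u (x + y) - u x) - ⟪p, y⟫) := by
    funext x
    have : x + v = x + y + Vz t z := by rw [hy]; abel
    have h2 : v = y + Vz t z := by rw [hy]; abel
    rw [this]
    conv_lhs => rw [h2, inner_add_right]
    ring
  have m1 : MemLp (fun x => u (x + y + Vz t z) - u (x + y) - ⟪p, Vz t z⟫) 2
      (volume.restrict (ball 0 θ)) := by
    refine MemLp.sub ?_ (memLp_const_on measure_ball_lt_top.ne _)
    have h1 := memLp_translate hu.mu (y + Vz t z)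
    have h2 := memLp_translate hu.mu y
    simp only [← add_assoc] at h1
    exact memLp_res (h1.sub h2)
  have m2 : MemLp (fun x => u (x + y) - u x) 2 (volume.restrict (ball 0 θ)) :=
    memLp_res ((memLp_translate hu.mu y).sub hu.mu)
  have m3 : MemLp (fun _ : Sp d => ⟪p, y⟫) 2 (volume.restrict (ball 0 θ)) :=
    memLp_const_on measure_ball_lt_top.ne _
  rw [e1]
  have s0 : nr (ball 0 θ) (fun x => (u (x + y + Vz t z) - u (x + y) - ⟪p, Vz t z⟫) +
      ((u (x + y) - u x) - ⟪p, y⟫)) ≤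
      nr (ball 0 θ) (fun x => u (x + y + Vz t z) - u (x + y) - ⟪p, Vz t z⟫) +
      nr (ball 0 θ) (fun x => (u (x + y) - u x) - ⟪p, y⟫) := nr_add_le m1 (m2.sub m3)
  refine s0.trans ?_
  have s2 : nr (ball 0 θ) (fun x => (u (x + y) - u x) - ⟪p, y⟫) ≤
      nr (ball 0 θ) (fun x => u (x + y) - u x) + nr (ball (0 : Sp d) θ) (fun _ => ⟪p, y⟫) :=
    nr_sub_le m2 m3
  have s3 : nr (ball 0 θ) (fun x => u (x + y) - u x) ≤ d * t * Y := by
    have h1 := hu.translate (r := θ) (y := y) hθ (by linarith)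
    refine h1.trans ?_
    have h2 : nr (ball 0 (θ + ‖y‖)) g ≤ Y :=
      (nr_mono (ball_subset_ball (by linarith)) (memLp_res hu.mg)).trans hg
    exact mul_le_mul hynorm h2 (nr_nonneg _ _) (by positivity)
  have s4 : nr (ball (0 : Sp d) θ) (fun _ => ⟪p, y⟫) ≤ d * t * (Y + ε) := by
    rw [nr_const, Real.norm_eq_abs]
    -- bound for the components of `p`
    have hpb : ∀ b, |p b| * Real.sqrt (volume.real (ball (0 : Sp d) θ)) ≤ Y + ε := by
      intro b
      have mD : MemLp (Dq t b u) 2 volume :=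
        ((memLp_translate hu.mu _).sub hu.mu).const_smul t⁻¹
      have mc : MemLp (fun _ : Sp d => p b) 2 (volume.restrict (ball 0 r1)) :=
        memLp_const_on measure_ball_lt_top.ne _
      have h1 : nr (ball (0 : Sp d) r1) (fun _ => p b) ≤
          nr (ball 0 r1) (Dq t b u) + nr (ball 0 r1) (fun x => Dq t b u x - p b) := by
        have e : (fun _ : Sp d => p b) = fun x => Dq t b u x - (Dq t b u x - p b) := by
          funext x; ring
        conv_lhs => rw [e]
        exact nr_sub_le (memLp_res mD) ((memLp_res mD).sub mc)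
      have h2 : nr (ball 0 r1) (Dq t b u) ≤ Y := by
        have hd1 : t ≤ θ := by
          have h1d : (1:ℝ) ≤ d := by
            have : 0 < d := b.pos
            exact_mod_cast this
          nlinarith
        have hw : WG (ball 0 (4 * r1)) u g := hu.mono (ball_subset_ball hR)
        exact (hw.nr_dq_le ht (by linarith) b (by linarith)).trans hg
      have h3 : |p b| * Real.sqrt (volume.real (ball (0 : Sp d) θ)) ≤
          nr (ball (0 : Sp d) r1) (fun _ => p b) := by
        rw [nr_const, Real.norm_eq_abs]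
        refine mul_le_mul_of_nonneg_left (Real.sqrt_le_sqrt ?_) (abs_nonneg _)
        exact measureReal_mono (ball_subset_ball (by linarith)) measure_ball_lt_top.ne
      linarith [hε b]
    calc |⟪p, y⟫| * Real.sqrt (volume.real (ball (0 : Sp d) θ))
        ≤ (∑ b, |p b| * |y b|) * Real.sqrt (volume.real (ball (0 : Sp d) θ)) := by
          gcongr
          exact abs_inner_le_sum p y
      _ = ∑ b, (|p b| * Real.sqrt (volume.real (ball (0 : Sp d) θ))) * |y b| := by
          rw [Finset.sum_mul]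
          refine Finset.sum_congr rfl fun b _ => ?_
          ring
      _ ≤ ∑ _b : Fin d, (Y + ε) * t := by
          refine Finset.sum_le_sum fun b _ => ?_
          exact mul_le_mul (hpb b) (hyabs b) (abs_nonneg _) (by positivity)
      _ = d * t * (Y + ε) := by
          simp
          ring
  have s1 : (n:ℝ) * (t * ε) ≤ 5 * d * θ * ε := by
    have := mul_le_mul_of_nonneg_right hnt hε0
    linarith
  linarith

theorem ball_sub_Slb {θ c : ℝ} : ball (0 : Sp d) θ ⊆ Slb d θ c d := by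
  intro x hx b
  rw [if_pos b.2]
  rw [mem_ball_zero_iff] at hx
  exact (abs_apply_le x b).trans hx.le

theorem unit_small {lam M : ℝ} (hlam : 0 < lam) {C0 : ℝ} (hC0 : 0 ≤ C0) :
    ∃ C θ0 : ℝ, 0 ≤ C ∧ 0 < θ0 ∧ ∀ a : Sp d → Sp d →L[ℝ] Sp d, Coef lam M a →
      ∀ θ t : ℝ, 0 < θ → θ ≤ θ0 → 0 < t → t ≤ 2 * θ ^ 2 →
      (∀ b x, ‖a (x + t • eb b) - a x‖ ≤ C0 * t ^ (d + 1)) →
      ∀ u g, Sol a (ball 0 1) u g (fun _ => 0) →
        ∃ (c : ℝ) (p : Sp d), nr (ball 0 θ) (fun x => u x - c - ⟪p, x⟫) ≤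
          C * (θ ^ 2 * Real.sqrt (θ ^ d)) * nr (ball 0 1) u := by
  have hd0 : (0:ℝ) ≤ d := Nat.cast_nonneg d
  obtain ⟨Cc, hCc0, hCc⟩ := cacc (d := d) (M := M) hlam (r := 3 / 4) (R := 1) (by norm_num)
    (by norm_num)
  obtain ⟨C, hC1, hC⟩ := step (d := d) (M := M) hlam (D := d + 1) (by omega) hC0
  set cb : ℝ := 1 / (2 * (d + 1)) with hcb
  set L : ℝ := 4 * (5 * d + 2) with hL
  set A : ℝ := 12 / cb * (1 + C ^ 2) with hA
  set E1 : ℝ := 2 ^ d * (2 * (5 * d + 2)) * C with hE1
  have hcb0 : 0 < cb := by positivity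
  have hL0 : 0 < L := by positivity
  have hA0 : 0 < A := by positivity
  have hE10 : 0 ≤ E1 := by positivity
  have hcbd : cb * (d + 1) ≤ 1 / 2 := by
    rw [hcb]
    field_simp
    norm_num
  refine ⟨2 ^ d * (7 * d * E1 + 4 * d) * (Real.sqrt ((A * L) ^ d) * Cc), 1 / (4 * (d + 1) * L),
    by positivity, by positivity, ?_⟩
  intro a ha θ t hθ hθ0 ht htθ hper u g hu
  -- smallness of the parameters
  have hd1 : (1:ℝ) ≤ d + 1 := by linarith
  have hL8 : 8 ≤ L := by rw [hL]; linarith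
  have hθL : L * θ ≤ cb / 2 := by
    have : L * θ ≤ L * (1 / (4 * (d + 1) * L)) := by gcongr
    refine this.trans (le_of_eq ?_)
    rw [hcb]
    field_simp
    norm_num
  have hθs : θ ≤ 1 / (32 * (d + 1)) := by
    refine hθ0.trans ?_
    apply one_div_le_one_div_of_le (by positivity)
    nlinarith
  have hθs' : θ * (32 * (d + 1)) ≤ 1 := by
    rwa [le_div_iff₀ (by positivity)] at hθs
  have hθ1 : θ ≤ 1 / 32 := by nlinarith
  have ht1 : t ≤ L * θ := by nlinarith
  have hdt : d * t ≤ θ := by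
    have h1 : (d:ℝ) * t ≤ d * (2 * θ ^ 2) := by gcongr
    nlinarith
  have ht8 : t < 1 / (8 * ((d + 1 : ℕ) : ℝ)) := by
    push_cast
    rw [lt_div_iff₀ (by positivity)]
    nlinarith
  have hstep := hC a ha t ht ht8 hper
  set K : ℝ := Cc * nr (ball 0 1) u with hK
  have hK0 : 0 ≤ K := mul_nonneg hCc0 (nr_nonneg _ _)
  have hrad0 : rad (d + 1) 0 = 3 / 4 := by simp [rad]
  have hF0 : Fam a t K (d + 1) 0 u g (fun _ => 0) := by
    have hz : ∀ S : Set (Sp d), nr S (fun _ : Sp d => (0 : Sp d)) = 0 := fun S => by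
      rw [nr_const]; simp
    refine ⟨?_, ?_, ?_⟩
    · rw [hrad0]
      exact hu.mono (ball_subset_ball (by norm_num))
    · rw [hrad0]
      have := hCc a ha u g _ hu
      rwa [hz, add_zero] at this
    · rw [hz]
      positivity
  have hsob := sob (by omega) hC1 ht hstep (θ := L * θ) (c := cb) ht1 hθL hcbd d le_rfl
  set r1 : ℝ := (5 * d + 2) * θ with hr1
  have hr10 : 0 < r1 := by positivity
  have h4r1 : 4 * r1 = L * θ := by rw [hr1, hL]; ring
  have hcbq : cb ≤ 1 / 2 := by
    nlinarith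
  have h4r1' : 4 * r1 ≤ 1 / 4 := by rw [h4r1]; linarith
  set Y : ℝ := Real.sqrt ((A * (L * θ)) ^ d) * K with hY
  have hY0 : 0 ≤ Y := by positivity
  have hP0 : 0 ≤ (A * (L * θ)) ^ d := by positivity
  have hY2 : Y ^ 2 = (A * (L * θ)) ^ d * K ^ 2 := by
    rw [hY, mul_pow (Real.sqrt _) K 2, Real.sq_sqrt hP0]
  have hYg : nr (ball 0 (4 * r1)) g ≤ Y := by
    rw [h4r1]
    have h1 := hsob 0 (by omega) K hK0 _ _ _ hF0
    refine (nr_mono (ball_sub_Slb (c := cb)) (memLp_res hu.mg)).trans ?_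
    refine nr_le_of_sq (memLp_res hu.mg) hY0 (h1.trans (le_of_eq ?_))
    rw [hY2]
  have hF1 : ∀ b, Fam a t (C * K) (d + 1) 1 (Dq t b u) (Dq t b g) (DF a t b g fun _ => 0) :=
    fun b => hstep 0 (by omega) K hK0 _ _ _ hF0 b
  have hYD : ∀ b, nr (ball 0 (4 * r1)) (Dq t b g) ≤ C * Y := by
    intro b
    rw [h4r1]
    have h1 := hsob 1 (by omega) (C * K) (by positivity) _ _ _ (hF1 b)
    have mD : MemLp (Dq t b g) 2 volume := (hF1 b).sol.mg
    refine (nr_mono (ball_sub_Slb (c := cb)) (memLp_res mD)).trans ?_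
    refine nr_le_of_sq (memLp_res mD) (by positivity) (h1.trans (le_of_eq ?_))
    rw [mul_pow C Y 2, hY2]
    ring
  -- slopes
  have hrad1 : 1 / 2 ≤ rad (d + 1) 1 := rad_half (by omega) (by omega)
  have hp : ∀ b, ∃ c : ℝ, nr (ball 0 r1) (fun x => Dq t b u x - c) ≤
      2 ^ d * (2 * r1 * (C * Y)) := by
    intro b
    have mD : MemLp (Dq t b u) 2 volume := (hF1 b).sol.mu
    refine poin mD hr10 0 (by positivity) fun v hv => ?_
    rw [mem_ball_zero_iff] at hv
    have h1 := (hF1 b).sol.toWG.translate (r := r1) (y := v) hr10 (by linarith)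
    refine h1.trans ?_
    have h2 : nr (ball 0 (r1 + ‖v‖)) (Dq t b g) ≤ C * Y :=
      (nr_mono (ball_subset_ball (by linarith)) (memLp_res (hF1 b).sol.mg)).trans (hYD b)
    exact mul_le_mul hv.le h2 (nr_nonneg _ _) (by positivity)
  choose q hq using hp
  set p : Sp d := WithLp.toLp 2 q with hpdef
  have hpb : ∀ b, p b = q b := fun b => rfl
  set ε1 : ℝ := 2 ^ d * (2 * r1 * (C * Y)) with hε1
  have hε10 : 0 ≤ ε1 := by positivity
  have hε1E : ε1 = E1 * θ * Y := by rw [hε1, hE1, hr1]; ring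
  have hdis := displ (p := p) hu.toWG ht hθ hY0 hε10 (fun b => by rw [hpb]; exact hq b) hYg
    (le_of_eq hr1.symm) (by linarith) hdt
  set X : ℝ := 5 * d * θ * ε1 + d * t * Y + d * t * (Y + ε1) with hX
  have hX0 : 0 ≤ X := by positivity
  -- the final application of the Poincare inequality
  set f : Sp d → ℝ := (ball (0 : Sp d) 1).indicator (fun x => u x - ⟪p, x⟫) with hf
  have mf : MemLp f 2 volume := by
    rw [hf, memLp_indicator_iff_restrict measurableSet_ball]
    refine (memLp_res hu.mu).sub ?_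
    have hfin : IsFiniteMeasure (volume.restrict (ball (0 : Sp d) 1)) := ⟨by
      rw [Measure.restrict_apply_univ]; exact measure_ball_lt_top⟩
    refine MemLp.of_bound (by fun_prop) ‖p‖ ((ae_restrict_iff' measurableSet_ball).2
      (ae_of_all _ fun x hx => ?_))
    rw [mem_ball_zero_iff] at hx
    refine (norm_inner_le_norm _ _).trans ?_
    exact mul_le_of_le_one_right (norm_nonneg _) hx.le
  set c0 : Sp d := WithLp.toLp 2 (fun _ => 3 * θ) with hc0
  have hc0b : ∀ b, c0 b = 3 * θ := fun b => rfl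
  have hc0n : ‖c0‖ ≤ 3 * d * θ := by
    refine (norm_le_sum_abs c0).trans ?_
    simp only [hc0b, abs_of_pos (show 0 < 3 * θ by positivity)]
    simp
    linarith
  obtain ⟨c, hc⟩ := poin mf hθ c0 hX0 fun v hv => by
    have hvb : ∀ b, |v b - 3 * θ| < 2 * θ := fun b => by
      rw [mem_ball_iff_norm] at hv
      have := abs_apply_le (v - c0) b
      exact lt_of_le_of_lt this hv
    have hv0 : ∀ b, 0 ≤ v b := fun b => by
      have := (abs_lt.1 (hvb b)).1
      linarith
    have hv5 : ∀ b, v b ≤ 5 * θ := fun b => by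
      have := (abs_lt.1 (hvb b)).2
      linarith
    have hvn : ‖v‖ ≤ 5 * d * θ := by
      refine (norm_le_sum_abs v).trans ?_
      have : ∀ b, |v b| ≤ 5 * θ := fun b => by rw [abs_of_nonneg (hv0 b)]; exact hv5 b
      refine (Finset.sum_le_sum fun b _ => this b).trans ?_
      simp
      linarith
    have e : nr (ball 0 θ) (fun x => f (x + v) - f x) =
        nr (ball 0 θ) (fun x => u (x + v) - u x - ⟪p, v⟫) := by
      refine nr_congr measurableSet_ball fun x hx => ?_
      rw [mem_ball_zero_iff] at hx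
      have h1 : x ∈ ball (0 : Sp d) 1 := by rw [mem_ball_zero_iff]; linarith
      have h2 : x + v ∈ ball (0 : Sp d) 1 := by
        rw [mem_ball_zero_iff]
        refine (norm_add_le _ _).trans_lt ?_
        nlinarith
      rw [hf, indicator_of_mem h1, indicator_of_mem h2, inner_add_right]
      ring
    rw [e]
    exact hdis v hv0 hv5
  refine ⟨c, p, ?_⟩
  have e : nr (ball 0 θ) (fun x => u x - c - ⟪p, x⟫) = nr (ball 0 θ) (fun x => f x - c) := by
    refine nr_congr measurableSet_ball fun x hx => ?_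
    rw [mem_ball_zero_iff] at hx
    have h1 : x ∈ ball (0 : Sp d) 1 := by rw [mem_ball_zero_iff]; linarith
    rw [hf, indicator_of_mem h1]
    ring
  rw [e]
  refine hc.trans ?_
  have hXb : X ≤ (7 * d * E1 + 4 * d) * (θ ^ 2 * Y) := by
    have h1 : d * t * Y ≤ d * (2 * θ ^ 2) * Y := by gcongr
    have h2 : d * t * (Y + ε1) ≤ d * (2 * θ ^ 2) * (Y + E1 * Y) := by
      have : ε1 ≤ E1 * Y := by
        rw [hε1E]
        have : E1 * θ * Y = θ * (E1 * Y) := by ring
        rw [this]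
        exact mul_le_of_le_one_left (by positivity) (by linarith)
      gcongr
    have h0 : 5 * d * θ * ε1 = 5 * d * θ * (E1 * θ * Y) := by rw [hε1E]
    calc X = 5 * d * θ * ε1 + d * t * Y + d * t * (Y + ε1) := hX
      _ ≤ 5 * d * θ * (E1 * θ * Y) + d * (2 * θ ^ 2) * Y + d * (2 * θ ^ 2) * (Y + E1 * Y) := by
          linarith
      _ = _ := by ring
  have hYe : Y = Real.sqrt ((A * L) ^ d) * Real.sqrt (θ ^ d) * (Cc * nr (ball 0 1) u) := by
    rw [hY, ← mul_assoc A L θ, mul_pow, Real.sqrt_mul (by positivity)]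
  calc 2 ^ d * X ≤ 2 ^ d * ((7 * d * E1 + 4 * d) * (θ ^ 2 * Y)) := by gcongr
    _ = _ := by rw [hYe]; ring

end Run7.h682
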